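import Pool.Agent.Lib.H16U.Reg
import Pool.Agent.Lib.HUK.C1
import Pool.Agent.Lib.HUK.D12

/-!
# H16U, module C, part A: windows for the primes
-/

open Finset

namespace Pool.Agent.H16U

open Pool.Agent.HUK
open Pool.Agent.H44W (ee)
open Pool.Agent.Lib.H68T (lp)

/-- Windows cost a logarithm. -/
theorem CA_win (A : ℤ → ℂ) (hA : A 0 = 0) (X k : ℕ) (hk : 2 ≤ k) (hX : 1 ≤ X) (f : ℕ → ℤ → ℂ) (D : ℝ)
    (hD : ∀ θ : ℝ, ‖∑ n ∈ Icc 1 (2 * k * X), A n * Psi X k (phf k θ f) n‖ ≤ D) (u v : ℤ) (hu : 0 ≤ u) (hv : v ≤ X) :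
    ‖∑ n ∈ Ico u v, A n * Psi X k f n‖ ≤ 4 * (1 + Real.log ((2 * k * X + 1 : ℕ) : ℝ)) * D := by
  obtain ⟨b, hb0, hbs, hb⟩ := D12_ind (2 * k * X + 1) (by omega)
  obtain ⟨c, hc, hcm⟩ := hb u v
  have hD0 : 0 ≤ D := (norm_nonneg _).trans (hD 0)
  have e1 : ∑ n ∈ Ico u v, A n * Psi X k f n =
      ∑ n ∈ Icc 1 (2 * k * X), (if u ≤ (n : ℤ) ∧ (n : ℤ) < v then (1 : ℂ) else 0) * (A n * Psi X k f n) := by
    have e2 : ∑ n ∈ Icc 1 (2 * k * X), (if u ≤ (n : ℤ) ∧ (n : ℤ) < v then (1 : ℂ) else 0) * (A n * Psi X k f n) =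
        ∑ n ∈ (Icc 1 (2 * k * X)).filter (fun n : ℕ => u ≤ (n : ℤ) ∧ (n : ℤ) < v), A n * Psi X k f n := by
      rw [sum_filter]
      refine sum_congr rfl fun n _ => ?_
      split_ifs <;> ring
    rw [e2]
    have e3 : ∑ n ∈ Ico u v, A n * Psi X k f n = ∑ n ∈ (Ico u v).filter (fun n => n ≠ 0), A n * Psi X k f n := by
      rw [sum_filter]
      refine sum_congr rfl fun n _ => ?_
      split_ifs with h
      · rfl
      · push Not at h
        rw [h, hA, zero_mul]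
    rw [e3]
    refine sum_bij' (fun n _ => n.toNat) (fun n _ => (n : ℤ)) ?_ ?_ ?_ ?_ ?_
    · intro n hn
      simp only [mem_filter, mem_Ico, mem_Icc] at hn ⊢
      have h1 : n ≤ X := by omega
      have h2 : X ≤ 2 * k * X := by nlinarith
      have h3 : (n.toNat : ℤ) = n := Int.toNat_of_nonneg (by omega)
      have h4 : n.toNat ≤ X := by omega
      refine ⟨⟨by omega, by omega⟩, by omega, by omega⟩
    · intro n hn
      simp only [mem_filter, mem_Ico, mem_Icc] at hn ⊢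
      omega
    · intro n hn
      simp only [mem_filter, mem_Ico] at hn
      exact Int.toNat_of_nonneg (by omega)
    · intro n _
      exact Int.toNat_natCast n
    · intro n hn
      simp only [mem_filter, mem_Ico] at hn
      rw [Int.toNat_of_nonneg (by omega)]
  rw [e1]
  have e4 : ∑ n ∈ Icc 1 (2 * k * X), (if u ≤ (n : ℤ) ∧ (n : ℤ) < v then (1 : ℂ) else 0) * (A n * Psi X k f n) =
      ∑ j ∈ range (2 * k * X + 1), c j * ∑ n ∈ Icc 1 (2 * k * X), A n *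
        Psi X k (phf k ((j : ℝ) / ((2 * k * X + 1 : ℕ) : ℝ)) f) n := by
    simp only [mul_sum]
    rw [sum_comm]
    refine sum_congr rfl fun n hn => ?_
    rw [mem_Icc] at hn
    rw [hcm n (by omega) (by omega), sum_mul]
    refine sum_congr rfl fun j _ => ?_
    rw [← C1_phase X k hk, show ((j : ℝ) * ((n : ℤ) : ℝ) / ((2 * k * X + 1 : ℕ) : ℝ)) =
      (j : ℝ) / ((2 * k * X + 1 : ℕ) : ℝ) * ((n : ℤ) : ℝ) by ring]
    ring
  rw [e4]
  calc ‖∑ j ∈ range (2 * k * X + 1), c j * ∑ n ∈ Icc 1 (2 * k * X), A n *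
        Psi X k (phf k ((j : ℝ) / ((2 * k * X + 1 : ℕ) : ℝ)) f) n‖
      ≤ ∑ j ∈ range (2 * k * X + 1), b j * D := by
        refine norm_sum_le_of_le _ fun j hj => ?_
        rw [norm_mul]
        exact mul_le_mul (hc j hj) (hD _) (norm_nonneg _) (hb0 j)
    _ = (∑ j ∈ range (2 * k * X + 1), b j) * D := by rw [sum_mul]
    _ ≤ _ := mul_le_mul_of_nonneg_right hbs hD0

theorem lp_zero : Pool.Agent.Lib.H68T.lp 0 = 0 := by
  unfold Pool.Agent.Lib.H68T.lp
  rw [if_neg]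
  decide

/-- `k ≤ log X` in the regime. -/
theorem RG.k_le {B k X : ℕ} (h : RG B k X) (hB : 1 ≤ B) : (k : ℝ) ≤ Real.log X := by
  have h1 : RG 1 k X := h.mono hB
  unfold RG at h1
  rw [one_mul] at h1
  refine le_trans ?_ h1
  calc (k : ℝ) ≤ ((2 ^ k : ℕ) : ℝ) := by exact_mod_cast (Nat.lt_two_pow_self (n := k)).le
    _ ≤ 2 ^ (2 ^ k) := nat_le_two_pow (2 ^ k)

/-- Passing from `X` to `X' ≤ 10 k X`. -/
theorem CA_size {B k X X' : ℕ} (h : RG B k X) (hB : 1 ≤ B) (hL : 100 ≤ Real.log X) (h1 : X ≤ X') (h2 : X' ≤ 10 * k * X) :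
    Real.log X ≤ Real.log X' ∧ Real.log X' ≤ 2 * Real.log X ∧
      (X' : ℝ) ^ 2 ≤ 100 * (Real.log X) ^ 2 * (X : ℝ) ^ 2 := by
  have hX0 := h.X_pos
  have hX : (0 : ℝ) < X := by exact_mod_cast hX0
  have hX' : (0 : ℝ) < X' := by exact_mod_cast (lt_of_lt_of_le hX0 h1)
  have hk := h.k_le hB
  have h3 : (X' : ℝ) ≤ 10 * Real.log X * X := by
    calc (X' : ℝ) ≤ ((10 * k * X : ℕ) : ℝ) := by exact_mod_cast h2
      _ = 10 * k * X := by push_cast; ring
      _ ≤ 10 * Real.log X * X := by gcongr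
  refine ⟨Real.log_le_log hX (by exact_mod_cast h1), ?_, ?_⟩
  · have h4 : 10 * Real.log X ≤ X := by
      have h5 := Real.add_one_le_exp (Real.log X / 2)
      have h6 : Real.exp (Real.log X / 2) * Real.exp (Real.log X / 2) = X := by
        rw [← Real.exp_add, add_halves, Real.exp_log hX]
      nlinarith
    calc Real.log X' ≤ Real.log (10 * Real.log X * X) := Real.log_le_log hX' h3
      _ ≤ Real.log (X * X) := Real.log_le_log (by positivity) (by gcongr)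
      _ = 2 * Real.log X := by rw [Real.log_mul hX.ne' hX.ne']; ring
  · calc (X' : ℝ) ^ 2 ≤ (10 * Real.log X * X) ^ 2 := by gcongr
      _ = 100 * (Real.log X) ^ 2 * (X : ℝ) ^ 2 := by ring

/-- Passing from `X` to `X'` for the savings. -/
theorem CA_SR {B k X X' : ℕ} (h : RG B k X) (hB : 1 ≤ B) (hL : 100 ≤ Real.log X) (hL2 : 64 ≤ Real.log X) (h1 : X ≤ X')
    (h2 : X' ≤ 10 * k * X) (s : ℝ) (hs : SC X s) : SR X' s := by
  obtain ⟨a1, a2, -⟩ := CA_size h hB hL h1 h2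
  obtain ⟨L, hLe⟩ : ∃ L, L = Real.log X := ⟨_, rfl⟩
  obtain ⟨c1, c2⟩ := hs
  rw [← hLe] at hL hL2 a1 a2 c1 c2
  refine ⟨?_, c2.trans (Real.rpow_le_rpow (by linarith) a1 (by norm_num))⟩
  refine le_trans ?_ c1
  calc (Real.log X') ^ (1 / 7 : ℝ) ≤ (2 * L) ^ (1 / 7 : ℝ) := Real.rpow_le_rpow (by linarith) a2 (by norm_num)
    _ = 2 ^ (1 / 7 : ℝ) * L ^ (1 / 7 : ℝ) := Real.mul_rpow (by norm_num) (by linarith)
    _ = (64 : ℝ) ^ (1 / 42 : ℝ) * L ^ (1 / 7 : ℝ) := by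
        rw [show (64 : ℝ) = 2 ^ (6 : ℝ) by norm_num, ← Real.rpow_mul (by norm_num)]
        norm_num
    _ ≤ L ^ (1 / 42 : ℝ) * L ^ (1 / 7 : ℝ) := by
        gcongr
    _ = L ^ (1 / 6 : ℝ) := by
        rw [← Real.rpow_add (by linarith)]
        norm_num

/-- **Chunk CA**: the primes on windows and on the scale `X' ≤ 10 k X`. -/
theorem CA_TP (B0 : ℕ) (h : TLPu B0) : ∃ B : ℕ, TPu B := by
  obtain ⟨B1, hB1, habs⟩ := RG.absorb B0 2
  obtain ⟨B2, hlarge⟩ := RG.large 100000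
  refine ⟨B1 + B2 + 1, fun k hk X X' hR h1 h2 s hs f hf hG u v hu hv => ?_⟩
  have hL := hlarge k X (by omega) (hR.mono (by omega))
  have hX0 := hR.X_pos
  have hX : (0 : ℝ) < X := by exact_mod_cast hX0
  obtain ⟨a1, a2, a3⟩ := CA_size hR (by omega) (by linarith) h1 h2
  have hSR := CA_SR hR (by omega) (by linarith) (by linarith) h1 h2 s hs
  have hkL := hR.k_le (by omega)
  have hR' : RG B0 k X' := (hR.mono (by omega)).monoX h1 (by omega)
  have hD : ∀ θ : ℝ, ‖∑ n ∈ Icc 1 (2 * k * X'), ((Pool.Agent.Lib.H68T.lp n : ℝ) : ℂ) * Psi X' k (phf k θ f) n‖ ≤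
      (X' : ℝ) ^ 2 * Real.exp (-(s / mk B0 k)) := by
    intro θ
    refine h k hk X' hR' s hSR (phf k θ f) (C1_phase_bdd X' k f θ hf) ?_
    rw [C1_phase_GG X' k (k - 1) (by omega)]
    exact hG
  have hw := CA_win (fun n => ((Pool.Agent.Lib.H68T.lp n : ℝ) : ℂ)) (by simp [lp_zero]) X' k (by omega) (by omega) f _ hD u v hu
    (hv.trans (by exact_mod_cast h1))
  refine hw.trans ?_
  have hs7 : (Real.log X) ^ (1 / 7 : ℝ) ≤ s :=
    (Real.rpow_le_rpow_of_exponent_le (by linarith) (by norm_num)).trans hs.lo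
  have hab := habs k X (by omega) (hR.mono (by omega)) s hs7
  have hs0 : 0 < s := lt_of_lt_of_le (Real.rpow_pos_of_pos (by linarith) _) hs7
  obtain ⟨L, hLe⟩ : ∃ L, L = Real.log X := ⟨_, rfl⟩
  rw [← hLe] at hL a1 a2 a3 hkL hab
  have hX'0 : 0 < X' := by omega
  have hXr : (0 : ℝ) < X' := by exact_mod_cast hX'0
  have hlog : Real.log ((2 * k * X' + 1 : ℕ) : ℝ) ≤ 4 * L := by
    have e1 : ((2 * k * X' + 1 : ℕ) : ℝ) ≤ 3 * L * X' := by
      have e3 : (1 : ℝ) ≤ X' := by exact_mod_cast hX'0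
      have e4 : (1 : ℝ) ≤ L := by linarith
      push_cast
      nlinarith [mul_le_mul hkL (le_refl (X' : ℝ)) (by positivity) (by linarith), mul_le_mul e4 e3 (by norm_num) (by linarith)]
    calc Real.log ((2 * k * X' + 1 : ℕ) : ℝ) ≤ Real.log (3 * L * X') := Real.log_le_log (by positivity) e1
      _ = Real.log (3 * L) + Real.log X' := Real.log_mul (by positivity) hXr.ne'
      _ ≤ 2 * L + 2 * L := by
          have e5 : Real.log (3 * L) ≤ 2 * L := by
            rw [Real.log_mul (by norm_num) (by positivity)]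
            have e6 := Real.log_le_sub_one_of_pos (show 0 < L by linarith)
            have e7 : Real.log 3 ≤ 2 := by
              have := Real.log_le_sub_one_of_pos (show (0:ℝ) < 3 by norm_num)
              linarith
            linarith
          linarith
      _ = 4 * L := by ring
  have hexp0 : 0 < Real.exp (-(s / mk B0 k)) := Real.exp_pos _
  calc 4 * (1 + Real.log ((2 * k * X' + 1 : ℕ) : ℝ)) * ((X' : ℝ) ^ 2 * Real.exp (-(s / mk B0 k)))
      ≤ 4 * (1 + 4 * L) * ((100 * L ^ 2 * (X : ℝ) ^ 2) * Real.exp (-(s / mk B0 k))) := by gcongr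
    _ = (400 * (1 + 4 * L) * L ^ 2) * ((X : ℝ) ^ 2 * Real.exp (-(s / mk B0 k))) := by ring
    _ ≤ (L ^ 4) * ((X : ℝ) ^ 2 * Real.exp (-(s / mk B0 k))) := by
        gcongr
        nlinarith [sq_nonneg L, mul_le_mul hL (le_refl (L ^ 2)) (by positivity) (by linarith),
          mul_le_mul hL (le_refl (L ^ 3)) (by positivity) (by linarith)]
    _ ≤ (L ^ (2 ^ (2 ^ (2 * k)))) * ((X : ℝ) ^ 2 * Real.exp (-(s / mk B0 k))) := by
        gcongr
        · linarith
        · calc 4 = 2 ^ 2 := by norm_num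
            _ ≤ 2 ^ (2 ^ (2 * k)) := Nat.pow_le_pow_right (by norm_num) (by
                calc 2 = 2 ^ 1 := by norm_num
                  _ ≤ 2 ^ (2 * k) := Nat.pow_le_pow_right (by norm_num) (by omega))
    _ = (X : ℝ) ^ 2 * (L ^ (2 ^ (2 ^ (2 * k))) * Real.exp (-(s / mk B0 k))) := by ring
    _ ≤ (X : ℝ) ^ 2 * Real.exp (-(s / mk B1 k)) := by gcongr
    _ ≤ (X : ℝ) ^ 2 * Real.exp (-(s / mk (B1 + B2 + 1) k)) := by
        gcongr
        · exact mk_pos _ _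
        · exact mk_mono (by omega) k

end Pool.Agent.H16U
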