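import Pool.Agent.Lib.H16U.FDefs
import Pool.Agent.Lib.HUK.C5

/-!
# H16U, chunk CB (M): the closure step
-/

open Finset

namespace Pool.Agent.H16U

open Pool.Agent.HUK

theorem cb_cj (n : ℕ) (r : ℝ) : cj n (r : ℂ) = r := by
  unfold cj
  split_ifs
  · rfl
  · exact Complex.conj_ofReal r

theorem cb_mdl (X : ℕ) (e : EData) (he : EOk X e) (hc : 1 ≤ cS X) (n : ℤ) : 0 ≤ mdl X e n ∧ mdl X e n ≤ 2 * cS X := by
  classical
  unfold mdl
  split_ifs with h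
  · have h1 : (1 : ℝ) ≤ (n : ℝ) := by exact_mod_cast h.1
    have h2 : (n : ℝ) ^ (e.β - 1) ≤ 1 := Real.rpow_le_one_of_one_le_of_nonpos h1 (by linarith [he.b1])
    have h3 : 0 ≤ (n : ℝ) ^ (e.β - 1) := Real.rpow_nonneg (by linarith) _
    have h4 := abs_le.1 (he.bd n)
    have h5 : e.χ n * (n : ℝ) ^ (e.β - 1) ≤ 1 := by nlinarith
    have h6 : -1 ≤ e.χ n * (n : ℝ) ^ (e.β - 1) := by nlinarith
    constructor
    · exact mul_nonneg (by linarith) (by linarith)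
    · nlinarith
  · exact ⟨le_refl _, by linarith⟩

theorem cb_EE (X : ℕ) (e : EData) (he : EOk X e) (hc : 1 ≤ cS X) (hL : cS X ≤ Real.log X) (n : ℤ) (hn : n ≤ X) :
    ‖EE X e n‖ ≤ 3 * Real.log X := by
  unfold EE
  rw [Complex.norm_real, Real.norm_eq_abs]
  have h1 := cb_mdl X e he hc n
  have h2 : 0 ≤ Pool.Agent.Lib.H68T.lp n ∧ Pool.Agent.Lib.H68T.lp n ≤ Real.log X := by
    unfold Pool.Agent.Lib.H68T.lp
    split_ifs with hp
    · have h3 := hp.one_lt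
      have h4 : (1 : ℝ) ≤ (n : ℝ) := by
        have : (1 : ℤ) ≤ n := by omega
        exact_mod_cast this
      exact ⟨Real.log_nonneg h4, Real.log_le_log (by linarith) (by exact_mod_cast hn)⟩
    · exact ⟨le_refl _, by linarith⟩
  rw [abs_le]
  constructor <;> linarith [h1.1, h1.2, h2.1, h2.2]

theorem cb_inner (X r : ℕ) (e : EData) (c : ℝ) (G : ℤ → ℂ) (u v : ℤ) (hu : 0 ≤ u) (hv : v ≤ X) :
    ∑ m ∈ Ico (-(X : ℤ)) X, cj (r + 1) ((c : ℂ) * cut u v (EE X e) m) * G m =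
      (c : ℂ) * (∑ m ∈ Ico u v, ((Pool.Agent.Lib.H68T.lp m : ℝ) : ℂ) * G m - ∑ m ∈ Ico u v, ((mdl X e m : ℝ) : ℂ) * G m) := by
  rw [← sum_sub_distrib, mul_sum]
  have h1 : Ico u v ⊆ Ico (-(X : ℤ)) X := fun m hm => by
    rw [mem_Ico] at hm ⊢
    omega
  rw [← sum_subset h1]
  · refine sum_congr rfl fun m hm => ?_
    rw [mem_Ico] at hm
    unfold cut EE
    rw [if_pos hm, ← Complex.ofReal_mul, cb_cj]
    push_cast
    ring
  · intro m _ hm
    unfold cut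
    rw [if_neg (fun h => hm (mem_Ico.2 h)), mul_zero]
    have : cj (r + 1) (0 : ℂ) = 0 := by
      have h := cb_cj (r + 1) 0
      simpa using h
    rw [this, zero_mul]

theorem cb_ESSC {X : ℕ} {e : EData} {s : ℝ} (h : ES X e s) (hL : 1 ≤ Real.log X) : SC X s := by
  rcases h with ⟨_, _, h⟩ | ⟨h1, h2⟩
  · exact h
  · exact ⟨(Real.rpow_le_rpow_of_exponent_le hL (by norm_num)).trans h1, h2⟩

/-- Proof: adapt `HUK.C6_close` (`HUK/C6.lean`). `r = k - 1`, `F = cut u v (EE X e)` (`0 ≤ u`, `v ≤ X`), supported in `[0, X)`, real valued, `‖F m‖ ≤ lam := 3 log X`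
(`lp m ≤ log X`, `0 ≤ mdl ≤ 2 cS X`, as `|χ| ≤ 1`, `m^(β-1) ≤ 1` for `m ≥ 1`); `f = F / lam`: `Bdd X f`, `GG X k F = lam^(2^k) GG X k f` (`C1_smul`).
`C5_slice` with `Y = X`, `Y' = X' := (8 r + 1) X ≤ 10 k X`, `s = r`; for each `e' ∈ bxS r (4X)`: `C5_bdd`, `GG X' r (sl f e' 0) = GG X r f ≤ GG X r F ≤ X^k exp (-s) ≤ X'^k exp (-s)`
(`C5_zero`, `GG_shift`, `PKu X e (k-1) s` and `lam ≥ 1`). Inner sum: `lam⁻¹ (∑_{m ∈ Ico u v} lp m Psi X' k f m - ∑ mdl m Psi ..)`, at most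
`X^2 exp (-(s/mk B0 k)) + X^2 exp (-(s/mk B1 k))` (`hT`, `hM`; `ES` gives `SC`). Number of `e'`: `≤ (8X)^r`. Total
`(3L)^(2^k) 8^r 2 X^(k+1) exp (-(s / mk (max B0 B1) k))`, then `RG.absorb`. -/
theorem CB_close (B0 B1 : ℕ) (hT : TPu B0) (hM : TMu B1) (hc : CSb) : ∃ B : ℕ, CLu B := by
  obtain ⟨X0, hX0⟩ := hc
  obtain ⟨B2, hB2⟩ := RG.large (Real.log ((X0 : ℝ) + 1))
  obtain ⟨B3, hB3⟩ := RG.large 10
  obtain ⟨B4, hB4, habs⟩ := RG.absorb (B0 + B1) 2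
  refine ⟨B2 + B3 + B4, fun k hk X hR e s he hs hP => ?_⟩
  obtain ⟨r, rfl⟩ : ∃ r, k = r + 1 := ⟨k - 1, by omega⟩
  have hr : 2 ≤ r := by omega
  have hrr : r + 1 - 1 = r := by omega
  rw [hrr] at hP
  have hX1 : 0 < X := hR.X_pos
  have hXr : (0 : ℝ) < X := by exact_mod_cast hX1
  have hXX : X0 ≤ X := by
    have h1 := hB2 (r + 1) X (by omega) (hR.mono (by omega))
    have h2 : (X0 : ℝ) + 1 ≤ X := (Real.log_le_log_iff (by positivity) hXr).1 h1
    have h3 : (X0 : ℝ) ≤ X := by linarith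
    exact_mod_cast h3
  obtain ⟨hc1, hc2⟩ := hX0 X hXX
  have hL10 := hB3 (r + 1) X (by omega) (hR.mono (by omega))
  obtain ⟨lam, hlam⟩ : ∃ lam : ℝ, lam = 3 * Real.log X := ⟨_, rfl⟩
  have hlam1 : 1 ≤ lam := by rw [hlam]; linarith
  have hlam0 : 0 < lam := by linarith
  have hSC : SC X s := cb_ESSC hs (by linarith)
  have hs7 : (Real.log X) ^ (1 / 7 : ℝ) ≤ s :=
    (Real.rpow_le_rpow_of_exponent_le (by linarith) (by norm_num)).trans hSC.lo
  have hs0 : 0 < s := lt_of_lt_of_le (Real.rpow_pos_of_pos (by linarith) _) hs7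
  intro u v hu hv
  obtain ⟨F, hF⟩ : ∃ F : ℤ → ℂ, F = cut u v (EE X e) := ⟨_, rfl⟩
  have hPF : GG X r F ≤ (X : ℝ) ^ (r + 1) * Real.exp (-s) := by
    rw [hF]
    exact hP u v hu hv
  rw [← hF]
  obtain ⟨f, hf⟩ : ∃ f : ℤ → ℂ, f = fun x => ((lam⁻¹ : ℝ) : ℂ) * F x := ⟨_, rfl⟩
  have hFf : F = fun x => ((lam : ℝ) : ℂ) * f x := by
    funext x
    rw [hf]
    have hbc : (lam : ℂ) ≠ 0 := by exact_mod_cast hlam0.ne'
    push_cast
    field_simp
  have hFs : ∀ y, y ∉ Ico (-(X : ℤ)) X → F y = 0 := by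
    intro y hy
    rw [hF]
    unfold cut
    rw [if_neg]
    intro h
    apply hy
    rw [mem_Ico]
    omega
  have hfB : Bdd X f := by
    constructor
    · intro y
      rw [hf]
      simp only
      rw [norm_mul, Complex.norm_real, Real.norm_of_nonneg (inv_nonneg.2 hlam0.le), hF]
      unfold cut
      split_ifs with hy
      · rw [inv_mul_le_iff₀ hlam0, mul_one, hlam]
        exact cb_EE X e he hc1 hc2 y (by omega)
      · rw [norm_zero, mul_zero]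
        exact zero_le_one
    · intro y hy
      rw [hf]
      simp only
      rw [hFs y hy, mul_zero]
  have hG1 : GG X (r + 1) F = lam ^ (2 ^ (r + 1)) * GG X (r + 1) f := by
    rw [hFf]
    exact C1_smul _ _ _ _
  have hG2 : GG X r f ≤ (X : ℝ) ^ (r + 1) * Real.exp (-s) := by
    have h1 : GG X r f = (lam⁻¹) ^ (2 ^ r) * GG X r F := by
      rw [hf]
      exact C1_smul _ _ _ _
    rw [h1]
    have h7 : 0 ≤ GG X r F := GG_nonneg _ _ (by omega) _ hFs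
    have h8 : (lam⁻¹) ^ (2 ^ r) ≤ 1 := pow_le_one₀ (inv_nonneg.2 hlam0.le) (inv_le_one_of_one_le₀ hlam1)
    calc (lam⁻¹) ^ (2 ^ r) * GG X r F ≤ 1 * GG X r F := mul_le_mul_of_nonneg_right h8 h7
      _ ≤ _ := by rw [one_mul]; exact hPF
  obtain ⟨X', hX'⟩ : ∃ X' : ℕ, X' = (8 * r + 1) * X := ⟨_, rfl⟩
  have hXX' : X ≤ X' := by rw [hX']; nlinarith
  have hX'2 : X' ≤ 10 * (r + 1) * X := by rw [hX']; nlinarith
  have hsl := C5_slice X X' r (by omega) hXX' f hfB.sup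
  obtain ⟨E, hE⟩ : ∃ E : ℝ, E = Real.exp (-(s / mk (B0 + B1) (r + 1))) := ⟨_, rfl⟩
  have hE0 : 0 < E := by rw [hE]; exact Real.exp_pos _
  have hone : ∀ e' ∈ bxS r (4 * X), ‖∑ m ∈ Ico (-(X : ℤ)) X, cj (r + 1) (f m) * Psi X' (r + 1) (sl f e') m‖ ≤
      2 * (X : ℝ) ^ 2 * E := by
    intro e' he'
    have h7 : ∀ j, j < r + 1 → Bdd X' (sl f e' j) := by
      intro j hj
      have h8 := C5_bdd X r j (by omega) f hfB e' he'
      rw [hX']
      exact h8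
    have h8 : GG X' (r + 1 - 1) (sl f e' 0) ≤ (X' : ℝ) ^ (r + 1) * Real.exp (-s) := by
      rw [hrr]
      have h9 : sl f e' 0 = fun x => f (x + (-∑ i, e' i)) := by
        funext x
        rw [C5_zero, sub_eq_add_neg]
      have h10 := (h7 0 (by omega)).sup
      rw [h9] at h10 ⊢
      rw [GG_shift X X' r (-∑ i, e' i) f hfB.sup h10]
      refine hG2.trans ?_
      gcongr
    have hTT := hT (r + 1) hk X X' (hR.mono (by omega)) hXX' hX'2 s hSC
      (sl f e') h7 h8 u v hu hv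
    have hMM := hM (r + 1) hk X X' (hR.mono (by omega)) hXX' hX'2 e s he hs (sl f e') h7 h8 u v hu hv
    have hb1 : Real.exp (-(s / mk B0 (r + 1))) ≤ E := by
      rw [hE]
      gcongr
      · exact mk_pos _ _
      · exact mk_mono (by omega) _
    have hb2 : Real.exp (-(s / mk B1 (r + 1))) ≤ E := by
      rw [hE]
      gcongr
      · exact mk_pos _ _
      · exact mk_mono (by omega) _
    rw [hf, hF]
    rw [hf, hF] at hTT hMM
    simp only
    rw [cb_inner X r e lam⁻¹ _ u v hu hv, norm_mul, Complex.norm_real, Real.norm_of_nonneg (inv_nonneg.2 hlam0.le)]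
    have hX2 : 0 ≤ (X : ℝ) ^ 2 := by positivity
    calc lam⁻¹ * ‖_‖ ≤ 1 * ‖_‖ := mul_le_mul_of_nonneg_right (inv_le_one_of_one_le₀ hlam1) (norm_nonneg _)
      _ = ‖_‖ := one_mul _
      _ ≤ _ := (norm_sub_le _ _).trans (by
        have h11 := mul_le_mul_of_nonneg_left hb1 hX2
        have h12 := mul_le_mul_of_nonneg_left hb2 hX2
        linarith)
  have htot : GG X (r + 1) f ≤ (8 * X) ^ r * (2 * (X : ℝ) ^ 2 * E) := by
    have h7 := GG_real X (r + 1) (by omega) f hfB.sup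
    rw [hsl] at h7
    have h8 : GG X (r + 1) f ≤ ‖((GG X (r + 1) f : ℝ) : ℂ)‖ := by
      rw [Complex.norm_real]
      exact le_abs_self _
    rw [← h7] at h8
    refine h8.trans ((norm_sum_le_of_le _ hone).trans ?_)
    rw [sum_const, nsmul_eq_mul]
    refine mul_le_mul_of_nonneg_right ?_ (by positivity)
    have h9 := bxS_card r (4 * X)
    refine h9.trans (le_of_eq ?_)
    push_cast
    congr 1
    ring
  rw [hG1]
  obtain ⟨L, hLe⟩ : ∃ L, L = Real.log X := ⟨_, rfl⟩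
  have hab := habs (r + 1) X (by omega) (hR.mono (by omega)) s hs7
  rw [← hLe] at hlam hL10 hab
  have hL0 : 0 < L := by linarith
  have hL1 : 1 ≤ L := by linarith
  have hfac : lam ^ (2 ^ (r + 1)) * 8 ^ r * 2 ≤ L ^ (2 ^ (2 ^ (2 * (r + 1)))) := by
    have a1 : lam ≤ L ^ 2 := by rw [hlam]; nlinarith
    have a2 : lam ^ (2 ^ (r + 1)) ≤ L ^ (2 * 2 ^ (r + 1)) := by
      rw [pow_mul]
      exact pow_le_pow_left₀ hlam0.le a1 _
    have a3 : (8 : ℝ) ^ r ≤ L ^ r := pow_le_pow_left₀ (by norm_num) (by linarith) _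
    calc lam ^ (2 ^ (r + 1)) * 8 ^ r * 2 ≤ L ^ (2 * 2 ^ (r + 1)) * L ^ r * L := by
          gcongr
          linarith
      _ = L ^ (2 * 2 ^ (r + 1) + r + 1) := by rw [← pow_add, ← pow_succ]
      _ ≤ L ^ (2 ^ (2 ^ (2 * (r + 1)))) := by
          refine pow_le_pow_right₀ hL1 ?_
          have b1 : r + 1 ≤ 2 ^ (r + 1) := (Nat.lt_two_pow_self (n := r + 1)).le
          have b2 : 2 * (r + 1) + 1 ≤ 2 ^ (2 * (r + 1)) := Nat.lt_two_pow_self (n := 2 * (r + 1))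
          calc 2 * 2 ^ (r + 1) + r + 1 ≤ 2 ^ (r + 1 + 2) := by
                rw [pow_add 2 (r + 1) 2]
                omega
            _ ≤ 2 ^ (2 ^ (2 * (r + 1))) := Nat.pow_le_pow_right (by norm_num) (by omega)
  have hlp : 0 ≤ lam ^ (2 ^ (r + 1)) := by positivity
  calc lam ^ (2 ^ (r + 1)) * GG X (r + 1) f ≤ lam ^ (2 ^ (r + 1)) * ((8 * X) ^ r * (2 * (X : ℝ) ^ 2 * E)) :=
        mul_le_mul_of_nonneg_left htot hlp
    _ = (X : ℝ) ^ (r + 1 + 1) * ((lam ^ (2 ^ (r + 1)) * 8 ^ r * 2) * E) := by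
        rw [mul_pow]
        ring
    _ ≤ (X : ℝ) ^ (r + 1 + 1) * (L ^ (2 ^ (2 ^ (2 * (r + 1)))) * E) := by gcongr
    _ ≤ (X : ℝ) ^ (r + 1 + 1) * Real.exp (-(s / mk B4 (r + 1))) := by
        rw [hE]
        gcongr
    _ ≤ (X : ℝ) ^ (r + 1 + 1) * Real.exp (-(s / mk (B2 + B3 + B4) (r + 1))) := by
        gcongr
        · exact mk_pos _ _
        · exact mk_mono (by omega) _

end Pool.Agent.H16U
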