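import Pool.Agent.Lib.H16U.FDefs

/-!
# H16U, chunk CC (M): iteration of the closure step
-/

open Finset

namespace Pool.Agent.H16U

open Pool.Agent.HUK

/-- In the regime with `B` large, `X` is large. -/
theorem RG.largeX (X0 : ℕ) : ∃ B : ℕ, ∀ k X : ℕ, 1 ≤ k → RG B k X → X0 ≤ X := by
  obtain ⟨B, hB⟩ := RG.large (Real.log ((X0 : ℝ) + 1))
  refine ⟨B, fun k X hk h => ?_⟩
  have h1 := hB k X hk h
  have hX : (0 : ℝ) < X := by exact_mod_cast h.X_pos
  have h2 : (X0 : ℝ) + 1 ≤ X := (Real.log_le_log_iff (by positivity) hX).1 h1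
  have h3 : (X0 : ℝ) ≤ X := by linarith
  exact_mod_cast h3

/-- Proof. `P2u` gives `e`, `s2` and `PKu X e 2 s2`. With `s_j = s_(j-1) / mk B0 j` (`j = 3..k`): `s_j ≥ s2 / 2^(B0 2^(k+1)) ≥ s2 / L^(1/1000)` (`RG.small`), so in the
first case (`s2 = L^(19/100)`, no character) `L^(1/6) ≤ s_j` and in the second (`s2 = L^(19/50)`) `L^(1/3) ≤ s_j` (`L ≥` constant from `RG.large`), `s_j ≤ s2 ≤ L^(2/5)`:
`ES X e s_j` for all `j ≤ k`. Induction on `j ≤ k` (`RG.monok`). -/
theorem CC_iter (h2 : P2u) (B0 : ℕ) (hC : CLu B0) : ∃ B : ℕ, PAu B := by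
  obtain ⟨X0, hX0⟩ := h2
  obtain ⟨B1, hB1⟩ := RG.largeX X0
  obtain ⟨B2, hB2⟩ := RG.small (B0 + 2)
  refine ⟨B0 + B1 + B2, fun k hk X hR => ?_⟩
  obtain ⟨e, s, he, hs, hcase⟩ := hX0 X (hB1 k X (by omega) (hR.mono (by omega)))
  have hL2 := hR.two_le
  have hsm := hB2 k X (by omega) (hR.mono (by omega))
  have hR0 : RG B0 k X := hR.mono (by omega)
  clear hR
  obtain ⟨L, hL⟩ : ∃ L, L = Real.log X := ⟨_, rfl⟩
  have hL0 : 0 < L := by rw [hL]; linarith
  have hL1 : 1 ≤ L := by rw [hL]; linarith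
  have hd : (2 : ℝ) ^ (B0 * 2 ^ (k + 1)) ≤ L ^ (1 / 1000 : ℝ) := by
    rw [hL]
    refine le_trans (pow_le_pow_right₀ (by norm_num) ?_) hsm
    calc B0 * 2 ^ (k + 1) ≤ 2 ^ B0 * 2 ^ (k + 1) := Nat.mul_le_mul_right _ (Nat.lt_two_pow_self (n := B0)).le
      _ = 2 ^ (B0 + k + 1) := by rw [← pow_add]; congr 1
      _ ≤ 2 ^ ((B0 + 2) * k) := Nat.pow_le_pow_right (by norm_num) (by nlinarith)
  have hs0 : 0 < s := by
    rcases hcase with ⟨_, _, h⟩ | h
    · rw [h, ← hL]; positivity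
    · rw [h, ← hL]; positivity
  have hES : ∀ s' : ℝ, s / L ^ (1 / 1000 : ℝ) ≤ s' → s' ≤ s → ES X e s' := by
    intro s' h1 h2
    have hz : 0 < L ^ (1 / 1000 : ℝ) := by positivity
    rcases hcase with ⟨hr, hχ, h⟩ | h
    · left
      refine ⟨hr, hχ, ?_, ?_⟩
      · rw [← hL]
        refine le_trans ?_ h1
        rw [le_div_iff₀ hz, h, ← hL, ← Real.rpow_add hL0]
        exact Real.rpow_le_rpow_of_exponent_le hL1 (by norm_num)
      · rw [← hL]
        refine h2.trans ?_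
        rw [h, ← hL]
        exact Real.rpow_le_rpow_of_exponent_le hL1 (by norm_num)
    · right
      constructor
      · rw [← hL]
        refine le_trans ?_ h1
        rw [le_div_iff₀ hz, h, ← hL, ← Real.rpow_add hL0]
        exact Real.rpow_le_rpow_of_exponent_le hL1 (by norm_num)
      · rw [← hL]
        refine h2.trans ?_
        rw [h, ← hL]
        exact Real.rpow_le_rpow_of_exponent_le hL1 (by norm_num)
  have key : ∀ j : ℕ, 2 ≤ j → j ≤ k → ∃ s' : ℝ, s / 2 ^ (B0 * 2 ^ (j + 1)) ≤ s' ∧ s' ≤ s ∧ PKu X e j s' := by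
    intro j hj
    induction j, hj using Nat.le_induction with
    | base =>
      intro _
      refine ⟨s, ?_, le_refl _, hs⟩
      exact div_le_self hs0.le (one_le_pow₀ (by norm_num))
    | succ j hj ih =>
      intro hjk
      obtain ⟨s', h1, h2, h3⟩ := ih (by omega)
      have hlow : s / L ^ (1 / 1000 : ℝ) ≤ s' := by
        refine le_trans ?_ h1
        refine div_le_div_of_nonneg_left hs0.le (by positivity) ?_
        refine le_trans (pow_le_pow_right₀ (by norm_num) ?_) hd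
        exact Nat.mul_le_mul_left _ (Nat.pow_le_pow_right (by norm_num) (by omega))
      have hm := mk_one_le B0 (j + 1)
      have hm0 := mk_pos B0 (j + 1)
      have hs'0 : 0 ≤ s' := le_trans (by positivity) h1
      refine ⟨s' / mk B0 (j + 1), ?_, (div_le_self hs'0 hm).trans h2,
        hC (j + 1) (by omega) X (hR0.monok hjk) e s' he (hES s' hlow h2) (by simpa using h3)⟩
      rw [le_div_iff₀ hm0]
      refine le_trans (le_of_eq ?_) h1
      unfold mk
      rw [div_mul_eq_mul_div, div_eq_div_iff (by positivity) (by positivity)]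
      rw [mul_assoc, ← pow_add]
      congr 2
      rw [pow_succ 2 (j + 1)]
      ring
  obtain ⟨s', h1, h2, h3⟩ := key k hk (le_refl _)
  refine ⟨e, s', he, hES s' ?_ h2, h3⟩
  refine le_trans ?_ h1
  exact div_le_div_of_nonneg_left hs0.le (by positivity) hd

end Pool.Agent.H16U
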