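import Pool.Agent.Lib.HUK.IDE
import Pool.Agent.Lib.HUK.A8a

/-!
# Project H16U (MP_f686a1_nt): prime tuples in one-parameter families, uniformly in `k`. Interfaces

`PROOF.md` has the plan. Notation `L = log X`. The regime is `2^(2^(B k)) ≤ L`; a saving is a factor `exp (-s)` with
`L^(1/7) ≤ s ≤ L^(2/5)`; every step divides `s` by `2^(B 2^k)`.
-/

open Finset

namespace Pool.Agent.H16U

open Pool.Agent.HUK
open Pool.Agent.H44W (ee)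
open Pool.Agent.Lib.H84V (nd)
open Pool.Agent.Lib.H68T (lp)

noncomputable section

/-- The regime: `k` is at most a constant times `log log log X`. -/
def RG (B k X : ℕ) : Prop := (2 : ℝ) ^ (2 ^ (B * k)) ≤ Real.log X

/-- The loss factor of one step. -/
def mk (B k : ℕ) : ℝ := 2 ^ (B * 2 ^ k)

/-- The admissible savings `exp (-s)` of modules A and B. -/
structure SR (X : ℕ) (s : ℝ) : Prop where
  lo : (Real.log X) ^ (1 / 7 : ℝ) ≤ s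
  hi : s ≤ (Real.log X) ^ (2 / 5 : ℝ)

/-- The admissible savings `exp (-s)` of the other modules (they pass from `X` to `X' ≤ 10 k X`). -/
structure SC (X : ℕ) (s : ℝ) : Prop where
  lo : (Real.log X) ^ (1 / 6 : ℝ) ≤ s
  hi : s ≤ (Real.log X) ^ (2 / 5 : ℝ)

/-- Module V (Lib/H9V): the conclusion of `HUK.av_main` with the exponent `C`. -/
def AV (d C : ℕ) : Prop := ∀ δ : ℝ, 0 < δ → δ ≤ 1 / 2 → ∀ L : ℕ, (1 / δ) ^ C ≤ L → ∀ (c : ℤ) (P : ℤ → ℤ) (ψ ε : ℝ),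
  PF d c P → 0 ≤ ε → ε ≤ δ ^ C → δ * L ≤ (((range L).filter fun k : ℕ => nd (ψ * P k) ≤ ε).card : ℝ) →
  ∃ q : ℕ, 1 ≤ q ∧ (q : ℝ) ≤ (1 / δ) ^ C ∧ nd (q * (c * ψ)) ≤ (1 / δ) ^ C * ε / (L : ℝ) ^ d

/-- **Interface of module A** (type II sums with a small factor), uniform in `k`. -/
def TIIu (B : ℕ) : Prop := ∀ k : ℕ, 3 ≤ k → ∀ X : ℕ, RG B k X → ∀ s : ℝ, SR X s →
  ∀ α β : ℕ → ℂ, (∀ a, ‖α a‖ ≤ Real.exp (s / mk B k)) → (∀ b, ‖β b‖ ≤ Real.exp (s / mk B k)) →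
  (∀ a : ℕ, α a ≠ 0 → Real.exp s ≤ a ∧ (a : ℝ) ≤ (X : ℝ) ^ cs k) →
  ∀ f : ℕ → ℤ → ℂ, (∀ j, j < k → Bdd X (f j)) → GG X (k - 1) (f 0) ≤ (X : ℝ) ^ k * Real.exp (-s) →
  ‖∑ a ∈ Icc 1 (2 * k * X), ∑ b ∈ Icc 1 (2 * k * X), α a * β b * Psi X k f ((a : ℤ) * b)‖ ≤
    (X : ℝ) ^ 2 * Real.exp (-(s / mk B k))

/-- **Interface of module B, first part** (the primes), uniform in `k`. -/
def TLPu (B : ℕ) : Prop := ∀ k : ℕ, 3 ≤ k → ∀ X : ℕ, RG B k X → ∀ s : ℝ, SR X s →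
  ∀ f : ℕ → ℤ → ℂ, (∀ j, j < k → Bdd X (f j)) → GG X (k - 1) (f 0) ≤ (X : ℝ) ^ k * Real.exp (-s) →
  ‖∑ n ∈ Icc 1 (2 * k * X), ((lp n : ℝ) : ℂ) * Psi X k f n‖ ≤ (X : ℝ) ^ 2 * Real.exp (-(s / mk B k))

/-- **Interface of module B, second part** (a smooth variable times a short one), uniform in `k`. -/
def TSMu (B : ℕ) : Prop := ∀ k : ℕ, 3 ≤ k → ∀ X : ℕ, RG B k X → ∀ s : ℝ, SR X s →
  ∀ G : ℕ → ℝ, (∀ d, |G d| ≤ 1) → (∀ d : ℕ, G d ≠ 0 → (d : ℝ) ≤ Real.exp ((Real.log X) ^ (9 / 10 : ℝ))) →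
  ∀ f : ℕ → ℤ → ℂ, (∀ j, j < k → Bdd X (f j)) → GG X (k - 1) (f 0) ≤ (X : ℝ) ^ k * Real.exp (-s) →
  ‖∑ n ∈ Icc 1 (2 * k * X), ((∑ d ∈ n.divisors, G d : ℝ) : ℂ) * Psi X k f n‖ ≤
    (X : ℝ) ^ 2 * Real.exp (-(s / mk B k))

/-! ### The sieve model -/

/-- The sifting level `w = ⌊exp (L^(2/5))⌋`. -/
def wS (X : ℕ) : ℕ := ⌊Real.exp ((Real.log X) ^ (2 / 5 : ℝ))⌋₊

/-- The primes up to `w`. -/
def PS (X : ℕ) : Finset ℕ := (Icc 1 (wS X)).filter Nat.Prime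

/-- `∏_{p ≤ w} (1 - 1/p)⁻¹`. -/
def cS (X : ℕ) : ℝ := ∏ p ∈ PS X, (1 - 1 / (p : ℝ))⁻¹

/-- No prime factor up to `w`. -/
def Rough (X : ℕ) (n : ℤ) : Prop := ∀ p ∈ PS X, ¬ (p : ℤ) ∣ n

/-- Data of the exceptional character: modulus, the (real valued) character, the zero. No exceptional character: `χ = 0`,
`r = 1`. -/
structure EData where
  r : ℕ
  χ : ℤ → ℝ
  β : ℝ

/-- The model for the primes. -/
def mdl (X : ℕ) (e : EData) (n : ℤ) : ℝ := open Classical in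
  if 1 ≤ n ∧ Rough X n then cS X * (1 - e.χ n * (n : ℝ) ^ (e.β - 1)) else 0

/-- The error. -/
def EE (X : ℕ) (e : EData) (n : ℤ) : ℂ := ((lp n - mdl X e n : ℝ) : ℂ)

/-- Cut to `[u, v)`. -/
def cut (u v : ℤ) (F : ℤ → ℂ) (n : ℤ) : ℂ := if u ≤ n ∧ n < v then F n else 0

/-- What is known about the exceptional data. -/
structure EOk (X : ℕ) (e : EData) : Prop where
  r1 : 1 ≤ e.r
  rle : (e.r : ℝ) ≤ Real.exp ((Real.log X) ^ (1 / 5 : ℝ))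
  per : ∀ n : ℤ, e.χ (n + e.r) = e.χ n
  bd : ∀ n : ℤ, |e.χ n| ≤ 1
  b0 : 1 / 2 ≤ e.β
  b1 : e.β ≤ 1
  lb : ∀ n : ℤ, (X : ℝ) ^ (1 / 2 : ℝ) ≤ n → Real.exp (-(2 * (Real.log X) ^ (1 / 5 : ℝ))) ≤ 1 - e.χ n * (n : ℝ) ^ (e.β - 1)

/-- The saving and the data: either there is no character, or the saving is much better than the modulus. -/
def ES (X : ℕ) (e : EData) (s : ℝ) : Prop :=
  (e.r = 1 ∧ (∀ n, e.χ n = 0) ∧ SC X s) ∨ ((Real.log X) ^ (1 / 3 : ℝ) ≤ s ∧ s ≤ (Real.log X) ^ (2 / 5 : ℝ))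

/-- **The `U^k` norms of the error on all windows of `[0, X]`.** -/
def PKu (X : ℕ) (e : EData) (k : ℕ) (s : ℝ) : Prop := ∀ u v : ℤ, 0 ≤ u → v ≤ X →
  GG X k (cut u v (EE X e)) ≤ (X : ℝ) ^ (k + 1) * Real.exp (-s)

/-- **Interface of module P2** (Fourier analysis of the error; Landau-Page, prime number theorem in progressions). -/
def P2u : Prop := ∃ X0 : ℕ, ∀ X : ℕ, X0 ≤ X → ∃ (e : EData) (s : ℝ), EOk X e ∧ PKu X e 2 s ∧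
  ((e.r = 1 ∧ (∀ n, e.χ n = 0) ∧ s = (Real.log X) ^ (19 / 100 : ℝ)) ∨ s = (Real.log X) ^ (19 / 50 : ℝ))

/-- **Interface of module S**: the model has small sums against the dual functions, on all windows. -/
def TMu (B : ℕ) : Prop := ∀ k : ℕ, 3 ≤ k → ∀ X X' : ℕ, RG B k X → X ≤ X' → X' ≤ 10 * k * X → ∀ (e : EData) (s : ℝ), EOk X e →
  ES X e s → ∀ f : ℕ → ℤ → ℂ, (∀ j, j < k → Bdd X' (f j)) → GG X' (k - 1) (f 0) ≤ (X' : ℝ) ^ k * Real.exp (-s) →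
  ∀ u v : ℤ, 0 ≤ u → v ≤ X → ‖∑ n ∈ Ico u v, ((mdl X e n : ℝ) : ℂ) * Psi X' k f n‖ ≤
    (X : ℝ) ^ 2 * Real.exp (-(s / mk B k))

/-- The same for the primes. -/
def TPu (B : ℕ) : Prop := ∀ k : ℕ, 3 ≤ k → ∀ X X' : ℕ, RG B k X → X ≤ X' → X' ≤ 10 * k * X → ∀ s : ℝ, SC X s →
  ∀ f : ℕ → ℤ → ℂ, (∀ j, j < k → Bdd X' (f j)) → GG X' (k - 1) (f 0) ≤ (X' : ℝ) ^ k * Real.exp (-s) →
  ∀ u v : ℤ, 0 ≤ u → v ≤ X → ‖∑ n ∈ Ico u v, ((lp n : ℝ) : ℂ) * Psi X' k f n‖ ≤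
    (X : ℝ) ^ 2 * Real.exp (-(s / mk B k))

/-- **Main term** (module S): the number of `n` with all `n + a_i` free of prime factors up to `w`, for every admissible
tuple. -/
def MTu (B : ℕ) : Prop := ∃ X0 : ℕ, ∀ k : ℕ, 1 ≤ k → ∀ X x : ℕ, X0 ≤ X → RG B k X →
  (X : ℝ) * Real.exp (-((Real.log X) ^ (1 / 10 : ℝ))) ≤ x → ∀ a : Fin k → ℕ,
  (∀ p : ℕ, p.Prime → ∃ z : ZMod p, ∀ i, (a i : ZMod p) ≠ z) → ∀ n0 : ℕ,
  (x : ℝ) * Real.exp (-((Real.log X) ^ (1 / 10 : ℝ))) ≤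
    {n : ℕ | n0 < n ∧ n ≤ n0 + x ∧ ∀ i, Rough X ((n : ℤ) + a i)}.ncard

end

end Pool.Agent.H16U
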