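import Pool.Agent.Lib.HUK.D15

/-!
# Project H16U, module F1 (helper9): the von Neumann inequality for `n + b_i + c_i t` with explicit constants
-/

open Finset

namespace Pool.Agent.H16U

open Pool.Agent.HUK
open Pool.Agent.H44W (ee)
open Pool.Agent.H9U (Sys)

/-- The system of forms `n + c_i t`. -/
def F1_S {k : ℕ} (c : Fin k → ℤ) : Sys k 1 := ⟨fun _ => 1, fun i _ => c i⟩

theorem F1_lin {k : ℕ} (c : Fin k → ℤ) (i : Fin k) (s : ℤ) (u : Fin 1 → ℤ) : (F1_S c).lin i s u = s + c i * u 0 := by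
  unfold Pool.Agent.H9U.Sys.lin F1_S
  simp

theorem F1_val {k : ℕ} (c b : Fin k → ℤ) (i : Fin k) (s : ℤ) (u : Fin 1 → ℤ) :
    (F1_S c).val b s u i = s + c i * u 0 + b i := by
  unfold Pool.Agent.H9U.Sys.val
  rw [F1_lin]

theorem F1_prod {k : ℕ} (C : ℕ) (c : Fin k → ℤ) (hcC : ∀ i, |c i| ≤ C) (i0 : Fin k) :
    |∏ i ∈ univ.erase i0, (c i0 - c i)| ≤ (2 * (C : ℤ)) ^ (k - 1) := by
  rw [Finset.abs_prod]
  have h1 : ∏ i ∈ univ.erase i0, |c i0 - c i| ≤ ∏ i ∈ univ.erase i0, (2 * (C : ℤ)) := by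
    refine Finset.prod_le_prod (fun i _ => abs_nonneg _) fun i _ => ?_
    have h2 := hcC i0
    have h3 := hcC i
    rw [abs_le] at h2 h3 ⊢
    omega
  refine h1.trans (le_of_eq ?_)
  rw [Finset.prod_const, Finset.card_erase_of_mem (Finset.mem_univ _), Finset.card_univ, Fintype.card_fin]

/-- The vectors. -/
theorem F1_vec (k : ℕ) (C : ℕ) (hC : 1 ≤ C) (c : Fin k → ℤ) (hc : Function.Injective c) (hcC : ∀ i, |c i| ≤ C) (i0 : Fin k) :
    ∃ Λ : ℤ, Λ ≠ 0 ∧ ∃ v : Fin k → ℤ × (Fin 1 → ℤ), (∀ j, (F1_S c).lin i0 (v j).1 (v j).2 = Λ) ∧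
      (∀ j, j ≠ i0 → (F1_S c).lin j (v j).1 (v j).2 = 0) ∧ (v i0).2 = 0 ∧
      (∀ j, |(v j).1| ≤ (2 * (C : ℤ)) ^ k) ∧ ∀ j, |(v j).2 0| ≤ (2 * (C : ℤ)) ^ k := by
  classical
  obtain ⟨Λ, hΛ⟩ : ∃ Λ : ℤ, Λ = ∏ i ∈ univ.erase i0, (c i0 - c i) := ⟨_, rfl⟩
  obtain ⟨M, hM⟩ : ∃ M : Fin k → ℤ, M = fun j => ∏ i ∈ (univ.erase i0).erase j, (c i0 - c i) := ⟨_, rfl⟩
  have hMΛ : ∀ j, j ≠ i0 → (c i0 - c j) * M j = Λ := by
    intro j hj
    rw [hM, hΛ]
    exact Finset.mul_prod_erase (univ.erase i0) (fun i => c i0 - c i) (Finset.mem_erase.2 ⟨hj, Finset.mem_univ _⟩)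
  have hk : 1 ≤ k := by
    have := i0.2
    omega
  have hCz : (1 : ℤ) ≤ C := by exact_mod_cast hC
  have hΛb : |Λ| ≤ (2 * (C : ℤ)) ^ (k - 1) := by
    rw [hΛ]
    exact F1_prod C c hcC i0
  have hpk : (2 * (C : ℤ)) ^ k = (2 * (C : ℤ)) ^ (k - 1) * (2 * C) := by
    rw [← pow_succ]
    congr 1
    omega
  have hp1 : (1 : ℤ) ≤ (2 * (C : ℤ)) ^ (k - 1) := one_le_pow₀ (by omega)
  have hp0 : (2 * (C : ℤ)) ^ (k - 1) ≤ (2 * (C : ℤ)) ^ k := by
    rw [hpk]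
    nlinarith
  have hΛ0 : Λ ≠ 0 := by
    rw [hΛ, Finset.prod_ne_zero_iff]
    intro i hi
    have h1 := Finset.ne_of_mem_erase hi
    have h2 : c i0 ≠ c i := fun h => h1 (hc h).symm
    omega
  have hMb : ∀ j, j ≠ i0 → |M j| ≤ (2 * (C : ℤ)) ^ (k - 1) := by
    intro j hj
    have h1 := hMΛ j hj
    have h2 : c i0 ≠ c j := fun h => hj (hc h).symm
    have h3 : 1 ≤ |c i0 - c j| := Int.one_le_abs (by omega)
    have h4 : |c i0 - c j| * |M j| = |Λ| := by rw [← abs_mul, h1]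
    have h5 : |M j| ≤ |c i0 - c j| * |M j| := by
      have := abs_nonneg (M j)
      nlinarith
    omega
  obtain ⟨v, hv0, hvj⟩ : ∃ v : Fin k → ℤ × (Fin 1 → ℤ), v i0 = (Λ, fun _ => 0) ∧
      ∀ j, j ≠ i0 → v j = (-(M j * c j), fun _ => M j) := by
    refine ⟨fun j => if j = i0 then (Λ, fun _ => 0) else (-(M j * c j), fun _ => M j), ?_, fun j hj => ?_⟩
    · exact if_pos rfl
    · exact if_neg hj
  refine ⟨Λ, hΛ0, v, ?_, ?_, ?_, ?_, ?_⟩
  · intro j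
    rw [F1_lin]
    by_cases hj : j = i0
    · rw [hj, hv0]
      simp
    · rw [hvj j hj]
      simp only
      rw [← hMΛ j hj]
      ring
  · intro j hj
    rw [F1_lin, hvj j hj]
    simp only
    ring
  · rw [hv0]
    rfl
  · intro j
    by_cases hj : j = i0
    · rw [hj, hv0]
      exact hΛb.trans hp0
    · rw [hvj j hj]
      simp only
      rw [abs_neg, abs_mul, hpk]
      refine mul_le_mul (hMb j hj) ((hcC j).trans (by omega)) (abs_nonneg _) (by positivity)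
  · intro j
    by_cases hj : j = i0
    · rw [hj, hv0]
      simp only [abs_zero]
      positivity
    · rw [hvj j hj]
      exact (hMb j hj).trans hp0

set_option maxHeartbeats 4000000 in
/-- **The von Neumann inequality for `n + b_i + c_i t`.** -/
theorem F1_vN (k x X C : ℕ) (hk : 1 ≤ k) (hC : 1 ≤ C) (hx : (2 * C) ^ k ≤ x) (hX : 1 ≤ X) (b c : Fin k → ℤ)
    (hc : Function.Injective c) (hcC : ∀ i, |c i| ≤ C) (i0 : Fin k) (F : Fin k → ℤ → ℂ) (hF : ∀ i n, ‖F i n‖ ≤ 1)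
    (hS : Spt X (F i0)) (ε : ℤ → ℂ) (hε : ∀ t, ‖ε t‖ ≤ 1) :
    (‖∑ t ∈ Icc (0 : ℤ) x, ε t * ∑ n ∈ Icc (1 : ℤ) x, ∏ i, F i (n + b i + c i * t)‖ / (16 * (x : ℝ) ^ 2)) ^ (2 ^ (k + 1)) ≤
      4 ^ (2 ^ k) * (8 * (2 * (C : ℝ)) ^ k) ^ k * (1 + Real.log (2 * X)) ^ 2 * GG X (k + 1) (F i0) / (x : ℝ) ^ (k + 2) := by
  classical
  obtain ⟨Λ, hΛ, v, hv1, hv2, hv3, hv4, hv5⟩ := F1_vec k C hC c hc hcC i0
  obtain ⟨C0, hC0⟩ : ∃ C0 : ℕ, C0 = (2 * C) ^ k := ⟨_, rfl⟩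
  have hC01 : 1 ≤ C0 := by
    rw [hC0]
    exact Nat.one_le_pow _ _ (by omega)
  have hC0z : (2 * (C : ℤ)) ^ k = C0 := by
    rw [hC0]
    push_cast
    rfl
  have hC0r : (2 * (C : ℝ)) ^ k = C0 := by
    rw [hC0]
    push_cast
    rfl
  rw [hC0z] at hv4 hv5
  rw [← hC0] at hx
  rw [hC0r]
  obtain ⟨H, hH⟩ : ∃ H : ℕ, H = x / C0 := ⟨_, rfl⟩
  have hH1 : 1 ≤ H := by
    rw [hH]
    exact (Nat.one_le_div_iff (by omega)).2 hx
  have hHC : H * C0 ≤ x := by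
    rw [hH]
    exact Nat.div_mul_le_self x C0
  have hx2 : x ≤ 2 * C0 * H := by
    have h1 := Nat.div_add_mod x C0
    have h2 := Nat.mod_lt x (show 0 < C0 by omega)
    rw [← hH] at h1
    nlinarith
  have hx1 : 1 ≤ x := by omega
  have hxr1 : (1 : ℝ) ≤ x := by exact_mod_cast hx1
  have hxr : (0 : ℝ) < x := by linarith
  have hHr1 : (1 : ℝ) ≤ H := by exact_mod_cast hH1
  have hHr : (0 : ℝ) < H := by linarith
  have hC0r1 : (1 : ℝ) ≤ C0 := by exact_mod_cast hC01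
  obtain ⟨n, w, θ, hw0, hwsum, hw⟩ := D12_prog ((F1_S c).a i0) one_ne_zero X hX
  -- the box, the functions
  obtain ⟨b', hb'⟩ : ∃ b' : Fin k → ℤ, b' = fun i => b i + 1 := ⟨_, rfl⟩
  set B : Finset (ℤ × (Fin 1 → ℤ)) := (Ico (0 : ℤ) x) ×ˢ (Fintype.piFinset fun _ : Fin 1 => Ico (0 : ℤ) (x + 1 : ℕ)) with hB
  set B' : Finset (ℤ × (Fin 1 → ℤ)) := (Icc (-(x : ℤ)) (2 * x)) ×ˢ
    (Fintype.piFinset fun _ : Fin 1 => Icc (-(x : ℤ)) (2 * x)) with hB'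
  set g : Fin k → ℤ × (Fin 1 → ℤ) → ℂ := fun i z => if i = i0 then ε (z.2 0) else F i ((F1_S c).val b' z.1 z.2 i) with hg
  set f : ℤ × (Fin 1 → ℤ) → ℂ := fun z => if z ∈ B then F i0 ((F1_S c).val b' z.1 z.2 i0) else 0 with hf
  obtain ⟨N, hN⟩ : ∃ N : ℝ, N = 16 * (x : ℝ) ^ 2 := ⟨_, rfl⟩
  rw [← hN]
  have hN0 : 0 < N := by
    rw [hN]
    positivity
  have hcard : (B'.card : ℝ) ≤ N := by
    rw [hB', Finset.card_product, Fintype.card_piFinset]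
    simp only [Int.card_Icc, Finset.prod_const, Finset.card_univ, Fintype.card_fin, pow_one]
    have h9 : (2 * (x : ℤ) + 1 - -(x : ℤ)).toNat = 3 * x + 1 := by omega
    rw [h9, hN]
    push_cast
    nlinarith
  have hS1 : ∑ t ∈ Icc (0 : ℤ) x, ε t * ∑ n ∈ Icc (1 : ℤ) x, ∏ i, F i (n + b i + c i * t) = ∑ z ∈ B, (∏ i, g i z) * f z := by
    rw [hB, Finset.sum_product_right]
    symm
    refine Finset.sum_nbij' (fun u => u 0) (fun t _ => t) ?_ ?_ ?_ ?_ ?_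
    · intro u hu
      rw [Fintype.mem_piFinset] at hu
      have := Finset.mem_Ico.1 (hu 0)
      rw [Finset.mem_Icc]
      push_cast at this
      omega
    · intro t ht
      rw [Finset.mem_Icc] at ht
      rw [Fintype.mem_piFinset]
      intro _
      rw [Finset.mem_Ico]
      push_cast
      omega
    · intro u _
      funext r
      rw [Subsingleton.elim r 0]
    · intro t _
      rfl
    · intro u hu
      rw [Finset.mul_sum]
      refine Finset.sum_nbij' (fun m => m + 1) (fun m => m - 1) ?_ ?_ ?_ ?_ ?_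
      · intro m hm
        rw [Finset.mem_Ico] at hm
        rw [Finset.mem_Icc]
        omega
      · intro m hm
        rw [Finset.mem_Icc] at hm
        rw [Finset.mem_Ico]
        omega
      · intro m _
        ring
      · intro m _
        ring
      · intro m hm
        have hmB : ((m, u) : ℤ × (Fin 1 → ℤ)) ∈ B := by
          rw [hB, Finset.mem_product]
          exact ⟨hm, hu⟩
        have hval : ∀ i, (F1_S c).val b' m u i = m + 1 + b i + c i * u 0 := by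
          intro i
          rw [F1_val, hb']
          ring
        have h1 : ∏ i, g i ((m, u) : ℤ × (Fin 1 → ℤ)) =
            ε (u 0) * ∏ i ∈ univ.erase i0, F i (m + 1 + b i + c i * u 0) := by
          rw [← Finset.mul_prod_erase Finset.univ _ (Finset.mem_univ i0)]
          congr 1
          · simp only [hg, if_true]
          · refine Finset.prod_congr rfl fun i hi => ?_
            simp only [hg]
            rw [if_neg (Finset.ne_of_mem_erase hi), hval]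
        have h2 : f ((m, u) : ℤ × (Fin 1 → ℤ)) = F i0 (m + 1 + b i0 + c i0 * u 0) := by
          simp only [hf]
          rw [if_pos hmB, hval]
        rw [h1, h2, ← Finset.mul_prod_erase Finset.univ (fun i => F i (m + 1 + b i + c i * u 0)) (Finset.mem_univ i0)]
        ring
  have hgle : ∀ i z, ‖g i z‖ ≤ 1 := by
    intro i z
    simp only [hg]
    split_ifs
    · exact hε _
    · exact hF i _
  have hinv : ∀ i z, g i (z + v i) = g i z := by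
    intro i z
    simp only [hg]
    by_cases hi : i = i0
    · rw [if_pos hi, if_pos hi, hi]
      congr 1
      rw [Prod.snd_add, hv3, add_zero]
    · rw [if_neg hi, if_neg hi, d15_val, hv2 i hi, add_zero]
  have hf0 : ∀ z, z ∉ B → f z = 0 := by
    intro z hz
    simp only [hf]
    rw [if_neg hz]
  have hbox : ∀ i z, ∀ h : ℕ, h < H → z + h • v i ∈ B → z ∈ B' := by
    intro i z h hh hz
    rw [hB, Finset.mem_product, Finset.mem_Ico, Fintype.mem_piFinset] at hz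
    obtain ⟨⟨h1, h2⟩, h3⟩ := hz
    have h4 := Finset.mem_Ico.1 (h3 0)
    have haux : ∀ s : ℤ, |s| ≤ C0 → |(h : ℤ) * s| + 1 ≤ x := by
      intro s hs
      rw [abs_mul, abs_of_nonneg (Int.natCast_nonneg h)]
      have e1 : (h : ℤ) * |s| ≤ h * C0 := mul_le_mul_of_nonneg_left hs (Int.natCast_nonneg h)
      have e2 : ((h + 1 : ℕ) : ℤ) * C0 ≤ H * C0 := mul_le_mul_of_nonneg_right (by exact_mod_cast hh) (by positivity)
      have e3 : (H : ℤ) * C0 ≤ x := by exact_mod_cast hHC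
      have e4 : (1 : ℤ) ≤ C0 := by exact_mod_cast hC01
      push_cast at e2
      nlinarith
    have f1 : (z + h • v i).1 = z.1 + h * (v i).1 := by
      rw [Prod.fst_add, Prod.smul_fst, nsmul_eq_mul]
    have f2 : ∀ r, (z + h • v i).2 r = z.2 r + h * (v i).2 r := by
      intro r
      rw [Prod.snd_add, Pi.add_apply, Prod.smul_snd, Pi.smul_apply, nsmul_eq_mul]
    rw [f1] at h1 h2
    rw [f2] at h4
    rw [hB', Finset.mem_product, Finset.mem_Icc, Fintype.mem_piFinset]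
    have e1 := haux _ (hv4 i)
    have e2 := abs_le.1 (le_refl |(h : ℤ) * (v i).1|)
    have e3 := haux _ (hv5 i)
    have e4 := abs_le.1 (le_refl |(h : ℤ) * (v i).2 0|)
    refine ⟨⟨by linarith [e2.1, e2.2], by linarith [e2.1, e2.2]⟩, fun r => ?_⟩
    rw [Subsingleton.elim r 0, Finset.mem_Icc]
    push_cast at h4
    exact ⟨by linarith [e4.1, e4.2, h4.1], by linarith [e4.1, e4.2, h4.2]⟩
  have hE := E1_elim B B' N hcard hN0 H (by omega) k v g f hgle hinv hf0 hbox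
  rw [hS1]
  obtain ⟨Z, hZ⟩ : ∃ Z : ℝ, Z = ‖∑ z ∈ B, (∏ i, g i z) * f z‖ := ⟨_, rfl⟩
  rw [← hZ] at hE ⊢
  have hZ0 : 0 ≤ Z := by
    rw [hZ]
    exact norm_nonneg _
  obtain ⟨A, hA⟩ : ∃ A : ℝ, A = Real.sqrt ((2 * (H : ℝ)) ^ k * (2 ^ k * GG X (k + 1) (F i0))) := ⟨_, rfl⟩
  have habs : ∀ l, ∑ j ∈ bxS k H, ‖∑ y ∈ Ico (-(X : ℤ)) X, DV (fun i => Λ * j i) (F i0) y * ee (θ l * y)‖ ≤ A := by
    intro l
    rw [hA]
    refine Real.le_sqrt_of_sq_le ?_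
    exact D13_abs X k H hk (by omega) Λ hΛ (F i0) hS (θ l)
  have hGG0 : 0 ≤ (2 * (H : ℝ)) ^ k * (2 ^ k * GG X (k + 1) (F i0)) :=
    (sq_nonneg _).trans (D13_abs X k H hk (by omega) Λ hΛ (F i0) hS (θ 0))
  have hA0 : 0 ≤ A := by
    rw [hA]
    exact Real.sqrt_nonneg _
  have hA2 : A ^ 2 = (2 * (H : ℝ)) ^ k * (2 ^ k * GG X (k + 1) (F i0)) := by
    rw [hA, Real.sq_sqrt hGG0]
  have hone : ∀ j ∈ bxS k H, ‖∑ z ∈ B, DL (List.ofFn fun i => j i • v i) f z‖ / N ≤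
      (((x + 1 : ℕ) : ℝ) ^ 1 * ∑ l ∈ range n, w l * ‖∑ y ∈ Ico (-(X : ℤ)) X, DV (fun i => Λ * j i) (F i0) y * ee (θ l * y)‖) / N := by
    intro j _
    have h1 := D15_one (F1_S c) i0 Λ v hv1 b' x (x + 1) X (F i0) hS n w θ hw hw0 j
    exact div_le_div_of_nonneg_right h1 hN0.le
  have hlog0 : 0 ≤ 1 + Real.log (2 * X) := by
    have hXr : (1 : ℝ) ≤ X := by exact_mod_cast hX
    have : 0 ≤ Real.log (2 * X) := Real.log_nonneg (by linarith)
    linarith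
  have hsumj : ∑ j ∈ bxS k H, ‖∑ z ∈ B, DL (List.ofFn fun i => j i • v i) f z‖ / N ≤
      (2 * (x : ℝ) * (4 * (1 + Real.log (2 * X)) * A)) / N := by
    refine (Finset.sum_le_sum hone).trans ?_
    rw [← Finset.sum_div, ← Finset.mul_sum]
    refine div_le_div_of_nonneg_right ?_ hN0.le
    have h2 : ∑ j ∈ bxS k H, ∑ l ∈ range n, w l * ‖∑ y ∈ Ico (-(X : ℤ)) X, DV (fun i => Λ * j i) (F i0) y * ee (θ l * y)‖ ≤
        4 * (1 + Real.log (2 * X)) * A := by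
      rw [Finset.sum_comm]
      have h1 : ∀ l ∈ range n, ∑ j ∈ bxS k H, w l * ‖∑ y ∈ Ico (-(X : ℤ)) X, DV (fun i => Λ * j i) (F i0) y * ee (θ l * y)‖ ≤
          w l * A := by
        intro l _
        rw [← Finset.mul_sum]
        exact mul_le_mul_of_nonneg_left (habs l) (hw0 l)
      refine (Finset.sum_le_sum h1).trans ?_
      rw [← Finset.sum_mul]
      exact mul_le_mul_of_nonneg_right hwsum hA0
    have h3 : ((x + 1 : ℕ) : ℝ) ^ 1 ≤ 2 * (x : ℝ) := by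
      push_cast
      linarith
    refine mul_le_mul h3 h2 ?_ (by positivity)
    exact sum_nonneg fun j _ => sum_nonneg fun l _ => mul_nonneg (hw0 l) (norm_nonneg _)
  -- the main inequality
  have hmain : (Z / N) ^ (2 ^ k) ≤ 2 ^ (2 ^ k) / (H : ℝ) ^ k * ((2 * (x : ℝ) * (4 * (1 + Real.log (2 * X)) * A)) / N) :=
    hE.trans (mul_le_mul_of_nonneg_left hsumj (by positivity))
  have hsq : (Z / N) ^ (2 ^ (k + 1)) ≤
      (2 ^ (2 ^ k) / (H : ℝ) ^ k * ((2 * (x : ℝ) * (4 * (1 + Real.log (2 * X)) * A)) / N)) ^ 2 := by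
    rw [pow_succ 2 k, pow_mul]
    exact pow_le_pow_left₀ (by positivity) hmain 2
  refine hsq.trans ?_
  have h1 : (2 ^ (2 ^ k) / (H : ℝ) ^ k * ((2 * (x : ℝ) * (4 * (1 + Real.log (2 * X)) * A)) / N)) ^ 2 =
      4 ^ (2 ^ k) * 4 ^ k * (1 + Real.log (2 * X)) ^ 2 * GG X (k + 1) (F i0) / (4 * (x : ℝ) ^ 2 * (H : ℝ) ^ k) := by
    have h2 : (2 ^ (2 ^ k) / (H : ℝ) ^ k * ((2 * (x : ℝ) * (4 * (1 + Real.log (2 * X)) * A)) / N)) ^ 2 =
      ((2 : ℝ) ^ (2 ^ k)) ^ 2 * (8 * x) ^ 2 * (1 + Real.log (2 * X)) ^ 2 * A ^ 2 / (((H : ℝ) ^ k) ^ 2 * N ^ 2) := by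
      field_simp
      ring
    have h3 : ((2 : ℝ) ^ (2 ^ k)) ^ 2 = 4 ^ (2 ^ k) := by
      rw [← pow_mul, mul_comm, pow_mul]
      norm_num
    rw [h2, h3, hA2, hN, mul_pow 2 (H : ℝ) k]
    have h4 : (4 : ℝ) ^ k = 2 ^ k * 2 ^ k := by
      rw [← mul_pow]
      norm_num
    rw [h4]
    have hHk : (H : ℝ) ^ k ≠ 0 := by positivity
    field_simp
    ring
  rw [h1]
  have hGG : 0 ≤ GG X (k + 1) (F i0) := by
    have h2 : (0 : ℝ) < (2 * (H : ℝ)) ^ k * 2 ^ k := by positivity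
    rw [← mul_assoc] at hGG0
    exact nonneg_of_mul_nonneg_right hGG0 h2
  have h5 : (x : ℝ) ^ k ≤ (2 * C0) ^ k * (H : ℝ) ^ k := by
    rw [← mul_pow]
    refine pow_le_pow_left₀ hxr.le ?_ k
    exact_mod_cast hx2
  rw [div_le_div_iff₀ (by positivity) (by positivity)]
  have h6 : (4 : ℝ) ^ k * (x : ℝ) ^ (k + 2) ≤ (8 * (C0 : ℝ)) ^ k * (4 * (x : ℝ) ^ 2 * (H : ℝ) ^ k) := by
    have h7 : (8 * (C0 : ℝ)) ^ k = 4 ^ k * (2 * C0) ^ k := by
      rw [← mul_pow]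
      congr 1
      ring
    rw [h7, pow_add]
    have h8 : (0 : ℝ) < (4 : ℝ) ^ k := by positivity
    have h9 : (x : ℝ) ^ k * (x : ℝ) ^ 2 ≤ (2 * (C0 : ℝ)) ^ k * (H : ℝ) ^ k * (x : ℝ) ^ 2 :=
      mul_le_mul_of_nonneg_right h5 (by positivity)
    have h10 : 0 ≤ (2 * (C0 : ℝ)) ^ k * (H : ℝ) ^ k * (x : ℝ) ^ 2 := by positivity
    calc (4 : ℝ) ^ k * ((x : ℝ) ^ k * (x : ℝ) ^ 2) ≤ 4 ^ k * (4 * ((2 * (C0 : ℝ)) ^ k * (H : ℝ) ^ k * (x : ℝ) ^ 2)) :=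
          mul_le_mul_of_nonneg_left (by linarith) h8.le
      _ = _ := by ring
  have h11 : 0 ≤ (4 : ℝ) ^ (2 ^ k) * (1 + Real.log (2 * X)) ^ 2 * GG X (k + 1) (F i0) := by positivity
  calc (4 : ℝ) ^ (2 ^ k) * 4 ^ k * (1 + Real.log (2 * X)) ^ 2 * GG X (k + 1) (F i0) * (x : ℝ) ^ (k + 2) =
        (4 ^ (2 ^ k) * (1 + Real.log (2 * X)) ^ 2 * GG X (k + 1) (F i0)) * (4 ^ k * (x : ℝ) ^ (k + 2)) := by ring
    _ ≤ (4 ^ (2 ^ k) * (1 + Real.log (2 * X)) ^ 2 * GG X (k + 1) (F i0)) *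
        ((8 * (C0 : ℝ)) ^ k * (4 * (x : ℝ) ^ 2 * (H : ℝ) ^ k)) := mul_le_mul_of_nonneg_left h6 h11
    _ = _ := by ring

end Pool.Agent.H16U
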