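import Pool.Agent.Lib.H16U.Reg

/-!
# H16U: definitions for the modules C (closure, iteration) and F (final count)
-/

open Finset

namespace Pool.Agent.H16U

open Pool.Agent.HUK

noncomputable section

/-- Size of the sieve constant (Mertens). -/
def CSb : Prop := ∃ X0 : ℕ, ∀ X : ℕ, X0 ≤ X → 1 ≤ cS X ∧ cS X ≤ Real.log X

/-- The closure step. -/
def CLu (B : ℕ) : Prop := ∀ k : ℕ, 3 ≤ k → ∀ X : ℕ, RG B k X → ∀ (e : EData) (s : ℝ), EOk X e → ES X e s →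
  PKu X e (k - 1) s → PKu X e k (s / mk B k)

/-- All norms of the error. -/
def PAu (B : ℕ) : Prop := ∀ k : ℕ, 2 ≤ k → ∀ X : ℕ, RG B k X → ∃ (e : EData) (s : ℝ), EOk X e ∧ ES X e s ∧ PKu X e k s

/-- The bound for the coefficients `c i`. -/
def cx (x : ℕ) : ℕ := ⌊Real.exp ((Real.log x) ^ (1 / 50 : ℝ))⌋₊

/-- The scale of the values `n + b i + c i t`. -/
def XX (x : ℕ) : ℕ := (2 * cx x + 3) * x

/-- The families of Theorem U. -/
structure FAM (x k : ℕ) (b c : Fin k → ℤ) : Prop where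
  inj : Function.Injective c
  cle : ∀ i, (|c i| : ℝ) ≤ Real.exp ((Real.log x) ^ (1 / 50 : ℝ))
  ble : ∀ i, (|b i| : ℝ) ≤ x * Real.exp ((Real.log x) ^ (1 / 50 : ℝ))

/-- Admissible tuples. -/
def Adm {k : ℕ} (a : Fin k → ℤ) : Prop := ∀ p : ℕ, p.Prime → ∃ z : ZMod p, ∀ i, (a i : ZMod p) ≠ z

/-- The sum of the model over `n ≤ x`. -/
def MS (X : ℕ) (e : EData) (x : ℕ) {k : ℕ} (a : Fin k → ℤ) : ℝ := ∑ n ∈ Icc (1 : ℤ) x, ∏ i, mdl X e (n + a i)

/-- The weighted number of prime tuples. -/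
def LS (x : ℕ) {k : ℕ} (a : Fin k → ℤ) : ℝ := ∑ n ∈ Icc (1 : ℤ) x, ∏ i, Pool.Agent.Lib.H68T.lp (n + a i)

/-- The number of prime tuples. -/
def NP (x : ℕ) {k : ℕ} (a : Fin k → ℤ) : ℕ := open Classical in
  ((Icc (1 : ℤ) x).filter fun n => ∀ i, (n + a i).toNat.Prime).card

/-- The conclusion of Theorem U for one family. -/
def UC (x k : ℕ) (b c : Fin k → ℤ) : Prop := open Classical in
  (((Icc (0 : ℤ) x).filter fun t => (∀ i, 0 ≤ b i + c i * t) ∧ Adm (fun i => b i + c i * t) ∧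
    (NP x (fun i => b i + c i * t) : ℝ) < x * Real.exp (-((Real.log x) ^ (1 / 4 : ℝ)))).card : ℝ) ≤
    x * Real.exp (-((Real.log x) ^ (1 / 7 : ℝ)))

end

end Pool.Agent.H16U
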