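import Pool.Agent.Lib.H16U.F1
import Pool.Agent.Lib.H16U.FDefs

/-!
# H16U, chunk F2 (M): telescoping
-/

open Finset

namespace Pool.Agent.H16U

open Pool.Agent.HUK

private theorem f2_split {k : ℕ} (i0 : Fin k) (P : Fin k → ℂ) :
    ∏ i, P i = P i0 * (∏ j with j < i0, P j) * ∏ j with i0 < j, P j := by
  rw [← Finset.mul_prod_erase Finset.univ P (Finset.mem_univ i0), mul_assoc]
  congr 1
  rw [← Finset.prod_filter_mul_prod_filter_not (univ.erase i0) (fun j => j < i0)]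
  congr 1
  · refine Finset.prod_congr ?_ fun _ _ => rfl
    ext j
    simp only [mem_filter, mem_erase, mem_univ, and_true, true_and]
    exact ⟨fun h => h.2, fun h => ⟨h.ne, h⟩⟩
  · refine Finset.prod_congr ?_ fun _ _ => rfl
    ext j
    simp only [mem_filter, mem_erase, mem_univ, and_true, true_and]
    exact ⟨fun h => lt_of_le_of_ne (not_lt.1 h.2) (Ne.symm h.1), fun h => ⟨h.ne', not_lt.2 h.le⟩⟩

private theorem f2_tel {k : ℕ} (g0 g1 : ℤ → ℂ) (a : Fin k → ℤ) :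
    (∏ i, g0 (a i)) - ∏ i, g1 (a i) = ∑ i0, 2 * ∏ i,
      (if i < i0 then g0 else if i = i0 then (fun n => (g0 n - g1 n) / 2) else g1) (a i) := by
  have h := Finset.prod_add_ordered (Finset.univ : Finset (Fin k)) (fun i => g1 (a i)) (fun i => g0 (a i) - g1 (a i))
  have h1 : ∏ i, (g1 (a i) + (g0 (a i) - g1 (a i))) = ∏ i, g0 (a i) :=
    Finset.prod_congr rfl fun i _ => by ring
  rw [h1] at h
  rw [h, add_sub_cancel_left]
  refine Finset.sum_congr rfl fun i0 _ => ?_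
  rw [f2_split i0]
  rw [if_neg (lt_irrefl i0), if_pos rfl]
  have h2 : ∏ j with j < i0, (if j < i0 then g0 else if j = i0 then (fun n => (g0 n - g1 n) / 2) else g1) (a j) =
      ∏ j with j < i0, (g1 (a j) + (g0 (a j) - g1 (a j))) := by
    refine Finset.prod_congr rfl fun j hj => ?_
    rw [if_pos (mem_filter.1 hj).2]
    ring
  have h3 : ∏ j with i0 < j, (if j < i0 then g0 else if j = i0 then (fun n => (g0 n - g1 n) / 2) else g1) (a j) =
      ∏ j with i0 < j, g1 (a j) := by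
    refine Finset.prod_congr rfl fun j hj => ?_
    have h4 := (mem_filter.1 hj).2
    rw [if_neg (not_lt.2 h4.le), if_neg h4.ne']
  rw [h2, h3]
  ring

/-- Proof. `∏ g0 (a_i) - ∏ g1 (a_i) = ∑_{i0} (∏_{i<i0} g0 (a_i)) (g0 - g1) (a_(i0)) (∏_{i>i0} g1 (a_i))` (induction on `Fin k`); for each `i0` apply `F1_vN` with
`F i = g0` (`i < i0`), `g1` (`i > i0`), `(g0 - g1)/2` (`i = i0`). -/
theorem F2_tel (k x X C : ℕ) (hk : 1 ≤ k) (hC : 1 ≤ C) (hx : (2 * C) ^ k ≤ x) (hX : 1 ≤ X) (b c : Fin k → ℤ)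
    (hc : Function.Injective c) (hcC : ∀ i, |c i| ≤ C) (g0 g1 : ℤ → ℂ) (h0 : ∀ n, ‖g0 n‖ ≤ 1) (h1 : ∀ n, ‖g1 n‖ ≤ 1)
    (hs0 : Spt X g0) (hs1 : Spt X g1) (ε : ℤ → ℂ) (hε : ∀ t, ‖ε t‖ ≤ 1) (D : ℝ) (hD : 0 ≤ D)
    (hb : 4 ^ (2 ^ k) * (8 * (2 * (C : ℝ)) ^ k) ^ k * (1 + Real.log (2 * X)) ^ 2 *
      GG X (k + 1) (fun n => (g0 n - g1 n) / 2) / (x : ℝ) ^ (k + 2) ≤ D ^ (2 ^ (k + 1))) :
    ‖∑ t ∈ Icc (0 : ℤ) x, ε t * ∑ n ∈ Icc (1 : ℤ) x, ((∏ i, g0 (n + b i + c i * t)) - ∏ i, g1 (n + b i + c i * t))‖ ≤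
      32 * k * (x : ℝ) ^ 2 * D := by
  have hx1 : 1 ≤ x := le_trans (Nat.one_le_pow _ _ (by omega)) hx
  have hxr : (0 : ℝ) < x := by exact_mod_cast hx1
  have hone : ∀ i0 : Fin k, ‖∑ t ∈ Icc (0 : ℤ) x, ε t * ∑ n ∈ Icc (1 : ℤ) x, ∏ i,
      (if i < i0 then g0 else if i = i0 then (fun n => (g0 n - g1 n) / 2) else g1) (n + b i + c i * t)‖ ≤ 16 * (x : ℝ) ^ 2 * D := by
    intro i0
    have hF : ∀ (i : Fin k) (n : ℤ), ‖(if i < i0 then g0 else if i = i0 then (fun n => (g0 n - g1 n) / 2) else g1) n‖ ≤ 1 := by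
      intro i n
      split_ifs
      · exact h0 n
      · rw [norm_div, Complex.norm_ofNat, div_le_iff₀ (by norm_num)]
        have := norm_sub_le (g0 n) (g1 n)
        linarith [h0 n, h1 n]
      · exact h1 n
    have hS : Spt X ((fun i : Fin k => if i < i0 then g0 else if i = i0 then (fun n => (g0 n - g1 n) / 2) else g1) i0) := by
      simp only [lt_irrefl, if_false, if_true]
      intro y hy
      simp only
      rw [hs0 y hy, hs1 y hy, sub_zero, zero_div]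
    have h := F1_vN k x X C hk hC hx hX b c hc hcC i0
      (fun i => if i < i0 then g0 else if i = i0 then (fun n => (g0 n - g1 n) / 2) else g1) hF hS ε hε
    simp only [lt_irrefl, if_false, if_true] at h
    have h2 := le_of_pow_le_pow_left₀ (by positivity) hD (h.trans hb)
    rw [div_le_iff₀ (by positivity)] at h2
    refine h2.trans (le_of_eq ?_)
    ring
  have hsum : ∑ t ∈ Icc (0 : ℤ) x, ε t * ∑ n ∈ Icc (1 : ℤ) x, ((∏ i, g0 (n + b i + c i * t)) - ∏ i, g1 (n + b i + c i * t)) =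
      ∑ i0 : Fin k, 2 * ∑ t ∈ Icc (0 : ℤ) x, ε t * ∑ n ∈ Icc (1 : ℤ) x, ∏ i,
      (if i < i0 then g0 else if i = i0 then (fun n => (g0 n - g1 n) / 2) else g1) (n + b i + c i * t) := by
    simp only [f2_tel g0 g1, Finset.mul_sum]
    rw [Finset.sum_comm]
    rw [Finset.sum_comm]
    symm
    rw [Finset.sum_comm]
    refine Finset.sum_congr rfl fun t _ => ?_
    rw [Finset.sum_comm]
    refine Finset.sum_congr rfl fun n _ => ?_
    refine Finset.sum_congr rfl fun i0 _ => ?_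
    ring
  rw [hsum]
  refine (norm_sum_le _ _).trans ?_
  have h3 : ∑ i0 : Fin k, ‖2 * ∑ t ∈ Icc (0 : ℤ) x, ε t * ∑ n ∈ Icc (1 : ℤ) x, ∏ i,
      (if i < i0 then g0 else if i = i0 then (fun n => (g0 n - g1 n) / 2) else g1) (n + b i + c i * t)‖ ≤
      ∑ _i0 : Fin k, 32 * (x : ℝ) ^ 2 * D := by
    refine Finset.sum_le_sum fun i0 _ => ?_
    rw [norm_mul, Complex.norm_ofNat]
    linarith [hone i0]
  refine h3.trans (le_of_eq ?_)
  rw [Finset.sum_const, Finset.card_univ, Fintype.card_fin, nsmul_eq_mul]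
  ring

end Pool.Agent.H16U
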