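import Pool.Agent.Lib.H16U.F2
import Pool.Agent.Lib.HUK.C1
import Pool.Agent.Lib.HUK.P1
import Pool.Agent.Lib.H68T.FIN

/-!
# H16U, chunk F3 (M): comparison of the primes with the model on average over `t`
-/

open Finset

namespace Pool.Agent.H16U

open Pool.Agent.HUK

private theorem f3_exp1 : (2 : ℝ) ≤ Real.exp 1 := by
  have := Real.add_one_le_exp (1 : ℝ)
  linarith

private theorem f3_exp2 : (7 : ℝ) ≤ Real.exp 2 := by
  have h := Real.exp_one_gt_d9
  have h2 : Real.exp 2 = Real.exp 1 * Real.exp 1 := by rw [← Real.exp_add]; norm_num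
  rw [h2]
  nlinarith

private theorem f3_exp3 : (8 : ℝ) ≤ Real.exp 3 := by
  have h := f3_exp2
  have h1 := f3_exp1
  have h2 : Real.exp 3 = Real.exp 2 * Real.exp 1 := by rw [← Real.exp_add]; norm_num
  rw [h2]
  nlinarith

private theorem f3_exp4 : (32 : ℝ) ≤ Real.exp 4 := by
  have h := f3_exp2
  have h2 : Real.exp 4 = Real.exp 2 * Real.exp 2 := by rw [← Real.exp_add]; norm_num
  rw [h2]
  nlinarith

private theorem f3_powexp {a u : ℝ} (ha : 0 ≤ a) (h : a ≤ Real.exp u) (n : ℕ) : a ^ n ≤ Real.exp (n * u) := by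
  rw [Real.exp_nat_mul]
  exact pow_le_pow_left₀ ha h n

private theorem f3_pows {z : ℝ} (hz : 65536 ≤ z) {m n : ℕ} (h : m ≤ n) : z ^ m ≤ z ^ n :=
  pow_le_pow_right₀ (by linarith) h

/-- first size condition -/
private theorem f3_I1 {k C : ℕ} {z : ℝ} (hz : 65536 ≤ z) (hkz : (k : ℝ) ≤ z)
    (hCz : (C : ℝ) ≤ Real.exp (z ^ 20)) : (2 * (C : ℝ)) ^ k ≤ Real.exp (z ^ 1000) := by
  have h1 : 2 * (C : ℝ) ≤ Real.exp (1 + z ^ 20) := by
    rw [Real.exp_add]
    exact mul_le_mul f3_exp1 hCz (by positivity) (by positivity)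
  refine (f3_powexp (by positivity) h1 k).trans (Real.exp_le_exp.2 ?_)
  have hz0 : 0 < z := by linarith
  calc (k : ℝ) * (1 + z ^ 20) ≤ z * (1 + z ^ 20) := by gcongr
    _ = z ^ 1 + z ^ 21 := by ring
    _ ≤ z ^ 21 + z ^ 21 := by linarith [f3_pows hz (show 1 ≤ 21 by norm_num)]
    _ = 2 * z ^ 21 := by ring
    _ ≤ z * z ^ 21 := by gcongr; linarith
    _ = z ^ 22 := by ring
    _ ≤ z ^ 1000 := f3_pows hz (by norm_num)

/-- logarithms -/
private theorem f3_log {z M L0 : ℝ} (hM : M ≤ 7 * L0) (hL0 : 1 ≤ L0) (hlog : Real.log L0 ≤ 1000 * z) :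
    M ≤ Real.exp (2 + 1000 * z) := by
  refine hM.trans ?_
  rw [Real.exp_add]
  have h1 : L0 ≤ Real.exp (1000 * z) := by
    rw [← Real.log_le_iff_le_exp (by linarith)]
    exact hlog
  exact mul_le_mul f3_exp2 h1 (by linarith) (by positivity)

/-- second size condition -/
private theorem f3_I2 {k C : ℕ} {z s L0 M : ℝ} (hz : 65536 ≤ z) (h2k : (2 : ℝ) ^ k ≤ z) (hkz : (k : ℝ) ≤ z)
    (hC : 1 ≤ C) (hCz : (C : ℝ) ≤ Real.exp (z ^ 20)) (hM0 : 0 ≤ M) (hM : M ≤ 7 * L0) (hL0 : 1 ≤ L0)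
    (hlog : Real.log L0 ≤ 1000 * z) (hs : z ^ 166 ≤ s) :
    4 ^ (2 ^ k) * (8 * (2 * (C : ℝ)) ^ k) ^ k * M ^ 2 * (2 * (C : ℝ) + 3) ^ (k + 2) ≤ Real.exp (s / 2) := by
  have hz0 : 0 < z := by linarith
  have hC1 : (1 : ℝ) ≤ C := by exact_mod_cast hC
  have e1 : (4 : ℝ) ^ (2 ^ k) ≤ Real.exp (2 * z) := by
    have h1 : (4 : ℝ) ≤ Real.exp 2 := by linarith [f3_exp2]
    refine (f3_powexp (by norm_num) h1 (2 ^ k)).trans (Real.exp_le_exp.2 ?_)
    push_cast
    linarith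
  have e2 : (8 * (2 * (C : ℝ)) ^ k) ^ k ≤ Real.exp (z * (3 + z * (1 + z ^ 20))) := by
    have h1 : 2 * (C : ℝ) ≤ Real.exp (1 + z ^ 20) := by
      rw [Real.exp_add]
      exact mul_le_mul f3_exp1 hCz (by positivity) (by positivity)
    have h2 : 8 * (2 * (C : ℝ)) ^ k ≤ Real.exp (3 + k * (1 + z ^ 20)) := by
      rw [Real.exp_add]
      exact mul_le_mul f3_exp3 (f3_powexp (by positivity) h1 k) (by positivity) (by positivity)
    refine (f3_powexp (by positivity) h2 k).trans (Real.exp_le_exp.2 ?_)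
    gcongr
  have e3 : M ^ 2 ≤ Real.exp ((2 : ℕ) * (2 + 1000 * z)) := f3_powexp hM0 (f3_log hM hL0 hlog) 2
  have e4 : (2 * (C : ℝ) + 3) ^ (k + 2) ≤ Real.exp ((z + 2) * (2 + z ^ 20)) := by
    have h1 : 2 * (C : ℝ) + 3 ≤ Real.exp (2 + z ^ 20) := by
      rw [Real.exp_add]
      have h2 : 2 * (C : ℝ) + 3 ≤ 7 * C := by linarith
      exact h2.trans (mul_le_mul f3_exp2 hCz (by positivity) (by positivity))
    refine (f3_powexp (by positivity) h1 (k + 2)).trans (Real.exp_le_exp.2 ?_)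
    push_cast
    gcongr
  calc 4 ^ (2 ^ k) * (8 * (2 * (C : ℝ)) ^ k) ^ k * M ^ 2 * (2 * (C : ℝ) + 3) ^ (k + 2)
      ≤ Real.exp (2 * z) * Real.exp (z * (3 + z * (1 + z ^ 20))) * Real.exp ((2 : ℕ) * (2 + 1000 * z)) *
        Real.exp ((z + 2) * (2 + z ^ 20)) := by gcongr
    _ = Real.exp (2 * z + z * (3 + z * (1 + z ^ 20)) + (2 : ℕ) * (2 + 1000 * z) + (z + 2) * (2 + z ^ 20)) := by
        rw [← Real.exp_add, ← Real.exp_add, ← Real.exp_add]
    _ ≤ Real.exp (s / 2) := by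
        refine Real.exp_le_exp.2 ?_
        push_cast
        have p1 := f3_pows hz (show 1 ≤ 22 by norm_num)
        have p2 := f3_pows hz (show 2 ≤ 22 by norm_num)
        have p20 := f3_pows hz (show 20 ≤ 22 by norm_num)
        have p21 := f3_pows hz (show 21 ≤ 22 by norm_num)
        have p3 : z ^ 22 = z ^ 22 := rfl
        have q1 : 2007 * z + 8 ≤ z ^ 2 := by nlinarith
        have q2 : 2 * z * z ^ 22 ≤ z ^ 24 := by
          calc 2 * z * z ^ 22 = 2 * z ^ 23 := by ring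
            _ ≤ z * z ^ 23 := by gcongr; linarith
            _ = z ^ 24 := by ring
        have q3 := f3_pows hz (show 24 ≤ 166 by norm_num)
        have q4 : 0 < z ^ 22 := by positivity
        have q5 : 6 * z ^ 22 ≤ z * z ^ 22 := by gcongr; linarith
        have q6 : 2 * z + z * (3 + z * (1 + z ^ 20)) + 2 * (2 + 1000 * z) + (z + 2) * (2 + z ^ 20) =
            (2007 * z + 8) + z ^ 2 + z ^ 22 + z ^ 21 + 2 * z ^ 20 := by ring
        rw [q6]
        linarith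

/-- third size condition -/
private theorem f3_I3 {k : ℕ} {z s L0 M mB : ℝ} (hz : 65536 ≤ z) (h2k : (2 : ℝ) ^ k ≤ z) (hkz : (k : ℝ) ≤ z)
    (hM0 : 0 ≤ M) (hM : M ≤ 7 * L0) (hL0 : 1 ≤ L0) (hlog : Real.log L0 ≤ 1000 * z) (hs : z ^ 166 ≤ s)
    (hmB : 2 ^ (k + 3) ≤ mB) :
    M ^ k * (32 * k * Real.exp (-(s / 2 ^ (k + 2)))) ≤ Real.exp (-(s / mB)) := by
  have hz0 : 0 < z := by linarith
  have hs0 : 0 < s := lt_of_lt_of_le (by positivity) hs
  have e1 : M ^ k ≤ Real.exp (z * (2 + 1000 * z)) := by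
    refine (f3_powexp hM0 (f3_log hM hL0 hlog) k).trans (Real.exp_le_exp.2 ?_)
    gcongr
  have e2 : 32 * (k : ℝ) ≤ Real.exp (4 + z) := by
    rw [Real.exp_add]
    have h1 : (k : ℝ) ≤ Real.exp z := by
      have := Real.add_one_le_exp z
      linarith
    exact mul_le_mul f3_exp4 h1 (by positivity) (by positivity)
  have e3 : s / mB ≤ s / 2 ^ (k + 3) := div_le_div_of_nonneg_left hs0.le (by positivity) hmB
  have e4 : s / 2 ^ (k + 2) = 2 * (s / 2 ^ (k + 3)) := by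
    rw [pow_succ 2 (k + 2)]
    field_simp
  have e5 : z ^ 165 ≤ 8 * (s / 2 ^ (k + 3)) := by
    rw [pow_add, show (2 : ℝ) ^ 3 = 8 by norm_num]
    have h1 : 8 * (s / (2 ^ k * 8)) = s / 2 ^ k := by field_simp
    rw [h1, le_div_iff₀ (by positivity)]
    calc z ^ 165 * 2 ^ k ≤ z ^ 165 * z := by gcongr
      _ = z ^ 166 := by ring
      _ ≤ s := hs
  calc M ^ k * (32 * k * Real.exp (-(s / 2 ^ (k + 2))))
      ≤ Real.exp (z * (2 + 1000 * z)) * (Real.exp (4 + z) * Real.exp (-(s / 2 ^ (k + 2)))) := by gcongr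
    _ = Real.exp (z * (2 + 1000 * z) + (4 + z) - s / 2 ^ (k + 2)) := by
        rw [← Real.exp_add, ← Real.exp_add]
        congr 1
        ring
    _ ≤ Real.exp (-(s / mB)) := by
        refine Real.exp_le_exp.2 ?_
        have q1 : z * (2 + 1000 * z) + (4 + z) ≤ z ^ 3 := by nlinarith [sq_nonneg z]
        have q2 : 8 * z ^ 3 ≤ z ^ 165 := by
          calc 8 * z ^ 3 ≤ z * z ^ 3 := by gcongr; linarith
            _ = z ^ 4 := by ring
            _ ≤ z ^ 165 := f3_pows hz (by norm_num)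
        linarith

private theorem f3_mdl_abs {X : ℕ} {e : EData} (hE : EOk X e) (h1 : 1 ≤ cS X) (n : ℤ) : |mdl X e n| ≤ 2 * cS X := by
  classical
  unfold mdl
  split_ifs with h
  · rw [abs_mul, abs_of_nonneg (by linarith : 0 ≤ cS X), mul_comm]
    refine mul_le_mul_of_nonneg_right ?_ (by linarith)
    have hn : (1 : ℝ) ≤ n := by exact_mod_cast h.1
    have h2 : |e.χ n * (n : ℝ) ^ (e.β - 1)| ≤ 1 := by
      rw [abs_mul]
      have h3 : |(n : ℝ) ^ (e.β - 1)| ≤ 1 := by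
        rw [abs_of_nonneg (Real.rpow_nonneg (by linarith) _)]
        exact Real.rpow_le_one_of_one_le_of_nonpos hn (by linarith [hE.b1])
      exact mul_le_one₀ (hE.bd n) (abs_nonneg _) h3
    have h4 := abs_le.1 h2
    rw [abs_le]
    constructor <;> linarith [h4.1, h4.2]
  · rw [abs_zero]
    linarith

/-- Proof. `X = XX x = (2 cx + 3) x`, `C = cx x`, `L = log X`, `log x ≤ L ≤ 2 log x`. `PAu B0` for `k + 1` and `X` (`RG B0 (k+1) X` from `RG B k x`, `B ≥ 2 B0`, `RG.monoX`).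
`lam = 3 L`, `g0 = cut 0 X (lp / lam)`, `g1 = cut 0 X (mdl / lam)`: norms `≤ 1` (`CSb`, `mdl ≤ 2 cS X`), support in `[0, X)`. `(g0 - g1)/2 = (2 lam)⁻¹ cut 0 X (EE X e)`, so
`GG X (k+1) ≤ GG X (k+1) (cut 0 X EE) ≤ X^(k+2) exp (-s)` (`C1_smul`, `GG_nonneg`). `D = exp (-s / 2^(k+2))`: the left side of `hb` in `F2_tel` is at most
`4^(2^k) (8 (2C)^k)^k (1 + log 2X)^2 (X/x)^(k+2) exp (-s) ≤ exp (s/2 - s)`, since `(2C)^(k^2) (2C+3)^(k+2) ≤ exp (10 k^2 (log x)^(1/50))`, `k^2 ≤ L^0.001`, `s ≥ L^(1/6)`.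
For `t ∈ T`, `1 ≤ n ≤ x`: `0 ≤ n + b i + c i t < X` (`x + x exp(..) + x exp (..)`; `exp (..) < cx + 1`), so the products of `g0`, `g1` are `lam^(-k)` times those of `lp`, `mdl`;
`ε = ±1_T` real. Total: `lam^k 32 k x^2 exp (-s / 2^(k+2)) ≤ x^2 exp (-(s/mk B k))` (`RG.absorb` for `X`, or directly). -/
theorem F3_dens (B0 : ℕ) (h : PAu B0) (hc : CSb) : ∃ B : ℕ, ∀ k : ℕ, 1 ≤ k → ∀ x : ℕ, RG B k x → ∀ b c : Fin k → ℤ,
    FAM x k b c → ∃ (e : EData) (s : ℝ), EOk (XX x) e ∧ ES (XX x) e s ∧ ∀ T : Finset ℤ, T ⊆ Icc (0 : ℤ) x →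
      (∀ t ∈ T, ∀ i, 0 ≤ b i + c i * t) →
      |∑ t ∈ T, (MS (XX x) e x (fun i => b i + c i * t) - LS x (fun i => b i + c i * t))| ≤
        (x : ℝ) ^ 2 * Real.exp (-(s / mk B k)) := by
  classical
  obtain ⟨B1, hB1⟩ := RG.small 4
  obtain ⟨X0, hX0⟩ := hc
  obtain ⟨B2, hB2⟩ := RG.large X0
  refine ⟨2 * B0 + B1 + B2 + 3, fun k hk x hR b c hF => ?_⟩
  have hx0 : 0 < x := hR.X_pos
  have hx1 : (1 : ℝ) ≤ x := by exact_mod_cast hx0
  have hxr : (0 : ℝ) < x := by linarith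
  have hz1 := hB1 k x hk (hR.mono (by omega))
  have hbig := hB2 k x hk (hR.mono (by omega))
  obtain ⟨L0, hL0⟩ : ∃ L0, L0 = Real.log x := ⟨_, rfl⟩
  obtain ⟨z, hz⟩ : ∃ z, z = L0 ^ (1 / 1000 : ℝ) := ⟨_, rfl⟩
  have hL02 : 2 ≤ L0 := by rw [hL0]; exact hR.two_le
  rw [← hL0] at hz1 hbig
  rw [← hz] at hz1
  have hz65 : 65536 ≤ z := by
    refine le_trans ?_ hz1
    calc (65536 : ℝ) = 2 ^ (2 ^ 4) := by norm_num
      _ ≤ 2 ^ (2 ^ (4 * k)) := pow_le_pow_right₀ (by norm_num) (Nat.pow_le_pow_right (by norm_num) (by omega))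
  have h2k : (2 : ℝ) ^ k ≤ z := by
    refine le_trans ?_ hz1
    refine pow_le_pow_right₀ (by norm_num) ?_
    calc k ≤ 4 * k := by omega
      _ ≤ 2 ^ (4 * k) := (Nat.lt_two_pow_self (n := 4 * k)).le
  have hkz : (k : ℝ) ≤ z := (nat_le_two_pow k).trans h2k
  have hzpow : ∀ m : ℕ, z ^ m = L0 ^ ((m : ℝ) / 1000) := by
    intro m
    rw [hz, ← Real.rpow_natCast, ← Real.rpow_mul (by linarith)]
    congr 1
    ring
  have hL0z : L0 = z ^ 1000 := by
    rw [hzpow]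
    norm_num
  have hy : (Real.log x) ^ (1 / 50 : ℝ) = z ^ 20 := by
    rw [hzpow, ← hL0]
    norm_num
  have hlog : Real.log L0 ≤ 1000 * z := by
    rw [hz]
    exact log_le_rpow (by linarith)
  obtain ⟨C, hC⟩ : ∃ C, C = cx x := ⟨_, rfl⟩
  have hCz : (C : ℝ) ≤ Real.exp (z ^ 20) := by
    rw [hC]
    unfold cx
    rw [hy]
    exact Nat.floor_le (by positivity)
  have hC1 : 1 ≤ C := by
    rw [hC]
    unfold cx
    rw [Nat.one_le_floor_iff]
    exact Real.one_le_exp (by rw [hy]; positivity)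
  have hCf : Real.exp (z ^ 20) < C + 1 := by
    rw [hC]
    unfold cx
    rw [hy]
    exact Nat.lt_floor_add_one _
  obtain ⟨X, hX⟩ : ∃ X, X = XX x := ⟨_, rfl⟩
  have hXC : X = (2 * C + 3) * x := by
    rw [hX, hC]
    rfl
  have hxX : x ≤ X := by
    rw [hXC]
    nlinarith
  have hXr : (X : ℝ) = (2 * (C : ℝ) + 3) * x := by
    rw [hXC]
    push_cast
    ring
  have hX1 : 1 ≤ X := by omega
  have hXr1 : (1 : ℝ) ≤ X := by exact_mod_cast hX1
  have hL0X : L0 ≤ Real.log X := by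
    rw [hL0]
    exact Real.log_le_log hxr (by exact_mod_cast hxX)
  have hp21 : z ^ 20 + 2 ≤ z ^ 1000 := by
    have a1 := f3_pows hz65 (show 20 ≤ 999 by norm_num)
    have a2 := f3_pows hz65 (show 1 ≤ 999 by norm_num)
    have a3 : 2 * z ^ 999 ≤ z * z ^ 999 := by gcongr; linarith
    have a4 : z * z ^ 999 = z ^ 1000 := by ring
    rw [pow_one] at a2
    linarith
  have hLX2 : Real.log X ≤ 2 * L0 := by
    have h1 : (X : ℝ) ≤ Real.exp (2 + z ^ 20) * x := by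
      rw [hXr]
      refine mul_le_mul_of_nonneg_right ?_ hxr.le
      rw [Real.exp_add]
      have hC1r : (1 : ℝ) ≤ C := by exact_mod_cast hC1
      have h2 : 2 * (C : ℝ) + 3 ≤ 7 * C := by linarith
      exact h2.trans (mul_le_mul f3_exp2 hCz (by positivity) (by positivity))
    have h2 := Real.log_le_log (by linarith) h1
    rw [Real.log_mul (Real.exp_pos _).ne' hxr.ne', Real.log_exp, ← hL0] at h2
    linarith
  have hRG' : RG B0 (k + 1) X := by
    have h1 : RG (2 * B0) k x := hR.mono (by omega)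
    have h2 : RG (2 * B0) k X := h1.monoX hxX hx0
    unfold RG at h2 ⊢
    refine le_trans ?_ h2
    refine pow_le_pow_right₀ (by norm_num) (Nat.pow_le_pow_right (by norm_num) ?_)
    nlinarith
  obtain ⟨e, s, hE, hES, hP⟩ := h (k + 1) (by omega) X hRG'
  refine ⟨e, s, ?_, ?_, ?_⟩
  · rw [← hX]; exact hE
  · rw [← hX]; exact hES
  intro T hT hpos
  rw [← hX]
  -- the saving
  have hs : z ^ 166 ≤ s := by
    have h6 : z ^ 166 ≤ (Real.log X) ^ (1 / 6 : ℝ) := by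
      rw [hzpow]
      calc L0 ^ (((166 : ℕ) : ℝ) / 1000) ≤ L0 ^ (1 / 6 : ℝ) :=
            Real.rpow_le_rpow_of_exponent_le (by linarith) (by norm_num)
        _ ≤ (Real.log X) ^ (1 / 6 : ℝ) := Real.rpow_le_rpow (by linarith) hL0X (by norm_num)
    rcases hES with ⟨-, -, h3⟩ | ⟨h3, -⟩
    · exact h6.trans h3.lo
    · refine h6.trans (le_trans ?_ h3)
      exact Real.rpow_le_rpow_of_exponent_le (by linarith) (by norm_num)
  have hs0 : 0 < s := lt_of_lt_of_le (by positivity) hs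
  -- the constant of the sieve
  have hXX0 : X0 ≤ X := by
    have h1 : (X0 : ℝ) ≤ x := by
      have h2 : L0 ≤ x := by
        rw [hL0]
        have := Real.log_le_sub_one_of_pos hxr
        linarith
      linarith
    have h2 : X0 ≤ x := by exact_mod_cast h1
    omega
  obtain ⟨hcS1, hcS2⟩ := hX0 X hXX0
  obtain ⟨lam, hlam⟩ : ∃ lam, lam = 3 * Real.log X := ⟨_, rfl⟩
  have hlam1 : 6 ≤ lam := by
    rw [hlam]
    linarith
  have hlam0 : 0 < lam := by linarith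
  -- the functions
  obtain ⟨g0, hg0⟩ : ∃ g0 : ℤ → ℂ, g0 = cut 0 X (fun n => ((Pool.Agent.Lib.H68T.lp n / lam : ℝ) : ℂ)) := ⟨_, rfl⟩
  obtain ⟨g1, hg1⟩ : ∃ g1 : ℤ → ℂ, g1 = cut 0 X (fun n => ((mdl X e n / lam : ℝ) : ℂ)) := ⟨_, rfl⟩
  have hspt : ∀ F : ℤ → ℂ, Spt X (cut 0 X F) := by
    intro F y hy
    unfold cut
    rw [if_neg]
    rintro ⟨h1, h2⟩
    exact hy (mem_Ico.2 ⟨by omega, h2⟩)
  have hn0 : ∀ n, ‖g0 n‖ ≤ 1 := by
    intro n
    rw [hg0]
    unfold cut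
    split_ifs with hn
    · rw [Complex.norm_real, Real.norm_eq_abs, abs_div, abs_of_pos hlam0, div_le_one hlam0]
      rw [abs_of_nonneg (Pool.Agent.Lib.H68T.FIN_lp_nonneg n)]
      rcases lt_or_ge n 1 with h1 | h1
      · have h2 : n = 0 := by omega
        rw [h2]
        unfold Pool.Agent.Lib.H68T.lp
        rw [if_neg (by decide)]
        linarith
      · refine (Pool.Agent.Lib.H68T.FIN_lp_le n h1).trans ?_
        have h2 : (n : ℝ) ≤ X := by exact_mod_cast hn.2.le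
        have h3 : (0 : ℝ) < n := by exact_mod_cast (show 0 < n by omega)
        have h4 := Real.log_le_log h3 h2
        rw [hlam]
        linarith
    · rw [norm_zero]
      norm_num
  have hn1 : ∀ n, ‖g1 n‖ ≤ 1 := by
    intro n
    rw [hg1]
    unfold cut
    split_ifs with hn
    · rw [Complex.norm_real, Real.norm_eq_abs, abs_div, abs_of_pos hlam0, div_le_one hlam0]
      refine (f3_mdl_abs hE hcS1 n).trans ?_
      rw [hlam]
      linarith
    · rw [norm_zero]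
      norm_num
  -- the norm of the difference
  have hdiff : (fun n => (g0 n - g1 n) / 2) = fun n => (((2 * lam)⁻¹ : ℝ) : ℂ) * cut 0 X (EE X e) n := by
    funext n
    rw [hg0, hg1]
    unfold cut EE
    split_ifs with hn
    · push_cast
      have : (lam : ℂ) ≠ 0 := by exact_mod_cast hlam0.ne'
      field_simp
    · simp
  have hGG : GG X (k + 1) (fun n => (g0 n - g1 n) / 2) ≤ (X : ℝ) ^ (k + 2) * Real.exp (-s) := by
    rw [hdiff, C1_smul]
    have h1 := hP 0 X le_rfl le_rfl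
    have h2 : 0 ≤ GG X (k + 1) (cut 0 X (EE X e)) := GG_nonneg _ _ (by omega) _ (hspt _)
    have h3 : ((2 * lam)⁻¹) ^ (2 ^ (k + 1)) ≤ 1 := by
      refine pow_le_one₀ (by positivity) ?_
      rw [inv_le_one₀ (by positivity)]
      linarith
    calc ((2 * lam)⁻¹) ^ (2 ^ (k + 1)) * GG X (k + 1) (cut 0 X (EE X e))
        ≤ 1 * GG X (k + 1) (cut 0 X (EE X e)) := mul_le_mul_of_nonneg_right h3 h2
      _ = GG X (k + 1) (cut 0 X (EE X e)) := one_mul _
      _ ≤ (X : ℝ) ^ (k + 1 + 1) * Real.exp (-s) := h1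
  have hlog2X : Real.log (2 * X) ≤ 1 + 2 * L0 := by
    rw [Real.log_mul (by norm_num) (by linarith)]
    have := Real.log_two_lt_d9
    linarith
  have hlog2X0 : 0 ≤ 1 + Real.log (2 * X) := by
    have := Real.log_nonneg (show (1 : ℝ) ≤ 2 * X by linarith)
    linarith
  have hb : 4 ^ (2 ^ k) * (8 * (2 * (C : ℝ)) ^ k) ^ k * (1 + Real.log (2 * X)) ^ 2 *
      GG X (k + 1) (fun n => (g0 n - g1 n) / 2) / (x : ℝ) ^ (k + 2) ≤
        (Real.exp (-(s / 2 ^ (k + 2)))) ^ (2 ^ (k + 1)) := by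
    have h1 : (Real.exp (-(s / 2 ^ (k + 2)))) ^ (2 ^ (k + 1)) = Real.exp (-(s / 2)) := by
      rw [← Real.exp_nat_mul]
      congr 1
      push_cast
      rw [pow_succ 2 (k + 1)]
      field_simp
    rw [h1, div_le_iff₀ (by positivity)]
    have h2 := f3_I2 hz65 h2k hkz hC1 hCz hlog2X0 (by linarith : 1 + Real.log (2 * X) ≤ 7 * L0) (by linarith) hlog hs
    have h3 : Real.exp (-(s / 2)) = Real.exp (s / 2) * Real.exp (-s) := by
      rw [← Real.exp_add]
      congr 1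
      ring
    have hXp : (X : ℝ) ^ (k + 2) = (2 * (C : ℝ) + 3) ^ (k + 2) * (x : ℝ) ^ (k + 2) := by
      rw [hXr, mul_pow]
    calc 4 ^ (2 ^ k) * (8 * (2 * (C : ℝ)) ^ k) ^ k * (1 + Real.log (2 * X)) ^ 2 *
          GG X (k + 1) (fun n => (g0 n - g1 n) / 2)
        ≤ 4 ^ (2 ^ k) * (8 * (2 * (C : ℝ)) ^ k) ^ k * (1 + Real.log (2 * X)) ^ 2 *
          ((X : ℝ) ^ (k + 2) * Real.exp (-s)) := by
          refine mul_le_mul_of_nonneg_left hGG (by positivity)
      _ = (4 ^ (2 ^ k) * (8 * (2 * (C : ℝ)) ^ k) ^ k * (1 + Real.log (2 * X)) ^ 2 * (2 * (C : ℝ) + 3) ^ (k + 2)) *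
          (Real.exp (-s) * (x : ℝ) ^ (k + 2)) := by
          rw [hXp]
          ring
      _ ≤ Real.exp (s / 2) * (Real.exp (-s) * (x : ℝ) ^ (k + 2)) :=
          mul_le_mul_of_nonneg_right h2 (by positivity)
      _ = Real.exp (-(s / 2)) * (x : ℝ) ^ (k + 2) := by rw [h3]; ring
  have hxC : (2 * C) ^ k ≤ x := by
    have h1 := f3_I1 hz65 hkz hCz
    rw [← hL0z, hL0, Real.exp_log hxr] at h1
    exact_mod_cast h1
  have hcC : ∀ i, |c i| ≤ (C : ℤ) := by
    intro i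
    have h1 := hF.cle i
    rw [hy] at h1
    have h2 : ((|c i| : ℤ) : ℝ) < ((C : ℤ) + 1 : ℤ) := by
      push_cast
      linarith
    have h3 : |c i| < (C : ℤ) + 1 := by exact_mod_cast h2
    omega
  have hmain := F2_tel k x X C hk hC1 hxC hX1 b c hF.inj hcC g0 g1 hn0 hn1
    (by rw [hg0]; exact hspt _) (by rw [hg1]; exact hspt _) (fun t => if t ∈ T then 1 else 0)
    (fun t => by split_ifs <;> simp) (Real.exp (-(s / 2 ^ (k + 2)))) (Real.exp_pos _).le hb
  -- the inner sums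
  have hinner : ∀ t ∈ T, ∑ n ∈ Icc (1 : ℤ) x, ((∏ i, g0 (n + b i + c i * t)) - ∏ i, g1 (n + b i + c i * t)) =
      (((lam ^ k)⁻¹ * (LS x (fun i => b i + c i * t) - MS X e x (fun i => b i + c i * t)) : ℝ) : ℂ) := by
    intro t ht
    have htx := mem_Icc.1 (hT ht)
    have hval : ∀ n ∈ Icc (1 : ℤ) x, ∀ i, 0 ≤ n + b i + c i * t ∧ n + b i + c i * t < X := by
      intro n hn i
      rw [mem_Icc] at hn
      refine ⟨by linarith [hpos t ht i], ?_⟩
      have h1 : ((n + b i + c i * t : ℤ) : ℝ) < X := by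
        push_cast
        have a1 : (n : ℝ) ≤ x := by exact_mod_cast hn.2
        have a2 := hF.ble i
        have a3 := hF.cle i
        rw [hy] at a2 a3
        have a4 := le_abs_self (b i : ℝ)
        have a5 : (c i : ℝ) * t ≤ Real.exp (z ^ 20) * x := by
          have t0 : (0 : ℝ) ≤ t := by exact_mod_cast htx.1
          have t1 : (t : ℝ) ≤ x := by exact_mod_cast htx.2
          calc (c i : ℝ) * t ≤ |(c i : ℝ)| * t := mul_le_mul_of_nonneg_right (le_abs_self _) t0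
            _ ≤ Real.exp (z ^ 20) * x := mul_le_mul a3 t1 t0 (by positivity)
        rw [hXr]
        have a6 : (x : ℝ) * Real.exp (z ^ 20) < x * (C + 1) := mul_lt_mul_of_pos_left hCf hxr
        have a7 : (b i : ℝ) ≤ x * Real.exp (z ^ 20) := a4.trans a2
        nlinarith
      exact_mod_cast h1
    have hprod : ∀ (G : ℤ → ℝ) (n : ℤ), n ∈ Icc (1 : ℤ) x →
        ∏ i, cut 0 X (fun n => ((G n / lam : ℝ) : ℂ)) (n + b i + c i * t) =
          (((lam ^ k)⁻¹ * ∏ i, G (n + (b i + c i * t)) : ℝ) : ℂ) := by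
      intro G n hn
      have h1 : ∀ i, cut 0 X (fun n => ((G n / lam : ℝ) : ℂ)) (n + b i + c i * t) =
          ((G (n + (b i + c i * t)) / lam : ℝ) : ℂ) := by
        intro i
        unfold cut
        rw [if_pos (hval n hn i), add_assoc]
      rw [Finset.prod_congr rfl fun i _ => h1 i, ← Complex.ofReal_prod]
      congr 1
      rw [Finset.prod_div_distrib, Finset.prod_const, Finset.card_univ, Fintype.card_fin]
      ring
    unfold LS MS
    rw [← Finset.sum_sub_distrib, Finset.mul_sum, Complex.ofReal_sum]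
    refine Finset.sum_congr rfl fun n hn => ?_
    rw [hg0, hg1, hprod _ n hn, hprod _ n hn]
    push_cast
    ring
  have hsum : ∑ t ∈ Icc (0 : ℤ) x, (if t ∈ T then (1 : ℂ) else 0) *
      ∑ n ∈ Icc (1 : ℤ) x, ((∏ i, g0 (n + b i + c i * t)) - ∏ i, g1 (n + b i + c i * t)) =
      ((-((lam ^ k)⁻¹ * ∑ t ∈ T, (MS X e x (fun i => b i + c i * t) - LS x (fun i => b i + c i * t))) : ℝ) : ℂ) := by
    have h1 : ∑ t ∈ Icc (0 : ℤ) x, (if t ∈ T then (1 : ℂ) else 0) *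
        ∑ n ∈ Icc (1 : ℤ) x, ((∏ i, g0 (n + b i + c i * t)) - ∏ i, g1 (n + b i + c i * t)) =
        ∑ t ∈ T, ∑ n ∈ Icc (1 : ℤ) x, ((∏ i, g0 (n + b i + c i * t)) - ∏ i, g1 (n + b i + c i * t)) := by
      rw [← Finset.sum_subset hT fun t _ ht => by rw [if_neg ht, zero_mul]]
      refine Finset.sum_congr rfl fun t ht => ?_
      rw [if_pos ht, one_mul]
    rw [h1, Finset.sum_congr rfl hinner, ← Complex.ofReal_sum]
    congr 1
    rw [← Finset.mul_sum, ← mul_neg, ← Finset.sum_neg_distrib]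
    congr 1
    refine Finset.sum_congr rfl fun t _ => ?_
    ring
  rw [hsum, Complex.norm_real, Real.norm_eq_abs, abs_neg, abs_mul, abs_of_pos (by positivity : 0 < (lam ^ k)⁻¹)] at hmain
  have hlk : 0 < lam ^ k := by positivity
  rw [inv_mul_le_iff₀ hlk] at hmain
  refine hmain.trans ?_
  have hmB : (2 : ℝ) ^ (k + 3) ≤ mk (2 * B0 + B1 + B2 + 3) k := by
    unfold mk
    refine pow_le_pow_right₀ (by norm_num) ?_
    have h1 : k + 1 ≤ 2 ^ k := Nat.lt_two_pow_self (n := k)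
    calc k + 3 ≤ 3 * 2 ^ k := by omega
      _ ≤ (2 * B0 + B1 + B2 + 3) * 2 ^ k := Nat.mul_le_mul_right _ (by omega)
  have h3 := f3_I3 hz65 h2k hkz hlam0.le (by rw [hlam]; linarith : lam ≤ 7 * L0) (by linarith) hlog hs hmB
  calc lam ^ k * (32 * k * (x : ℝ) ^ 2 * Real.exp (-(s / 2 ^ (k + 2))))
      = (x : ℝ) ^ 2 * (lam ^ k * (32 * k * Real.exp (-(s / 2 ^ (k + 2))))) := by ring
    _ ≤ _ := mul_le_mul_of_nonneg_left h3 (by positivity)

end Pool.Agent.H16U
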