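import Pool.Agent.Lib.H16U.FDefs

/-!
# H16U, chunk F4 (M): lower bound for the model sum of an admissible tuple
-/

open Finset

namespace Pool.Agent.H16U

open Pool.Agent.HUK

theorem F4_ev {a b : ℝ} (hab : a < b) (C : ℝ) : ∀ᶠ L : ℝ in Filter.atTop, C * L ^ a ≤ L ^ b := by
  have h1 : Filter.Tendsto (fun L : ℝ => L ^ (b - a)) Filter.atTop Filter.atTop :=
    tendsto_rpow_atTop (by linarith)
  filter_upwards [h1.eventually (Filter.eventually_ge_atTop C), Filter.eventually_gt_atTop (0 : ℝ)] with L hL h0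
  have h2 : L ^ b = L ^ (b - a) * L ^ a := by
    rw [← Real.rpow_add h0]
    congr 1
    ring
  rw [h2]
  exact mul_le_mul_of_nonneg_right hL (Real.rpow_nonneg h0.le _)

theorem F4_num : ∃ C0 : ℝ, 1 ≤ C0 ∧ ∀ L : ℝ, C0 ≤ L → L ^ (1 / 50 : ℝ) + 8 ≤ L ∧ L ^ (1 / 50 : ℝ) + 3 ≤ L ^ (1 / 10 : ℝ) ∧
    4 * (L ^ (1 / 10 : ℝ) * L ^ (1 / 1000 : ℝ)) ≤ L ^ (1 / 6 : ℝ) ∧
    8 * (L ^ (1 / 5 : ℝ) * L ^ (1 / 1000 : ℝ) * L ^ (1 / 1000 : ℝ)) ≤ L ^ (1 / 3 : ℝ) ∧
    64 * (L ^ (1 / 5 : ℝ) * L ^ (1 / 1000 : ℝ)) ≤ L ^ (1 / 4 : ℝ) := by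
  have e1 := F4_ev (show (1 / 50 : ℝ) < 1 by norm_num) 2
  have e2 := F4_ev (show (1 / 50 : ℝ) < 1 / 10 by norm_num) 2
  have e3 := F4_ev (show (101 / 1000 : ℝ) < 1 / 6 by norm_num) 4
  have e4 := F4_ev (show (202 / 1000 : ℝ) < 1 / 3 by norm_num) 8
  have e5 := F4_ev (show (201 / 1000 : ℝ) < 1 / 4 by norm_num) 64
  have e6 := F4_ev (show (0 : ℝ) < 1 / 10 by norm_num) 6
  have e7 := Filter.eventually_ge_atTop (16 : ℝ)
  obtain ⟨C0, hC0⟩ := Filter.eventually_atTop.1 (e1.and (e2.and (e3.and (e4.and (e5.and (e6.and e7))))))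
  refine ⟨max C0 1, le_max_right _ _, fun L hL => ?_⟩
  obtain ⟨h1, h2, h3, h4, h5, h6, h7⟩ := hC0 L ((le_max_left _ _).trans hL)
  have hL0 : 0 < L := by linarith
  rw [Real.rpow_one] at h1
  rw [Real.rpow_zero] at h6
  refine ⟨by linarith, by linarith, ?_, ?_, ?_⟩
  · rw [← Real.rpow_add hL0]
    norm_num at h3 ⊢
    exact h3
  · rw [← Real.rpow_add hL0, ← Real.rpow_add hL0]
    norm_num at h4 ⊢
    exact h4
  · rw [← Real.rpow_add hL0]
    norm_num at h5 ⊢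
    exact h5

theorem F4_mdl_nonneg (X : ℕ) (e : EData) (he : EOk X e) (hc : 1 ≤ cS X) (n : ℤ) : 0 ≤ mdl X e n := by
  unfold mdl
  split_ifs with h
  · have h1 : (1 : ℝ) ≤ n := by exact_mod_cast h.1
    have h2 : 0 ≤ (n : ℝ) ^ (e.β - 1) := Real.rpow_nonneg (by linarith) _
    have h3 : (n : ℝ) ^ (e.β - 1) ≤ 1 := Real.rpow_le_one_of_one_le_of_nonpos h1 (by linarith [he.b1])
    have h4 := abs_le.mp (he.bd n)
    have h5 : e.χ n * (n : ℝ) ^ (e.β - 1) ≤ 1 := by nlinarith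
    exact mul_nonneg (by linarith) (by linarith)
  · exact le_rfl

/-- Proof. `X = XX x`, `L = log X ∈ [log x, 2 log x]`, `n0 = ⌈X^(1/2)⌉`, `x' = x - n0 ≥ x/2 ≥ X exp (-L^(1/10))` (`X/x = 2 cx + 3 ≤ exp (L^(1/40))`). `MTu` for `X`, `x'`, `a`, `n0`:
at least `x' exp (-L^(1/10))` integers `n ∈ (n0, x]` with all `n + a i` rough. For them `mdl X e (n + a i) = cS X (1 - χ (n + a_i)^(β-1)) ≥ exp (-2 L^(1/5))` (`EOk.lb`, `cS ≥ 1`),
and even `≥ 1` if `χ = 0`. All other terms are `≥ 0`. So `MS ≥ x exp (-E)` with `E = 2 L^(1/10)` in the first case of `ES` (`s ≥ L^(1/6)`), `E = 2 L^(1/10) + 2 k L^(1/5)` in the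
second (`s ≥ L^(1/3)`); `mk B1 k ≤ L^(1/1000)` (`RG.mk_small`), `k ≤ L^(1/1000)`. -/
theorem F4_main (B0 B1 : ℕ) (h : MTu B0) (hc : CSb) : ∃ B : ℕ, ∀ k : ℕ, 1 ≤ k → ∀ x : ℕ, RG B k x → ∀ (e : EData) (s : ℝ),
    EOk (XX x) e → ES (XX x) e s → ∀ a : Fin k → ℤ, (∀ i, 0 ≤ a i) → Adm a →
    ∃ E : ℝ, 0 ≤ E ∧ E ≤ s / (2 * mk B1 k) ∧ E ≤ (Real.log x) ^ (1 / 4 : ℝ) / 8 ∧ x * Real.exp (-E) ≤ MS (XX x) e x a := by
  obtain ⟨X0, hM⟩ := h
  obtain ⟨X1, hC⟩ := hc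
  obtain ⟨Ba, hBa⟩ := RG.small 1
  obtain ⟨Bb, hBb⟩ := RG.mk_small B1
  obtain ⟨C0, hC01, hC0⟩ := F4_num
  obtain ⟨Bc, hBc⟩ := RG.large (max C0 ((X0 : ℝ) + X1))
  refine ⟨B0 + Ba + Bb + Bc, fun k hk x hR e s he hs a ha hadm => ?_⟩
  have hx0 : 0 < x := hR.X_pos
  have hxr : (0 : ℝ) < x := by exact_mod_cast hx0
  have hlx := hBc k x hk (hR.mono (by omega))
  have hlx1 : C0 ≤ Real.log x := (le_max_left _ _).trans hlx
  -- the scale
  have hXx : x ≤ XX x := by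
    unfold XX
    exact Nat.le_mul_of_pos_left _ (by omega)
  obtain ⟨X, hX⟩ : ∃ X, X = XX x := ⟨_, rfl⟩
  rw [← hX] at he hs hXx
  rw [← hX]
  have hXr : (0 : ℝ) < X := by exact_mod_cast (lt_of_lt_of_le hx0 hXx)
  obtain ⟨l, hl⟩ : ∃ l, l = Real.log (x : ℝ) := ⟨_, rfl⟩
  obtain ⟨L, hL⟩ : ∃ L, L = Real.log (X : ℝ) := ⟨_, rfl⟩
  have hxe : (x : ℝ) = Real.exp l := by rw [hl, Real.exp_log hxr]
  have hXe : (X : ℝ) = Real.exp L := by rw [hL, Real.exp_log hXr]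
  rw [← hl] at hlx hlx1 ⊢
  have hlL : l ≤ L := by
    rw [hl, hL]
    exact Real.log_le_log hxr (by exact_mod_cast hXx)
  have hl1 : 1 ≤ l := hC01.trans hlx1
  obtain ⟨a1, a2, -, -, -⟩ := hC0 l hlx1
  obtain ⟨b1, b2, b3, b4, b5⟩ := hC0 L (hlx1.trans hlL)
  have hcx : (cx x : ℝ) ≤ Real.exp (l ^ (1 / 50 : ℝ)) := by
    unfold cx
    rw [← hl]
    exact Nat.floor_le (Real.exp_pos _).le
  have hp50 : 0 ≤ l ^ (1 / 50 : ℝ) := Real.rpow_nonneg (by linarith) _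
  have hXx2 : (X : ℝ) ≤ x * Real.exp (l ^ (1 / 50 : ℝ) + 2) := by
    rw [hX]
    unfold XX
    push_cast
    have h1 : (1 : ℝ) ≤ Real.exp (l ^ (1 / 50 : ℝ)) := Real.one_le_exp hp50
    have h2 : (5 : ℝ) ≤ Real.exp 2 := by
      have h3 := Real.exp_one_gt_d9
      have h4 : Real.exp 2 = Real.exp 1 * Real.exp 1 := by
        rw [← Real.exp_add]
        norm_num
      rw [h4]
      nlinarith
    rw [Real.exp_add]
    have h5 : 2 * (cx x : ℝ) + 3 ≤ Real.exp (l ^ (1 / 50 : ℝ)) * Real.exp 2 := by nlinarith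
    nlinarith
  have hL2 : L ≤ l + l ^ (1 / 50 : ℝ) + 2 := by
    rw [hxe, ← Real.exp_add, hXe, Real.exp_le_exp] at hXx2
    linarith
  have hL2l : L ≤ 2 * l := by linarith
  have hL1 : 1 ≤ L := hl1.trans hlL
  have hL0 : 0 < L := by linarith
  -- `n0`
  have hsq : (X : ℝ) ^ (1 / 2 : ℝ) ≤ x / 8 := by
    rw [hXe, hxe, ← Real.exp_mul]
    have h1 : (8 : ℝ) ≤ Real.exp 3 := by
      have h3 := Real.exp_one_gt_d9
      have h4 : Real.exp 3 = Real.exp 1 * Real.exp 1 * Real.exp 1 := by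
        rw [← Real.exp_add, ← Real.exp_add]
        norm_num
      rw [h4]
      have h5 : (7 : ℝ) ≤ Real.exp 1 * Real.exp 1 := by nlinarith
      nlinarith
    rw [le_div_iff₀ (by norm_num)]
    calc Real.exp (L * (1 / 2)) * 8 ≤ Real.exp (L * (1 / 2)) * Real.exp 3 :=
          mul_le_mul_of_nonneg_left h1 (Real.exp_pos _).le
      _ = Real.exp (L * (1 / 2) + 3) := by rw [Real.exp_add]
      _ ≤ Real.exp l := Real.exp_le_exp.mpr (by linarith)
  have hx8 : (8 : ℝ) ≤ x := by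
    have h1 : (1 : ℝ) ≤ (X : ℝ) ^ (1 / 2 : ℝ) := Real.one_le_rpow (by
      have : 1 ≤ X := le_trans hx0 hXx
      exact_mod_cast this) (by norm_num)
    linarith
  obtain ⟨n0, hn0⟩ : ∃ n0, n0 = ⌈(X : ℝ) ^ (1 / 2 : ℝ)⌉₊ := ⟨_, rfl⟩
  have hn0a : (X : ℝ) ^ (1 / 2 : ℝ) ≤ n0 := by rw [hn0]; exact Nat.le_ceil _
  have hn0b : (n0 : ℝ) ≤ x / 2 := by
    have h1 : (n0 : ℝ) < (X : ℝ) ^ (1 / 2 : ℝ) + 1 := by
      rw [hn0]
      exact Nat.ceil_lt_add_one (Real.rpow_nonneg hXr.le _)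
    linarith
  have hn0x : n0 ≤ x := by
    have : (n0 : ℝ) ≤ x := by linarith
    exact_mod_cast this
  have hx' : ((x - n0 : ℕ) : ℝ) = x - n0 := by
    rw [Nat.cast_sub hn0x]
  have hp10 : 1 ≤ L ^ (1 / 10 : ℝ) := Real.one_le_rpow hL1 (by norm_num)
  have hp5 : 1 ≤ L ^ (1 / 5 : ℝ) := Real.one_le_rpow hL1 (by norm_num)
  have hp1000 : 1 ≤ L ^ (1 / 1000 : ℝ) := Real.one_le_rpow hL1 (by norm_num)
  have h10 : l ^ (1 / 10 : ℝ) ≤ L ^ (1 / 10 : ℝ) := Real.rpow_le_rpow (by linarith) hlL (by norm_num)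
  have hhalf : (1 : ℝ) / 2 = Real.exp (-Real.log 2) := by
    rw [Real.exp_neg, Real.exp_log (by norm_num)]
    norm_num
  have hlog2 : Real.log 2 ≤ 1 := by
    have := Real.log_two_lt_d9
    linarith
  have hreq : (X : ℝ) * Real.exp (-(L ^ (1 / 10 : ℝ))) ≤ ((x - n0 : ℕ) : ℝ) := by
    rw [hx']
    have h1 : (X : ℝ) * Real.exp (-(L ^ (1 / 10 : ℝ))) ≤ x * (1 / 2) := by
      calc (X : ℝ) * Real.exp (-(L ^ (1 / 10 : ℝ))) ≤ x * Real.exp (l ^ (1 / 50 : ℝ) + 2) * Real.exp (-(L ^ (1 / 10 : ℝ))) :=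
            mul_le_mul_of_nonneg_right hXx2 (Real.exp_pos _).le
        _ = x * Real.exp (l ^ (1 / 50 : ℝ) + 2 - L ^ (1 / 10 : ℝ)) := by
          rw [mul_assoc, ← Real.exp_add]
          ring_nf
        _ ≤ x * Real.exp (-Real.log 2) := by
          refine mul_le_mul_of_nonneg_left (Real.exp_le_exp.mpr ?_) hxr.le
          linarith
        _ = x * (1 / 2) := by rw [hhalf]
    linarith
  -- the tuple
  obtain ⟨a', ha'⟩ : ∃ a' : Fin k → ℕ, a' = fun i => (a i).toNat := ⟨_, rfl⟩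
  have haa : ∀ i, (a' i : ℤ) = a i := by
    intro i
    rw [ha']
    exact Int.toNat_of_nonneg (ha i)
  have hadm' : ∀ p : ℕ, p.Prime → ∃ z : ZMod p, ∀ i, (a' i : ZMod p) ≠ z := by
    intro p hp
    obtain ⟨z, hz⟩ := hadm p hp
    refine ⟨z, fun i => ?_⟩
    have h1 := hz i
    rw [← haa i] at h1
    push_cast at h1
    exact h1
  have hXbig : (X0 : ℝ) + X1 ≤ X := by
    have h1 : (X0 : ℝ) + X1 ≤ l := (le_max_right _ _).trans hlx
    have h2 : L ≤ X := by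
      rw [hL]
      have := Real.log_le_sub_one_of_pos hXr
      linarith
    linarith
  have hX0 : X0 ≤ X := by
    have h1 : (X0 : ℝ) ≤ X := by
      have : (0 : ℝ) ≤ X1 := Nat.cast_nonneg _
      linarith
    exact_mod_cast h1
  have hX1 : X1 ≤ X := by
    have h1 : (X1 : ℝ) ≤ X := by
      have : (0 : ℝ) ≤ X0 := Nat.cast_nonneg _
      linarith
    exact_mod_cast h1
  have hRX : RG (B0 + Ba + Bb + Bc) k X := hR.monoX hXx hx0
  have hcnt := hM k hk X (x - n0) hX0 (hRX.mono (by omega)) (by rw [← hL]; exact hreq) a' hadm' n0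
  rw [← hL] at hcnt
  obtain ⟨hcS, -⟩ := hC X hX1
  -- the set
  obtain ⟨T, hT⟩ : ∃ T : Set ℕ, T = {n : ℕ | n0 < n ∧ n ≤ n0 + (x - n0) ∧ ∀ i, Rough X ((n : ℤ) + a' i)} := ⟨_, rfl⟩
  rw [← hT] at hcnt
  have hTf : T.Finite := by
    refine (Set.finite_Iic (n0 + (x - n0))).subset ?_
    intro n hn
    rw [hT] at hn
    exact hn.2.1
  have hk1000 : (k : ℝ) ≤ L ^ (1 / 1000 : ℝ) := by
    have h1 := hBa k X hk (hRX.mono (by omega))
    rw [← hL] at h1
    refine le_trans ?_ h1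
    have h2 : (k : ℝ) ≤ 2 ^ (1 * k) := by
      rw [one_mul]
      exact nat_le_two_pow k
    have h3 : (2 : ℝ) ^ (1 * k) ≤ 2 ^ (2 ^ (1 * k)) :=
      pow_le_pow_right₀ (by norm_num) (Nat.lt_two_pow_self (n := 1 * k)).le
    exact h2.trans h3
  have hmk : mk B1 k ≤ L ^ (1 / 1000 : ℝ) := by
    have h1 := hBb k X hk (hRX.mono (by omega))
    rw [← hL] at h1
    exact h1
  have hmk0 := mk_pos B1 k
  have hk0 : (0 : ℝ) ≤ k := Nat.cast_nonneg _
  -- the general lower bound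
  have key : ∀ D : ℝ, 0 ≤ D → (∀ m : ℤ, (X : ℝ) ^ (1 / 2 : ℝ) ≤ m → Rough X m → Real.exp (-(D / k)) ≤ mdl X e m) →
      x * Real.exp (-(2 * L ^ (1 / 10 : ℝ) + D)) ≤ MS X e x a := by
    intro D hD hlow
    have h1 : (hTf.toFinset.card : ℝ) * Real.exp (-D) ≤ MS X e x a := by
      have h2 : ∑ n ∈ hTf.toFinset.image (fun n : ℕ => (n : ℤ)), ∏ i, mdl X e (n + a i) ≤ MS X e x a := by
        unfold MS
        refine Finset.sum_le_sum_of_subset_of_nonneg ?_ ?_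
        · intro n hn
          rw [Finset.mem_image] at hn
          obtain ⟨m, hm, rfl⟩ := hn
          rw [Set.Finite.mem_toFinset, hT] at hm
          obtain ⟨h3, h4, -⟩ := hm
          rw [Finset.mem_Icc]
          constructor <;> omega
        · intro n _ _
          exact Finset.prod_nonneg fun i _ => F4_mdl_nonneg X e he hcS _
      rw [Finset.sum_image (fun p _ q _ hpq => Int.ofNat_inj.mp hpq)] at h2
      refine le_trans ?_ h2
      rw [← nsmul_eq_mul]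
      refine Finset.card_nsmul_le_sum _ _ _ fun n hn => ?_
      rw [Set.Finite.mem_toFinset, hT] at hn
      obtain ⟨h3, h4, h5⟩ := hn
      have h6 : Real.exp (-D) = ∏ _i : Fin k, Real.exp (-(D / k)) := by
        rw [Finset.prod_const, Finset.card_univ, Fintype.card_fin, ← Real.exp_nat_mul]
        congr 1
        have : (k : ℝ) ≠ 0 := by
          have : k ≠ 0 := by omega
          exact_mod_cast this
        field_simp
      rw [h6]
      refine Finset.prod_le_prod (fun _ _ => (Real.exp_pos _).le) fun i _ => ?_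
      have h7 := h5 i
      rw [haa i] at h7
      refine hlow _ ?_ h7
      have h8 : (0 : ℝ) ≤ a i := by exact_mod_cast ha i
      have h9 : (n0 : ℝ) ≤ n := by exact_mod_cast h3.le
      push_cast
      linarith
    have h2 : (T.ncard : ℝ) = hTf.toFinset.card := by
      rw [Set.ncard_eq_toFinset_card T hTf]
    rw [h2] at hcnt
    calc x * Real.exp (-(2 * L ^ (1 / 10 : ℝ) + D)) = x * Real.exp (-(2 * L ^ (1 / 10 : ℝ))) * Real.exp (-D) := by
          rw [mul_assoc, ← Real.exp_add]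
          ring_nf
      _ ≤ (hTf.toFinset.card : ℝ) * Real.exp (-D) := by
          refine mul_le_mul_of_nonneg_right ?_ (Real.exp_pos _).le
          refine le_trans ?_ hcnt
          rw [hx']
          calc x * Real.exp (-(2 * L ^ (1 / 10 : ℝ))) ≤ x * (Real.exp (-Real.log 2) * Real.exp (-(L ^ (1 / 10 : ℝ)))) := by
                refine mul_le_mul_of_nonneg_left ?_ hxr.le
                rw [← Real.exp_add]
                exact Real.exp_le_exp.mpr (by linarith)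
            _ = x / 2 * Real.exp (-(L ^ (1 / 10 : ℝ))) := by
                rw [← hhalf]
                ring
            _ ≤ (x - n0) * Real.exp (-(L ^ (1 / 10 : ℝ))) :=
                mul_le_mul_of_nonneg_right (by linarith) (Real.exp_pos _).le
      _ ≤ MS X e x a := h1
  have hquart : L ^ (1 / 4 : ℝ) / 2 ≤ l ^ (1 / 4 : ℝ) := by
    have h1 : L ^ (1 / 4 : ℝ) ≤ (2 * l) ^ (1 / 4 : ℝ) := Real.rpow_le_rpow hL0.le hL2l (by norm_num)
    rw [Real.mul_rpow (by norm_num) (by linarith)] at h1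
    have h2 : (2 : ℝ) ^ (1 / 4 : ℝ) ≤ 2 := by
      calc (2 : ℝ) ^ (1 / 4 : ℝ) ≤ (2 : ℝ) ^ (1 : ℝ) := Real.rpow_le_rpow_of_exponent_le (by norm_num) (by norm_num)
        _ = 2 := Real.rpow_one 2
    have h3 : 0 ≤ l ^ (1 / 4 : ℝ) := Real.rpow_nonneg (by linarith) _
    nlinarith
  have h105 : L ^ (1 / 10 : ℝ) ≤ L ^ (1 / 5 : ℝ) := Real.rpow_le_rpow_of_exponent_le hL1 (by norm_num)
  rcases hs with ⟨-, hχ, hsc⟩ | ⟨hs1, hs2⟩
  · refine ⟨2 * L ^ (1 / 10 : ℝ) + 0, by positivity, ?_, ?_, key 0 le_rfl ?_⟩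
    · have h1 := hsc.lo
      rw [← hL] at h1
      rw [le_div_iff₀ (by positivity)]
      calc (2 * L ^ (1 / 10 : ℝ) + 0) * (2 * mk B1 k) = 4 * (L ^ (1 / 10 : ℝ) * mk B1 k) := by ring
        _ ≤ 4 * (L ^ (1 / 10 : ℝ) * L ^ (1 / 1000 : ℝ)) := by
            refine mul_le_mul_of_nonneg_left (mul_le_mul_of_nonneg_left hmk (by linarith)) (by norm_num)
        _ ≤ L ^ (1 / 6 : ℝ) := b3
        _ ≤ s := h1
    · have h1 : 64 * L ^ (1 / 10 : ℝ) ≤ L ^ (1 / 4 : ℝ) := by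
        refine le_trans ?_ b5
        refine mul_le_mul_of_nonneg_left ?_ (by norm_num)
        nlinarith
      linarith
    · intro m _ hr
      unfold mdl
      rename_i h2
      have h3 : (1 : ℝ) ≤ m := by
        refine le_trans ?_ h2
        exact Real.one_le_rpow (by
          have : 1 ≤ X := le_trans hx0 hXx
          exact_mod_cast this) (by norm_num)
      rw [if_pos ⟨by exact_mod_cast h3, hr⟩, hχ m]
      simp only [zero_div, neg_zero, Real.exp_zero, zero_mul, sub_zero, mul_one]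
      exact hcS
  · refine ⟨2 * L ^ (1 / 10 : ℝ) + 2 * k * L ^ (1 / 5 : ℝ), by positivity, ?_, ?_, key (2 * k * L ^ (1 / 5 : ℝ)) (by positivity) ?_⟩
    · rw [← hL] at hs1
      have hk1 : (1 : ℝ) ≤ k := by exact_mod_cast hk
      rw [le_div_iff₀ (by positivity)]
      calc (2 * L ^ (1 / 10 : ℝ) + 2 * k * L ^ (1 / 5 : ℝ)) * (2 * mk B1 k) ≤
            (4 * (L ^ (1 / 5 : ℝ) * L ^ (1 / 1000 : ℝ))) * (2 * L ^ (1 / 1000 : ℝ)) := by
            refine mul_le_mul ?_ (by linarith) (by positivity) (by positivity)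
            have h1 : (k : ℝ) * L ^ (1 / 5 : ℝ) ≤ L ^ (1 / 1000 : ℝ) * L ^ (1 / 5 : ℝ) :=
              mul_le_mul_of_nonneg_right hk1000 (by linarith)
            nlinarith
        _ = 8 * (L ^ (1 / 5 : ℝ) * L ^ (1 / 1000 : ℝ) * L ^ (1 / 1000 : ℝ)) := by ring
        _ ≤ L ^ (1 / 3 : ℝ) := b4
        _ ≤ s := hs1
    · have h1 : (k : ℝ) * L ^ (1 / 5 : ℝ) ≤ L ^ (1 / 1000 : ℝ) * L ^ (1 / 5 : ℝ) :=
        mul_le_mul_of_nonneg_right hk1000 (by linarith)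
      have h2 : L ^ (1 / 10 : ℝ) ≤ L ^ (1 / 1000 : ℝ) * L ^ (1 / 5 : ℝ) := by nlinarith
      nlinarith
    · intro m hm hr
      have h3 : (1 : ℝ) ≤ m := by
        refine le_trans ?_ hm
        exact Real.one_le_rpow (by
          have : 1 ≤ X := le_trans hx0 hXx
          exact_mod_cast this) (by norm_num)
      have h4 := he.lb m hm
      rw [← hL] at h4
      have h5 : (2 * k * L ^ (1 / 5 : ℝ)) / k = 2 * L ^ (1 / 5 : ℝ) := by
        have : (k : ℝ) ≠ 0 := by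
          have : k ≠ 0 := by omega
          exact_mod_cast this
        field_simp
      rw [h5]
      unfold mdl
      rw [if_pos ⟨by exact_mod_cast h3, hr⟩]
      have h6 : 0 ≤ 1 - e.χ m * (m : ℝ) ^ (e.β - 1) := (Real.exp_pos _).le.trans h4
      nlinarith

end Pool.Agent.H16U
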