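import Pool.Agent.Lib.H16U.F3
import Pool.Agent.Lib.H16U.F4

/-!
# H16U, chunk F5 (M): the exceptional set
-/

open Finset

namespace Pool.Agent.H16U

open Pool.Agent.HUK

theorem f5_lp_nonneg (m : ℤ) : 0 ≤ Pool.Agent.Lib.H68T.lp m := by
  unfold Pool.Agent.Lib.H68T.lp
  split_ifs with h
  · have h1 := h.one_lt
    have h2 : (1 : ℤ) ≤ m := by omega
    exact Real.log_nonneg (by exact_mod_cast h2)
  · exact le_refl _

/-- `L = log x` large, the size of `XX x`. -/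
theorem f5_XX (x : ℕ) (hL : 2 ^ 100 ≤ Real.log x) : 0 < Real.log (XX x) ∧ Real.log x ≤ Real.log (XX x) ∧ Real.log (XX x) ≤ 2 * Real.log x := by
  obtain ⟨L, hLe⟩ : ∃ L, L = Real.log x := ⟨_, rfl⟩
  have hx : (0 : ℝ) < x := by
    rcases Nat.eq_zero_or_pos x with h | h
    · rw [h] at hL
      norm_num at hL
    · exact_mod_cast h
  have h1 : (XX x : ℝ) = (2 * cx x + 3) * x := by
    unfold XX
    push_cast
    ring
  have hc : (0 : ℝ) ≤ cx x := Nat.cast_nonneg _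
  rw [← hLe] at hL ⊢
  have h2 : L ≤ Real.log (XX x) := by
    rw [hLe, h1]
    exact Real.log_le_log hx (by nlinarith)
  refine ⟨by linarith, h2, ?_⟩
  rw [h1, Real.log_mul (by positivity) hx.ne', ← hLe]
  have h3 : (cx x : ℝ) ≤ Real.exp (L ^ (1 / 50 : ℝ)) := by
    unfold cx
    rw [hLe]
    exact Nat.floor_le (Real.exp_pos _).le
  have h4 : L ^ (1 / 50 : ℝ) ≤ L ^ (1 / 2 : ℝ) := Real.rpow_le_rpow_of_exponent_le (by linarith) (by norm_num)
  have h5 : L ^ (1 / 2 : ℝ) ≤ L / 2 := by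
    rw [← Real.sqrt_eq_rpow, Real.sqrt_le_left (by linarith)]
    nlinarith
  have h6 : 2 * (cx x : ℝ) + 3 ≤ Real.exp 2 * Real.exp (L / 2) := by
    have e1 : (cx x : ℝ) ≤ Real.exp (L / 2) := h3.trans (Real.exp_le_exp.2 (h4.trans h5))
    have e2 : (5 : ℝ) ≤ Real.exp 2 := by
      have := Real.add_one_le_exp (1 : ℝ)
      have e3 : Real.exp 2 = Real.exp 1 * Real.exp 1 := by rw [← Real.exp_add]; norm_num
      have e4 := Real.exp_one_gt_d9
      rw [e3]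
      nlinarith
    have e5 : (1 : ℝ) ≤ Real.exp (L / 2) := Real.one_le_exp (by linarith)
    nlinarith
  have h7 : Real.log (2 * (cx x : ℝ) + 3) ≤ 2 + L / 2 := by
    rw [← Real.exp_add] at h6
    have := Real.log_le_log (by positivity) h6
    rwa [Real.log_exp] at this
  linarith

/-- The values are at most `XX x`. -/
theorem f5_val (x k : ℕ) (b c : Fin k → ℤ) (h : FAM x k b c) (t n : ℤ) (ht0 : 0 ≤ t) (ht : t ≤ x) (hn : n ≤ x) (i : Fin k) :
    n + (b i + c i * t) ≤ XX x := by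
  obtain ⟨u, hu⟩ : ∃ u, u = Real.exp ((Real.log x) ^ (1 / 50 : ℝ)) := ⟨_, rfl⟩
  have h1 : u < cx x + 1 := by
    rw [hu]
    exact Nat.lt_floor_add_one _
  have hb := h.ble i
  have hc := h.cle i
  rw [← hu] at hb hc
  have hb2 := (abs_le.1 hb).2
  have hc2 := (abs_le.1 hc).2
  have hx0 : (0 : ℝ) ≤ x := Nat.cast_nonneg _
  have ht' : (t : ℝ) ≤ x := by exact_mod_cast ht
  have ht0' : (0 : ℝ) ≤ t := by exact_mod_cast ht0
  have hn' : (n : ℝ) ≤ x := by exact_mod_cast hn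
  have h2 : (c i : ℝ) * t ≤ u * x := by
    calc (c i : ℝ) * t ≤ |(c i : ℝ)| * t := mul_le_mul_of_nonneg_right (le_abs_self _) ht0'
      _ ≤ u * x := mul_le_mul hc ht' ht0' (by rw [hu]; positivity)
  have h3 : ((n + (b i + c i * t) : ℤ) : ℝ) ≤ (XX x : ℝ) := by
    unfold XX
    push_cast
    nlinarith
  exact_mod_cast h3

/-- Upper bound by the number of prime tuples. -/
theorem f5_LS (x k : ℕ) (a : Fin k → ℤ) (L : ℝ) (hL : 0 ≤ L) (h : ∀ n : ℤ, 1 ≤ n → n ≤ x → ∀ i, Pool.Agent.Lib.H68T.lp (n + a i) ≤ L) :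
    LS x a ≤ NP x a * L ^ k := by
  classical
  have e : NP x a = ((Icc (1 : ℤ) x).filter fun n => ∀ i, (n + a i).toNat.Prime).card := by
    unfold NP
    congr
  rw [e]
  unfold LS
  have h1 : ∀ n ∈ Icc (1 : ℤ) x, ∏ i, Pool.Agent.Lib.H68T.lp (n + a i) ≤
      if ∀ i, (n + a i).toNat.Prime then L ^ k else 0 := by
    intro n hn
    rw [mem_Icc] at hn
    split_ifs with hp
    · calc ∏ i, Pool.Agent.Lib.H68T.lp (n + a i) ≤ ∏ _i : Fin k, L :=
            prod_le_prod (fun i _ => f5_lp_nonneg _) fun i _ => h n hn.1 hn.2 i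
        _ = L ^ k := by simp
    · push Not at hp
      obtain ⟨i, hi⟩ := hp
      rw [prod_eq_zero (mem_univ i)]
      unfold Pool.Agent.Lib.H68T.lp
      rw [if_neg hi]
  refine (sum_le_sum h1).trans (le_of_eq ?_)
  rw [← sum_filter, sum_const, nsmul_eq_mul]

/-- Numerical facts. -/
theorem f5_num (x k : ℕ) (hL : 2 ^ 100 ≤ Real.log x) (hk : (k : ℝ) ≤ (Real.log x) ^ (1 / 1000 : ℝ)) :
    2 * (2 * Real.log x) ^ k ≤ Real.exp (7 / 8 * (Real.log x) ^ (1 / 4 : ℝ)) := by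
  obtain ⟨L, hLe⟩ : ∃ L, L = Real.log x := ⟨_, rfl⟩
  rw [← hLe] at hL hk ⊢
  have hL0 : 0 < L := by linarith
  have hL1 : 1 ≤ L := by linarith
  obtain ⟨z, hz⟩ : ∃ z, z = L ^ (1 / 1000 : ℝ) := ⟨_, rfl⟩
  rw [← hz] at hk
  have hz0 : 0 < z := by rw [hz]; positivity
  have hz1 : 1 ≤ z := by rw [hz]; exact Real.one_le_rpow hL1 (by norm_num)
  have h1 := log_le_rpow hL1
  rw [← hz] at h1
  have h2 : z ^ 250 = L ^ (1 / 4 : ℝ) := by
    rw [hz, ← Real.rpow_natCast, ← Real.rpow_mul hL0.le]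
    norm_num
  have h3 : (2 : ℝ) ^ 24 ≤ z ^ 240 := by
    have e1 : z ^ 240 = L ^ (24 / 100 : ℝ) := by
      rw [hz, ← Real.rpow_natCast, ← Real.rpow_mul hL0.le]
      norm_num
    rw [e1]
    calc (2 : ℝ) ^ 24 = ((2 : ℝ) ^ 100) ^ (24 / 100 : ℝ) := by
          rw [← Real.rpow_natCast, ← Real.rpow_natCast, ← Real.rpow_mul (by norm_num)]
          norm_num
      _ ≤ L ^ (24 / 100 : ℝ) := Real.rpow_le_rpow (by norm_num) hL (by norm_num)
  have h4 : 2 * (2 * L) ^ k = Real.exp (Real.log 2 + k * Real.log (2 * L)) := by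
    rw [Real.exp_add, Real.exp_log (by norm_num), ← Real.log_pow, Real.exp_log (by positivity)]
  rw [h4]
  refine Real.exp_le_exp.2 ?_
  rw [Real.log_mul (by norm_num) hL0.ne', ← h2]
  have h5 : Real.log 2 ≤ 1 := by
    have := Real.log_two_lt_d9
    linarith
  have h6 : 0 ≤ Real.log 2 := Real.log_nonneg (by norm_num)
  have h7 : 0 ≤ Real.log L := Real.log_nonneg hL1
  have h8 : (k : ℝ) * (Real.log 2 + Real.log L) ≤ z * (1 + 1000 * z) :=
    mul_le_mul hk (by linarith) (by linarith) hz0.le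
  have h9 : z ^ 250 = z ^ 240 * z ^ 10 := by rw [← pow_add]
  have h10 : z ^ 2 ≤ z ^ 10 := pow_le_pow_right₀ hz1 (by norm_num)
  have h11 : (2 : ℝ) ^ 24 * z ^ 2 ≤ z ^ 250 := by
    rw [h9]
    exact mul_le_mul h3 h10 (by positivity) (by positivity)
  nlinarith

theorem f5_fin (x : ℕ) (hL : 2 ^ 100 ≤ Real.log x) (s m : ℝ) (hm0 : 0 < m) (hm : m ≤ (Real.log x) ^ (1 / 1000 : ℝ))
    (hs : (Real.log x) ^ (1 / 6 : ℝ) ≤ s) : 2 * Real.exp (-(s / (2 * m))) ≤ Real.exp (-((Real.log x) ^ (1 / 7 : ℝ))) := by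
  obtain ⟨L, hLe⟩ : ∃ L, L = Real.log x := ⟨_, rfl⟩
  rw [← hLe] at hL hm hs ⊢
  have hL0 : 0 < L := by linarith
  have hL1 : 1 ≤ L := by linarith
  have h1 : L ^ (1 / 7 : ℝ) * 4 * L ^ (1 / 1000 : ℝ) ≤ s := by
    have e1 : (4 : ℝ) ≤ L ^ (1 / 50 : ℝ) := by
      calc (4 : ℝ) = ((2 : ℝ) ^ 100) ^ (1 / 50 : ℝ) := by
            rw [← Real.rpow_natCast, ← Real.rpow_mul (by norm_num)]
            norm_num
        _ ≤ L ^ (1 / 50 : ℝ) := Real.rpow_le_rpow (by norm_num) hL (by norm_num)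
    calc L ^ (1 / 7 : ℝ) * 4 * L ^ (1 / 1000 : ℝ) ≤ L ^ (1 / 7 : ℝ) * L ^ (1 / 50 : ℝ) * L ^ (1 / 1000 : ℝ) := by gcongr
      _ = L ^ (1 / 7 + 1 / 50 + 1 / 1000 : ℝ) := by rw [← Real.rpow_add hL0, ← Real.rpow_add hL0]
      _ ≤ L ^ (1 / 6 : ℝ) := Real.rpow_le_rpow_of_exponent_le hL1 (by norm_num)
      _ ≤ s := hs
  have h2 : 1 ≤ L ^ (1 / 7 : ℝ) := Real.one_le_rpow hL1 (by norm_num)
  have h3 : L ^ (1 / 7 : ℝ) + 1 ≤ s / (2 * m) := by
    rw [le_div_iff₀ (by positivity)]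
    have h4 : (L ^ (1 / 7 : ℝ) + 1) * (2 * m) ≤ (2 * L ^ (1 / 7 : ℝ)) * (2 * L ^ (1 / 1000 : ℝ)) := by
      gcongr
      linarith
    linarith
  calc 2 * Real.exp (-(s / (2 * m))) ≤ Real.exp 1 * Real.exp (-(L ^ (1 / 7 : ℝ) + 1)) := by
        gcongr
        have := Real.exp_one_gt_d9
        linarith
    _ = Real.exp (-(L ^ (1 / 7 : ℝ))) := by
        rw [← Real.exp_add]
        congr 1
        ring

/-- Proof. `T` = the set of `UC`. `e`, `s`, `B1` from `F3_dens`. For `t ∈ T`: `MS ≥ x exp (-E_t) ≥ x exp (-E)`, where we may take the worst `E_t`, and `LS ≤ (log X)^k NP ≤ L^k x exp (-(log x)^(1/4))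
≤ x exp (-E)/2`. So `|T| x exp (-E)/2 ≤ x^2 exp (-(s/mk B1 k))`, `|T| ≤ 2 x exp (-(s/(2 mk B1 k))) ≤ x exp (-(log x)^(1/7))`. -/
theorem F5_bad (B0 B0' : ℕ) (hP : PAu B0) (hM : MTu B0') (hc : CSb) : ∃ B : ℕ, ∀ k : ℕ, 1 ≤ k → ∀ x : ℕ, RG B k x →
    ∀ b c : Fin k → ℤ, FAM x k b c → UC x k b c := by
  classical
  obtain ⟨B1, h3⟩ := F3_dens B0 hP hc
  obtain ⟨B2, h4⟩ := F4_main B0' B1 hM hc
  obtain ⟨B3, h5⟩ := RG.large (2 ^ 100)
  obtain ⟨B4, h6⟩ := RG.small 1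
  obtain ⟨B5, h7⟩ := RG.mk_small B1
  refine ⟨B1 + B2 + B3 + B4 + B5, fun k hk x hR b c hF => ?_⟩
  obtain ⟨e, s, he, hs, hT⟩ := h3 k hk x (hR.mono (by omega)) b c hF
  have hL := h5 k x hk (hR.mono (by omega))
  have hkL : (k : ℝ) ≤ (Real.log x) ^ (1 / 1000 : ℝ) := by
    refine le_trans ?_ (h6 k x hk (hR.mono (by omega)))
    rw [one_mul]
    calc (k : ℝ) ≤ ((2 ^ k : ℕ) : ℝ) := by exact_mod_cast (Nat.lt_two_pow_self (n := k)).le
      _ ≤ 2 ^ (2 ^ k) := nat_le_two_pow (2 ^ k)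
  have hmk := h7 k x hk (hR.mono (by omega))
  have hm0 := mk_pos B1 k
  obtain ⟨hX0, hX1, hX2⟩ := f5_XX x hL
  have hx0 : (0 : ℝ) < x := by exact_mod_cast hR.X_pos
  have hs6 : (Real.log x) ^ (1 / 6 : ℝ) ≤ s := by
    have hLn : 0 ≤ Real.log x := by linarith
    rcases hs with ⟨_, _, h⟩ | ⟨h, _⟩
    · exact (Real.rpow_le_rpow hLn hX1 (by norm_num)).trans h.lo
    · refine le_trans ?_ h
      exact (Real.rpow_le_rpow hLn hX1 (by norm_num)).trans (Real.rpow_le_rpow_of_exponent_le (by linarith) (by norm_num))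
  obtain ⟨T, hTd⟩ : ∃ T : Finset ℤ, T = (Icc (0 : ℤ) x).filter fun t => (∀ i, 0 ≤ b i + c i * t) ∧ Adm (fun i => b i + c i * t) ∧
    (NP x (fun i => b i + c i * t) : ℝ) < x * Real.exp (-((Real.log x) ^ (1 / 4 : ℝ))) := ⟨_, rfl⟩
  have hgoal : UC x k b c ↔ (T.card : ℝ) ≤ x * Real.exp (-((Real.log x) ^ (1 / 7 : ℝ))) := by
    rw [hTd]
    unfold UC
    have : ∀ (p q : ℝ), p = q → (p ≤ x * Real.exp (-((Real.log x) ^ (1 / 7 : ℝ))) ↔
      q ≤ x * Real.exp (-((Real.log x) ^ (1 / 7 : ℝ)))) := fun p q h => by rw [h]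
    apply this
    congr
  rw [hgoal]
  have hmem : ∀ t ∈ T, (0 ≤ t ∧ t ≤ x) ∧ (∀ i, 0 ≤ b i + c i * t) ∧ Adm (fun i => b i + c i * t) ∧
      (NP x (fun i => b i + c i * t) : ℝ) < x * Real.exp (-((Real.log x) ^ (1 / 4 : ℝ))) := by
    intro t ht
    rw [hTd, mem_filter, mem_Icc] at ht
    exact ht
  have hsum := hT T (by rw [hTd]; exact filter_subset _ _) fun t ht => (hmem t ht).2.1
  have hpt : ∀ t ∈ T, x * Real.exp (-(s / (2 * mk B1 k))) / 2 ≤
      MS (XX x) e x (fun i => b i + c i * t) - LS x (fun i => b i + c i * t) := by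
    intro t ht
    obtain ⟨⟨ht0, htx⟩, hpos, hadm, hnp⟩ := hmem t ht
    obtain ⟨E, hE0, hE1, hE2, hE3⟩ := h4 k hk x (hR.mono (by omega)) e s he hs (fun i => b i + c i * t) hpos hadm
    have hLS := f5_LS x k (fun i => b i + c i * t) (2 * Real.log x) (by linarith) (by
      intro n hn1 hn2 i
      unfold Pool.Agent.Lib.H68T.lp
      split_ifs with hp
      · refine le_trans (Real.log_le_log ?_ ?_) hX2
        · have h1 : (1 : ℤ) ≤ n + (b i + c i * t) := by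
            have := hpos i
            omega
          have h2 : (1 : ℝ) ≤ ((n + (b i + c i * t) : ℤ) : ℝ) := by exact_mod_cast h1
          linarith
        · exact_mod_cast f5_val x k b c hF t n ht0 htx hn2 i
      · linarith)
    have hnum := f5_num x k hL hkL
    obtain ⟨w, hw⟩ : ∃ w, w = (Real.log x) ^ (1 / 4 : ℝ) := ⟨_, rfl⟩
    rw [← hw] at hE2 hnp hnum
    have h1 : LS x (fun i => b i + c i * t) ≤ x * Real.exp (-(w / 8)) / 2 := by
      refine hLS.trans ?_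
      have hp0 : 0 ≤ (2 * Real.log x) ^ k := pow_nonneg (by linarith) _
      calc (NP x (fun i => b i + c i * t) : ℝ) * (2 * Real.log x) ^ k
          ≤ (x * Real.exp (-w)) * (2 * Real.log x) ^ k := mul_le_mul_of_nonneg_right hnp.le hp0
        _ = x * Real.exp (-w) * (2 * (2 * Real.log x) ^ k) / 2 := by ring
        _ ≤ x * Real.exp (-w) * Real.exp (7 / 8 * w) / 2 := by gcongr
        _ = x * Real.exp (-(w / 8)) / 2 := by
            rw [mul_assoc, ← Real.exp_add]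
            congr 3
            ring
    have h2 : x * Real.exp (-(w / 8)) ≤ x * Real.exp (-E) := by gcongr
    have h3 : x * Real.exp (-(s / (2 * mk B1 k))) ≤ x * Real.exp (-E) := by gcongr
    linarith
  have hcard : (T.card : ℝ) * (x * Real.exp (-(s / (2 * mk B1 k))) / 2) ≤ (x : ℝ) ^ 2 * Real.exp (-(s / mk B1 k)) := by
    calc (T.card : ℝ) * (x * Real.exp (-(s / (2 * mk B1 k))) / 2)
        = ∑ _t ∈ T, x * Real.exp (-(s / (2 * mk B1 k))) / 2 := by rw [sum_const, nsmul_eq_mul]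
      _ ≤ ∑ t ∈ T, (MS (XX x) e x (fun i => b i + c i * t) - LS x (fun i => b i + c i * t)) := sum_le_sum hpt
      _ ≤ _ := (le_abs_self _).trans hsum
  have hfin := f5_fin x hL s (mk B1 k) hm0 hmk hs6
  have hq : Real.exp (-(s / mk B1 k)) = Real.exp (-(s / (2 * mk B1 k))) * Real.exp (-(s / (2 * mk B1 k))) := by
    rw [← Real.exp_add]
    congr 1
    field_simp
    ring
  rw [hq] at hcard
  have hy : 0 < Real.exp (-(s / (2 * mk B1 k))) := Real.exp_pos _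
  obtain ⟨y, hye⟩ : ∃ y, y = Real.exp (-(s / (2 * mk B1 k))) := ⟨_, rfl⟩
  rw [← hye] at hcard hy hfin
  have h8 : (T.card : ℝ) ≤ x * (2 * y) := by
    have h9 : (T.card : ℝ) * (x * y / 2) ≤ (x * (2 * y)) * (x * y / 2) := by
      calc (T.card : ℝ) * (x * y / 2) ≤ (x : ℝ) ^ 2 * (y * y) := hcard
        _ = (x * (2 * y)) * (x * y / 2) := by ring
    exact le_of_mul_le_mul_right h9 (by positivity)
  exact h8.trans (mul_le_mul_of_nonneg_left hfin hx0.le)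

end Pool.Agent.H16U
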