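import Pool.Agent.Lib.H16U.FDefs

/-!
# H16U, chunk F6 (S/M): the final form, `k ≤ κ log log log x`, and the corollary on progressions
-/

open Finset

namespace Pool.Agent.H16U

/-- Theorem U in the regime `RG`. -/
def ThU (B : ℕ) : Prop := ∀ k : ℕ, 1 ≤ k → ∀ x : ℕ, RG B k x → ∀ b c : Fin k → ℤ, FAM x k b c → UC x k b c

/-- Theorem U. -/
def ThF (κ : ℝ) (x0 : ℕ) : Prop := ∀ x : ℕ, x0 ≤ x → ∀ k : ℕ, 1 ≤ k → (k : ℝ) ≤ κ * Real.log (Real.log (Real.log x)) →
  ∀ b c : Fin k → ℤ, FAM x k b c → UC x k b c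

theorem f6_RG (B k x : ℕ) (h0 : 1 < Real.log (Real.log x)) (h : ((B : ℝ) + 1) * k ≤ Real.log (Real.log (Real.log x))) :
    RG B k x := by
  have hl0 : 0 < Real.log x := by
    by_contra hn
    push Not at hn
    have h1 : Real.log x = 0 := le_antisymm hn (Real.log_natCast_nonneg x)
    rw [h1] at h0
    norm_num at h0
  have h2 : Real.log 2 ≤ 1 := by
    have := Real.log_two_lt_d9
    linarith
  have h3 : 0 ≤ Real.log 2 := Real.log_nonneg (by norm_num)
  have h4 : (2 : ℝ) ^ (B * k) ≤ Real.log (Real.log x) := by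
    have e1 : (2 : ℝ) ^ (B * k) = Real.exp ((B * k : ℕ) * Real.log 2) := by
      rw [← Real.log_pow, Real.exp_log (by positivity)]
    rw [e1]
    calc Real.exp ((B * k : ℕ) * Real.log 2) ≤ Real.exp (Real.log (Real.log (Real.log x))) := by
          refine Real.exp_le_exp.2 ?_
          refine le_trans ?_ h
          push_cast
          have e2 : (0 : ℝ) ≤ B * k := by positivity
          have e3 : (0 : ℝ) ≤ k := by positivity
          nlinarith
      _ = Real.log (Real.log x) := Real.exp_log (by linarith)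
  unfold RG
  have e1 : (2 : ℝ) ^ (2 ^ (B * k)) = Real.exp ((2 ^ (B * k) : ℕ) * Real.log 2) := by
    rw [← Real.log_pow, Real.exp_log (by positivity)]
  rw [e1]
  calc Real.exp ((2 ^ (B * k) : ℕ) * Real.log 2) ≤ Real.exp (Real.log (Real.log x)) := by
        refine Real.exp_le_exp.2 ?_
        push_cast
        have e2 : (0 : ℝ) ≤ 2 ^ (B * k) := by positivity
        nlinarith
    _ = Real.log x := Real.exp_log hl0

/-- The final form. -/
theorem F6_main (B : ℕ) (h : ThU B) : ∃ κ : ℝ, 0 < κ ∧ ∃ x0 : ℕ, ThF κ x0 := by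
  refine ⟨1 / ((B : ℝ) + 1), by positivity, ⌈Real.exp (Real.exp 2)⌉₊, fun x hx k hk hkx b c hF => ?_⟩
  refine h k hk x ?_ b c hF
  have h1 : Real.exp (Real.exp 2) ≤ x := (Nat.le_ceil _).trans (by exact_mod_cast hx)
  have hx0 : (0 : ℝ) < x := lt_of_lt_of_le (Real.exp_pos _) h1
  have h2 : Real.exp 2 ≤ Real.log x := by
    have := Real.log_le_log (Real.exp_pos _) h1
    rwa [Real.log_exp] at this
  have h3 : 2 ≤ Real.log (Real.log x) := by
    have := Real.log_le_log (Real.exp_pos _) h2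
    rwa [Real.log_exp] at this
  refine f6_RG B k x (by linarith) ?_
  rw [one_div, inv_mul_eq_div, le_div_iff₀ (by positivity)] at hkx
  linarith

/-- The progression is admissible. -/
theorem f6_adm (k : ℕ) (t : ℤ) : Adm (fun i : Fin k => (0 : ℤ) + ((i : ℕ) * k.factorial : ℕ) * t) := by
  intro p hp
  have : Fact p.Prime := ⟨hp⟩
  by_cases h : p ≤ k
  · refine ⟨1, fun i => ?_⟩
    have h1 : ((k.factorial : ℕ) : ZMod p) = 0 := by
      rw [ZMod.natCast_eq_zero_iff]
      exact Nat.dvd_factorial hp.pos h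
    push_cast
    rw [h1]
    simp
  · push Not at h
    by_contra hn
    push Not at hn
    choose f hf using hn
    have hinj : Function.Injective f := by
      intro z w hzw
      rw [← hf z, ← hf w, hzw]
    have hcard := Fintype.card_le_of_injective f hinj
    rw [ZMod.card, Fintype.card_fin] at hcard
    omega

/-- The sizes for the progression. -/
theorem f6_size (k : ℕ) (hk : 1 ≤ k) (L : ℝ) (hL : Real.exp (200 * k) ≤ L) (i : ℕ) (hi : i < k) :
    ((i * k.factorial : ℕ) : ℝ) ≤ Real.exp (L ^ (1 / 50 : ℝ)) := by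
  have hkr : (1 : ℝ) ≤ k := by exact_mod_cast hk
  have hL0 : 0 < L := lt_of_lt_of_le (Real.exp_pos _) hL
  have h1 : Real.exp (4 * k) ≤ L ^ (1 / 50 : ℝ) := by
    calc Real.exp (4 * k) = (Real.exp (200 * k)) ^ (1 / 50 : ℝ) := by
          rw [← Real.exp_mul]
          congr 1
          ring
      _ ≤ L ^ (1 / 50 : ℝ) := Real.rpow_le_rpow (Real.exp_pos _).le hL (by norm_num)
  have h2 : (k : ℝ) ^ 2 ≤ Real.exp (4 * k) := by
    have e1 : (k : ℝ) ≤ Real.exp (2 * k) := by
      have := Real.add_one_le_exp (2 * (k : ℝ))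
      linarith
    have e2 : Real.exp (4 * k) = Real.exp (2 * k) * Real.exp (2 * k) := by
      rw [← Real.exp_add]
      congr 1
      ring
    rw [e2, sq]
    exact mul_le_mul e1 e1 (by linarith) (Real.exp_pos _).le
  have h3 : ((i * k.factorial : ℕ) : ℝ) ≤ (k : ℝ) ^ (k + 1) := by
    have e1 : i * k.factorial ≤ k ^ (k + 1) := by
      rw [pow_succ']
      exact Nat.mul_le_mul hi.le (Nat.factorial_le_pow k)
    exact_mod_cast e1
  have h4 : (k : ℝ) ^ (k + 1) = Real.exp ((k + 1 : ℕ) * Real.log k) := by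
    rw [← Real.log_pow, Real.exp_log (by positivity)]
  rw [h4] at h3
  refine h3.trans (Real.exp_le_exp.2 ?_)
  have h5 : Real.log k ≤ k := by
    have := Real.log_le_sub_one_of_pos (show (0 : ℝ) < k by linarith)
    linarith
  have h6 : 0 ≤ Real.log k := Real.log_nonneg hkr
  have h7 : ((k + 1 : ℕ) : ℝ) * Real.log k ≤ 2 * (k : ℝ) ^ 2 := by
    push_cast
    nlinarith
  have h8 : 2 * (k : ℝ) ^ 2 ≤ Real.exp (4 * k) := by
    have e1 : 2 * (k : ℝ) ≤ Real.exp (2 * k) := by
      have := Real.add_one_le_exp (2 * (k : ℝ))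
      linarith
    have e2 : Real.exp (4 * k) = Real.exp (2 * k) * Real.exp (2 * k) := by
      rw [← Real.exp_add]
      congr 1
      ring
    rw [e2]
    nlinarith
  linarith

/-- **Progressions of primes** below `exp (exp (exp (C k)))`. -/
theorem F6_AP (κ : ℝ) (hκ : 0 < κ) (x0 : ℕ) (h : ThF κ x0) : ∃ C : ℝ, ∀ k : ℕ, 1 ≤ k → ∃ a d : ℕ, 0 < d ∧
    (∀ i < k, (a + i * d).Prime) ∧ ((a + (k - 1) * d : ℕ) : ℝ) ≤ Real.exp (Real.exp (Real.exp (C * k))) := by
  classical
  obtain ⟨D, hD⟩ : ∃ D : ℝ, D = 1 / κ + x0 + 10 := ⟨_, rfl⟩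
  have hκ' : 0 < 1 / κ := by positivity
  have hx0r : (0 : ℝ) ≤ x0 := Nat.cast_nonneg _
  refine ⟨D + 1, fun k hk => ?_⟩
  have hkr : (1 : ℝ) ≤ k := by exact_mod_cast hk
  obtain ⟨A, hA⟩ : ∃ A : ℝ, A = D * k := ⟨_, rfl⟩
  have hDA : D ≤ A := by rw [hA]; nlinarith
  have hA10 : 10 * (k : ℝ) ≤ A := by rw [hA]; nlinarith
  obtain ⟨x, hx⟩ : ∃ x : ℕ, x = ⌈Real.exp (Real.exp (Real.exp A))⌉₊ := ⟨_, rfl⟩
  have hx1 : Real.exp (Real.exp (Real.exp A)) ≤ x := by rw [hx]; exact Nat.le_ceil _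
  have hx2 : (x : ℝ) ≤ Real.exp (Real.exp (Real.exp A)) + 1 := by
    rw [hx]
    exact (Nat.ceil_lt_add_one (Real.exp_pos _).le).le
  have hxr : (0 : ℝ) < x := lt_of_lt_of_le (Real.exp_pos _) hx1
  have l1 : Real.exp (Real.exp A) ≤ Real.log x := by
    have := Real.log_le_log (Real.exp_pos _) hx1
    rwa [Real.log_exp] at this
  have l2 : Real.exp A ≤ Real.log (Real.log x) := by
    have := Real.log_le_log (Real.exp_pos _) l1
    rwa [Real.log_exp] at this
  have l3 : A ≤ Real.log (Real.log (Real.log x)) := by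
    have := Real.log_le_log (Real.exp_pos _) l2
    rwa [Real.log_exp] at this
  have g1 : A ≤ Real.exp A := by
    have := Real.add_one_le_exp A
    linarith
  have g2 : Real.exp A ≤ Real.exp (Real.exp A) := by
    have := Real.add_one_le_exp (Real.exp A)
    linarith
  have g3 : Real.exp (Real.exp A) ≤ Real.exp (Real.exp (Real.exp A)) := by
    have := Real.add_one_le_exp (Real.exp (Real.exp A))
    linarith
  have hxx0 : x0 ≤ x := by
    have h1 : (x0 : ℝ) ≤ x := by linarith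
    exact_mod_cast h1
  have hkκ : (k : ℝ) ≤ κ * Real.log (Real.log (Real.log x)) := by
    have h1 : 1 / κ * k ≤ A := by rw [hA, hD]; nlinarith
    have h2 : (k : ℝ) = κ * (1 / κ * k) := by field_simp
    rw [h2]
    exact mul_le_mul_of_nonneg_left (h1.trans l3) hκ.le
  -- the family
  obtain ⟨c, hc⟩ : ∃ c : Fin k → ℤ, c = fun i : Fin k => (((i : ℕ) * k.factorial : ℕ) : ℤ) := ⟨_, rfl⟩
  have hLk : Real.exp (200 * k) ≤ Real.log x := by
    refine le_trans (Real.exp_le_exp.2 ?_) l1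
    have e1 : Real.exp A = Real.exp (A - 8) * Real.exp 8 := by
      rw [← Real.exp_add]
      congr 1
      ring
    have e2 := Real.add_one_le_exp (A - 8)
    have e3 : (200 : ℝ) ≤ Real.exp 8 := by
      have e4 : Real.exp 8 = Real.exp 1 ^ 8 := by
        rw [← Real.exp_nat_mul]
        norm_num
      rw [e4]
      have e5 : (2 : ℝ) ≤ Real.exp 1 := by
        have := Real.exp_one_gt_d9
        linarith
      calc (200 : ℝ) ≤ 2 ^ 8 := by norm_num
        _ ≤ Real.exp 1 ^ 8 := by gcongr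
    rw [e1]
    have e6 : (k : ℝ) ≤ Real.exp (A - 8) := by linarith
    nlinarith [Real.exp_pos (A - 8)]
  have hF : FAM x k (fun _ => 0) c := by
    refine ⟨?_, ?_, ?_⟩
    · intro i j hij
      rw [hc] at hij
      simp only [Nat.cast_inj] at hij
      exact Fin.ext (Nat.eq_of_mul_eq_mul_right (Nat.factorial_pos k) hij)
    · intro i
      rw [hc]
      have h1 := f6_size k hk (Real.log x) hLk i i.2
      have h2 : (0 : ℝ) ≤ (((i : ℕ) * k.factorial : ℕ) : ℝ) := Nat.cast_nonneg _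
      simp only
      rw [show (((((i : ℕ) * k.factorial : ℕ) : ℤ)) : ℝ) = (((i : ℕ) * k.factorial : ℕ) : ℝ) by push_cast; ring, abs_of_nonneg h2]
      exact h1
    · intro i
      simp only [Int.cast_zero, abs_zero]
      positivity
  have hU := h x hxx0 k hk hkκ _ c hF
  -- a good t
  have hex : ∃ t : ℤ, 1 ≤ t ∧ t ≤ x ∧ (x : ℝ) * Real.exp (-((Real.log x) ^ (1 / 4 : ℝ))) ≤ (NP x (fun i => (0 : ℤ) + c i * t) : ℝ) := by
    by_contra hn
    push Not at hn
    have h1 : (Icc (1 : ℤ) x) ⊆ (Icc (0 : ℤ) x).filter fun t => (∀ i, 0 ≤ (fun _ : Fin k => (0 : ℤ)) i + c i * t) ∧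
        Adm (fun i => (fun _ : Fin k => (0 : ℤ)) i + c i * t) ∧
        (NP x (fun i => (fun _ : Fin k => (0 : ℤ)) i + c i * t) : ℝ) < x * Real.exp (-((Real.log x) ^ (1 / 4 : ℝ))) := by
      intro t ht
      rw [mem_Icc] at ht
      rw [mem_filter, mem_Icc]
      refine ⟨⟨by omega, ht.2⟩, ?_, ?_, hn t ht.1 ht.2⟩
      · intro i
        rw [hc]
        simp only
        have h2 : (0 : ℤ) ≤ (((i : ℕ) * k.factorial : ℕ) : ℤ) := Int.natCast_nonneg _
        have h3 : (0 : ℤ) ≤ t := by omega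
        have := mul_nonneg h2 h3
        linarith
      · rw [hc]
        exact f6_adm k t
    have h2 := card_le_card h1
    rw [Int.card_Icc] at h2
    have h3 : (x : ℝ) ≤ x * Real.exp (-((Real.log x) ^ (1 / 7 : ℝ))) := by
      refine le_trans ?_ hU
      have h4 : ((x : ℤ) + 1 - 1).toNat = x := by omega
      rw [h4] at h2
      have h2' := (Nat.cast_le (α := ℝ)).2 h2
      refine le_trans h2' (le_of_eq ?_)
      congr
    have hl : 0 < Real.log x := lt_of_lt_of_le (Real.exp_pos _) l1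
    have h5 : Real.exp (-((Real.log x) ^ (1 / 7 : ℝ))) < 1 := by
      rw [Real.exp_lt_one_iff]
      have : 0 < (Real.log x) ^ (1 / 7 : ℝ) := Real.rpow_pos_of_pos hl _
      linarith
    nlinarith
  obtain ⟨t, ht1, htx, ht⟩ := hex
  have hpos : 0 < NP x (fun i => (0 : ℤ) + c i * t) := by
    have h1 : (0 : ℝ) < (NP x (fun i => (0 : ℤ) + c i * t) : ℝ) := lt_of_lt_of_le (by positivity) ht
    exact_mod_cast h1
  unfold NP at hpos
  rw [card_pos] at hpos
  obtain ⟨n, hn⟩ := hpos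
  rw [mem_filter, mem_Icc] at hn
  obtain ⟨⟨hn1, hnx⟩, hnp⟩ := hn
  obtain ⟨m, rfl⟩ : ∃ m : ℕ, n = m := ⟨n.toNat, by omega⟩
  obtain ⟨u, rfl⟩ : ∃ u : ℕ, t = u := ⟨t.toNat, by omega⟩
  have hval : ∀ i : Fin k, ((m : ℤ) + (0 + c i * (u : ℤ))).toNat = m + i * (k.factorial * u) := by
    intro i
    rw [hc]
    simp only
    have : ((m : ℤ) + (0 + (((i : ℕ) * k.factorial : ℕ) : ℤ) * (u : ℤ))) = ((m + i * (k.factorial * u) : ℕ) : ℤ) := by
      push_cast
      ring
    rw [this, Int.toNat_natCast]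
  refine ⟨m, k.factorial * u, Nat.mul_pos (Nat.factorial_pos k) (by omega), ?_, ?_⟩
  · intro i hi
    have := hnp ⟨i, hi⟩
    rw [hval ⟨i, hi⟩] at this
    exact this
  · have s1 : (m : ℝ) ≤ x := by exact_mod_cast hnx
    have s2 : (u : ℝ) ≤ x := by exact_mod_cast htx
    have s3 : (((k - 1) * k.factorial : ℕ) : ℝ) ≤ Real.exp ((Real.log x) ^ (1 / 50 : ℝ)) :=
      f6_size k hk (Real.log x) hLk (k - 1) (by omega)
    have hl1 : 1 ≤ Real.log x := by linarith
    have s4 : Real.exp ((Real.log x) ^ (1 / 50 : ℝ)) ≤ x := by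
      calc Real.exp ((Real.log x) ^ (1 / 50 : ℝ)) ≤ Real.exp ((Real.log x) ^ (1 : ℝ)) :=
            Real.exp_le_exp.2 (Real.rpow_le_rpow_of_exponent_le hl1 (by norm_num))
        _ = x := by rw [Real.rpow_one, Real.exp_log hxr]
    have s5 : ((m + (k - 1) * (k.factorial * u) : ℕ) : ℝ) ≤ x + x * x := by
      have e1 : ((m + (k - 1) * (k.factorial * u) : ℕ) : ℝ) = m + (((k - 1) * k.factorial : ℕ) : ℝ) * u := by
        push_cast
        ring
      rw [e1]
      have e2 : (((k - 1) * k.factorial : ℕ) : ℝ) * u ≤ x * x :=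
        mul_le_mul (s3.trans s4) s2 (Nat.cast_nonneg _) hxr.le
      linarith
    refine s5.trans ?_
    obtain ⟨y, hy⟩ : ∃ y, y = Real.exp (Real.exp A) := ⟨_, rfl⟩
    rw [← hy] at hx1 hx2
    have hy1 : 10 ≤ y := by rw [hy]; linarith
    have hey : 10 ≤ Real.exp y := by
      have := Real.add_one_le_exp y
      linarith
    have s6 : (x : ℝ) + x * x ≤ Real.exp (3 * y) := by
      have e1 : Real.exp (3 * y) = Real.exp y * Real.exp y * Real.exp y := by
        rw [← Real.exp_add, ← Real.exp_add]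
        congr 1
        ring
      rw [e1]
      nlinarith [mul_le_mul hey hey (by norm_num) (by linarith), mul_pos (Real.exp_pos y) (Real.exp_pos y)]
    refine s6.trans (Real.exp_le_exp.2 ?_)
    have s7 : 3 * y ≤ Real.exp (Real.exp A + 2) := by
      rw [Real.exp_add, ← hy]
      have e1 : (3 : ℝ) ≤ Real.exp 2 := by
        have := Real.add_one_le_exp (2 : ℝ)
        linarith
      nlinarith
    refine s7.trans (Real.exp_le_exp.2 ?_)
    have s8 : Real.exp A + 2 ≤ Real.exp (A + 1) := by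
      rw [Real.exp_add]
      have e1 : (2 : ℝ) ≤ Real.exp 1 := by
        have := Real.exp_one_gt_d9
        linarith
      nlinarith [Real.exp_pos A]
    refine s8.trans (Real.exp_le_exp.2 ?_)
    rw [hA]
    nlinarith

end Pool.Agent.H16U
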