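import Pool.Agent.Lib.H16U.Defs

/-!
# H16U: the regime `RG B k X`, absorbing constants
-/

namespace Pool.Agent.H16U

open Real

theorem RG.mono {B B' k X : ℕ} (h : RG B' k X) (hB : B ≤ B') : RG B k X := by
  unfold RG at h ⊢
  refine le_trans ?_ h
  exact pow_le_pow_right₀ (by norm_num) (Nat.pow_le_pow_right (by norm_num) (Nat.mul_le_mul_right k hB))

theorem RG.monoX {B k X X' : ℕ} (h : RG B k X) (hX : X ≤ X') (hX0 : 1 ≤ X) : RG B k X' := by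
  unfold RG at h ⊢
  refine h.trans (Real.log_le_log (by exact_mod_cast hX0) (by exact_mod_cast hX))

theorem RG.monok {B k k' X : ℕ} (h : RG B k' X) (hk : k ≤ k') : RG B k X := by
  unfold RG at h ⊢
  refine le_trans ?_ h
  exact pow_le_pow_right₀ (by norm_num) (Nat.pow_le_pow_right (by norm_num) (Nat.mul_le_mul_left B hk))

theorem RG.two_le {B k X : ℕ} (h : RG B k X) : 2 ≤ Real.log X := by
  unfold RG at h
  refine le_trans ?_ h
  calc (2 : ℝ) = 2 ^ 1 := by norm_num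
    _ ≤ 2 ^ (2 ^ (B * k)) := pow_le_pow_right₀ (by norm_num) Nat.one_le_two_pow

theorem RG.X_pos {B k X : ℕ} (h : RG B k X) : 0 < X := by
  rcases Nat.eq_zero_or_pos X with h0 | h0
  · have := h.two_le
    rw [h0] at this
    norm_num at this
  · exact h0

/-- `2^(B k) ≤ 2 loglog X`. -/
theorem RG.loglog {B k X : ℕ} (h : RG B k X) : (2 : ℝ) ^ (B * k) ≤ 2 * Real.log (Real.log X) := by
  have h0 := h.two_le
  unfold RG at h
  have h1 : Real.log ((2 : ℝ) ^ (2 ^ (B * k))) ≤ Real.log (Real.log X) := Real.log_le_log (by positivity) h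
  rw [Real.log_pow] at h1
  push_cast at h1
  have h2 : (1 : ℝ) / 2 ≤ Real.log 2 := by
    have := Real.log_two_gt_d9
    linarith
  have h3 : (0 : ℝ) ≤ 2 ^ (B * k) := by positivity
  nlinarith

theorem mk_pos (B k : ℕ) : 0 < mk B k := by
  unfold mk
  positivity

theorem mk_one_le (B k : ℕ) : 1 ≤ mk B k := by
  unfold mk
  exact one_le_pow₀ (by norm_num)

theorem mk_mono {B B' : ℕ} (h : B ≤ B') (k : ℕ) : mk B k ≤ mk B' k := by
  unfold mk
  exact pow_le_pow_right₀ (by norm_num) (Nat.mul_le_mul_right _ h)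

/-- `n ≤ 2^n` in the reals. -/
theorem nat_le_two_pow (n : ℕ) : (n : ℝ) ≤ 2 ^ n := by
  exact_mod_cast (Nat.lt_two_pow_self (n := n)).le

/-- In the regime with `B` large, `log X` is large. -/
theorem RG.large (C : ℝ) : ∃ B : ℕ, ∀ k X : ℕ, 1 ≤ k → RG B k X → C ≤ Real.log X := by
  refine ⟨⌈C⌉₊, fun k X hk h => ?_⟩
  unfold RG at h
  refine le_trans ?_ h
  calc C ≤ (⌈C⌉₊ : ℝ) := Nat.le_ceil C
    _ ≤ ((2 ^ ⌈C⌉₊ : ℕ) : ℝ) := by exact_mod_cast (Nat.lt_two_pow_self (n := ⌈C⌉₊)).le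
    _ ≤ (2 : ℝ) ^ (2 ^ ⌈C⌉₊) := by
        have := nat_le_two_pow (2 ^ ⌈C⌉₊)
        exact this
    _ ≤ (2 : ℝ) ^ (2 ^ (⌈C⌉₊ * k)) :=
        pow_le_pow_right₀ (by norm_num) (Nat.pow_le_pow_right (by norm_num) (Nat.le_mul_of_pos_right _ hk))

/-- The constants `2^(2^(c k))` and the loss factors are small against every power of `log X` (here the power `1/1000`). -/
theorem RG.small (c : ℕ) : ∃ B : ℕ, ∀ k X : ℕ, 1 ≤ k → RG B k X →
    (2 : ℝ) ^ (2 ^ (c * k)) ≤ (Real.log X) ^ (1 / 1000 : ℝ) := by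
  refine ⟨c + 10, fun k X hk h => ?_⟩
  have h2 := h.two_le
  unfold RG at h
  have h3 : ((2 : ℝ) ^ (2 ^ (c * k))) ^ (1000 : ℕ) ≤ Real.log X := by
    refine le_trans ?_ h
    rw [← pow_mul]
    refine pow_le_pow_right₀ (by norm_num) ?_
    calc 2 ^ (c * k) * 1000 ≤ 2 ^ (c * k) * 2 ^ (10 * k) := by
          refine Nat.mul_le_mul_left _ ?_
          calc 1000 ≤ 2 ^ (10 * 1) := by norm_num
            _ ≤ 2 ^ (10 * k) := Nat.pow_le_pow_right (by norm_num) (by omega)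
      _ = 2 ^ ((c + 10) * k) := by rw [← pow_add]; congr 1; ring
  have h4 : (2 : ℝ) ^ (2 ^ (c * k)) = (((2 : ℝ) ^ (2 ^ (c * k))) ^ (1000 : ℕ)) ^ (1 / 1000 : ℝ) := by
    have h5 : (0 : ℝ) ≤ 2 ^ (2 ^ (c * k)) := by positivity
    generalize (2 : ℝ) ^ (2 ^ (c * k)) = y at h5 ⊢
    rw [← Real.rpow_natCast, ← Real.rpow_mul h5]
    norm_num
  rw [h4]
  exact Real.rpow_le_rpow (by positivity) h3 (by norm_num)

/-- `y ≤ exp y`, `log y ≤ y`: for `L ≥ 1`, `log L ≤ 1000 L^(1/1000)`. -/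
theorem log_le_rpow {L : ℝ} (hL : 1 ≤ L) : Real.log L ≤ 1000 * L ^ (1 / 1000 : ℝ) := by
  have h := Real.log_le_rpow_div (by linarith : (0:ℝ) ≤ L) (by norm_num : (0:ℝ) < 1 / 1000)
  rw [show L ^ (1 / 1000 : ℝ) / (1 / 1000) = 1000 * L ^ (1 / 1000 : ℝ) by ring] at h
  exact h

/-- **Absorbing**: powers of `log X` with exponent `2^(2^(c k))` cost only a change of `B`. -/
theorem RG.absorb (B0 c : ℕ) : ∃ B : ℕ, B0 ≤ B ∧ ∀ k X : ℕ, 1 ≤ k → RG B k X → ∀ s : ℝ, (Real.log X) ^ (1 / 7 : ℝ) ≤ s →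
    (Real.log X) ^ (2 ^ (2 ^ (c * k))) * Real.exp (-(s / mk B0 k)) ≤ Real.exp (-(s / mk B k)) := by
  obtain ⟨B1, hB1⟩ := RG.small (c + B0 + 20)
  refine ⟨B1 + B0 + 1, by omega, fun k X hk h s hs => ?_⟩
  have h2 := h.two_le
  have hs1 := hB1 k X hk (h.mono (by omega))
  obtain ⟨L, hL⟩ : ∃ L, L = Real.log X := ⟨_, rfl⟩
  rw [← hL] at h2 hs hs1 ⊢
  obtain ⟨z, hz⟩ : ∃ z, z = L ^ (1 / 1000 : ℝ) := ⟨_, rfl⟩
  rw [← hz] at hs1
  have hL0 : 0 < L := by linarith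
  have hlog := log_le_rpow (L := L) (by linarith)
  rw [← hz] at hlog
  have hz7 : z ^ (142 : ℕ) ≤ L ^ (1 / 7 : ℝ) := by
    rw [hz, ← Real.rpow_natCast, ← Real.rpow_mul hL0.le]
    exact Real.rpow_le_rpow_of_exponent_le (by linarith) (by norm_num)
  have e1 : 2 ^ (c * k) + (B0 * 2 ^ k + 11) ≤ 2 ^ ((c + B0 + 20) * k) := by
    have a1 : 2 ^ (c * k) ≤ 2 ^ ((c + B0 + 19) * k) := Nat.pow_le_pow_right (by norm_num) (Nat.mul_le_mul_right k (by omega))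
    have a2 : B0 * 2 ^ k + 11 ≤ 2 ^ ((c + B0 + 19) * k) := by
      have b1 : B0 ≤ 2 ^ B0 := (Nat.lt_two_pow_self (n := B0)).le
      have b2 : 1 ≤ 2 ^ k := Nat.one_le_two_pow
      have b3 : B0 * 2 ^ k + 11 ≤ 2 ^ B0 * 2 ^ k * 2 ^ 4 := by
        have b4 : B0 * 2 ^ k ≤ 2 ^ B0 * 2 ^ k := Nat.mul_le_mul_right _ b1
        have b5 : 1 ≤ 2 ^ B0 * 2 ^ k := Nat.one_le_iff_ne_zero.mpr (by positivity)
        omega
      refine b3.trans ?_
      rw [← pow_add, ← pow_add]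
      refine Nat.pow_le_pow_right (by norm_num) ?_
      nlinarith
    have a3 : 2 ^ ((c + B0 + 20) * k) = 2 ^ ((c + B0 + 19) * k) * 2 ^ k := by rw [← pow_add]; congr 1; ring
    have a4 : 2 ≤ 2 ^ k := by
      calc 2 = 2 ^ 1 := by norm_num
        _ ≤ 2 ^ k := Nat.pow_le_pow_right (by norm_num) hk
    rw [a3]
    have a5 : 2 ^ ((c + B0 + 19) * k) * 2 ≤ 2 ^ ((c + B0 + 19) * k) * 2 ^ k := Nat.mul_le_mul_left _ a4
    omega
  have h5 : (2 : ℝ) ^ (2 ^ (c * k)) * (2 ^ (B0 * 2 ^ k) * 2 ^ 11) ≤ z := by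
    rw [← pow_add, ← pow_add]
    exact (pow_le_pow_right₀ (by norm_num) e1).trans hs1
  have hz1 : 1 ≤ z := le_trans (by
    calc (1 : ℝ) = 1 * (1 * 1) := by norm_num
      _ ≤ (2 : ℝ) ^ (2 ^ (c * k)) * (2 ^ (B0 * 2 ^ k) * 2 ^ 11) := by
        gcongr
        · exact one_le_pow₀ (by norm_num)
        · exact one_le_pow₀ (by norm_num)
        · exact one_le_pow₀ (by norm_num)) h5
  have hmk2 : 2 * mk B0 k ≤ mk (B1 + B0 + 1) k := by
    unfold mk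
    rw [← pow_succ']
    refine pow_le_pow_right₀ (by norm_num) ?_
    have : 1 ≤ 2 ^ k := Nat.one_le_two_pow
    nlinarith
  have hm0 := mk_pos B0 k
  have hs0 : 0 < s := lt_of_lt_of_le (by positivity) hs
  -- reduce to logarithms
  have hpow : L ^ (2 ^ (2 ^ (c * k))) = Real.exp (((2 ^ (2 ^ (c * k)) : ℕ) : ℝ) * Real.log L) := by
    rw [← Real.log_pow, Real.exp_log (by positivity)]
  rw [hpow, ← Real.exp_add]
  refine Real.exp_le_exp.mpr ?_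
  have hd : s / mk (B1 + B0 + 1) k ≤ s / mk B0 k / 2 := by
    rw [div_div, mul_comm]
    exact div_le_div_of_nonneg_left hs0.le (by positivity) hmk2
  have hmain : ((2 ^ (2 ^ (c * k)) : ℕ) : ℝ) * Real.log L ≤ s / mk B0 k / 2 := by
    rw [le_div_iff₀ (by norm_num), le_div_iff₀ hm0]
    push_cast
    unfold mk
    have c1 : (2 : ℝ) ^ (2 ^ (c * k)) * Real.log L * 2 * 2 ^ (B0 * 2 ^ k) ≤ z * z := by
      calc (2 : ℝ) ^ (2 ^ (c * k)) * Real.log L * 2 * 2 ^ (B0 * 2 ^ k)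
          ≤ (2 : ℝ) ^ (2 ^ (c * k)) * (1000 * z) * 2 * 2 ^ (B0 * 2 ^ k) := by gcongr
        _ = ((2 : ℝ) ^ (2 ^ (c * k)) * (2 ^ (B0 * 2 ^ k) * 2000)) * z := by ring
        _ ≤ ((2 : ℝ) ^ (2 ^ (c * k)) * (2 ^ (B0 * 2 ^ k) * 2 ^ 11)) * z := by gcongr; norm_num
        _ ≤ z * z := by gcongr
    have c2 : z * z ≤ z ^ (142 : ℕ) := by
      rw [← sq]
      exact pow_le_pow_right₀ hz1 (by norm_num)
    linarith
  linarith

/-- The loss factors are small against `(log X)^(1/1000)`. -/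
theorem RG.mk_small (B0 : ℕ) : ∃ B : ℕ, ∀ k X : ℕ, 1 ≤ k → RG B k X → mk B0 k ≤ (Real.log X) ^ (1 / 1000 : ℝ) := by
  obtain ⟨B, hB⟩ := RG.small (B0 + 1)
  refine ⟨B, fun k X hk h => le_trans ?_ (hB k X hk h)⟩
  unfold mk
  refine pow_le_pow_right₀ (by norm_num) ?_
  rw [add_mul, pow_add, one_mul]
  refine Nat.mul_le_mul_right _ ?_
  calc B0 ≤ 2 ^ B0 := (Nat.lt_two_pow_self (n := B0)).le
    _ ≤ 2 ^ (B0 * k) := Nat.pow_le_pow_right (by norm_num) (Nat.le_mul_of_pos_right _ hk)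

end Pool.Agent.H16U
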