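import Mathlib
import Pool.Agent.Lib.Helper57.Count

/-!
# H16U, module S: lower bound for the product of the local densities
-/

open Finset

namespace Pool.Agent.H16U

open Pool.Agent.Lib.Helper57 (nu nu_le_card)

theorem S10_nu_k {k : ℕ} (a : Fin k → ℕ) (p : ℕ) : nu (univ.image a) p ≤ k := by
  refine (nu_le_card _ _).trans (card_image_le.trans ?_)
  rw [card_univ, Fintype.card_fin]

theorem S10_nu_p {k : ℕ} (a : Fin k → ℕ) {p : ℕ} (hp : p.Prime) (h : ∃ z : ZMod p, ∀ i, (a i : ZMod p) ≠ z) :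
    nu (univ.image a) p + 1 ≤ p := by
  obtain ⟨z, hz⟩ := h
  have : NeZero p := ⟨hp.ne_zero⟩
  have h1 : ((univ.image a).image fun b => b % p) ⊆ (range p).erase z.val := by
    intro y hy
    rw [mem_image] at hy
    obtain ⟨b, hb, rfl⟩ := hy
    rw [mem_image] at hb
    obtain ⟨i, _, rfl⟩ := hb
    rw [mem_erase, mem_range]
    refine ⟨fun h2 => hz i ?_, Nat.mod_lt _ hp.pos⟩
    rw [← ZMod.natCast_mod (a i) p, h2, ZMod.natCast_zmod_val]
  have h2 := card_le_card h1
  rw [card_erase_of_mem (mem_range.2 (ZMod.val_lt z)), card_range] at h2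
  have h3 := hp.pos
  unfold nu
  omega

theorem S10_exp {y : ℝ} (h0 : 0 ≤ y) (h1 : y ≤ 1 / 2) : Real.exp (-(2 * y)) ≤ 1 - y := by
  have h2 := Real.add_one_le_exp (2 * y)
  rw [Real.exp_neg]
  calc (Real.exp (2 * y))⁻¹ ≤ (2 * y + 1)⁻¹ := inv_anti₀ (by linarith) h2
    _ ≤ 1 - y := by
        rw [inv_le_iff_one_le_mul₀ (by linarith)]
        nlinarith

theorem S10_prod {P : Finset ℕ} (hP : ∀ p ∈ P, p.Prime) {k : ℕ} (hk : 1 ≤ k) (a : Fin k → ℕ)
    (hadm : ∀ p : ℕ, p.Prime → ∃ z : ZMod p, ∀ i, (a i : ZMod p) ≠ z) {M : ℝ} (hM : ∑ p ∈ P, 1 / (p : ℝ) ≤ M) :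
    Real.exp (-(2 * k * M + 2 * k * Real.log (2 * k))) ≤ ∏ p ∈ P, (1 - (nu (univ.image a) p : ℝ) / p) := by
  have hk0 : (1 : ℝ) ≤ k := by exact_mod_cast hk
  have hpt : ∀ p ∈ P, Real.exp (-(2 * k * (1 / (p : ℝ)))) * (if p ≤ 2 * k then 1 / (2 * (k : ℝ)) else 1) ≤
      1 - (nu (univ.image a) p : ℝ) / p := by
    intro p hp
    have hpp := hP p hp
    have hp0 : (0 : ℝ) < p := by exact_mod_cast hpp.pos
    split_ifs with h
    · have h1 : (nu (univ.image a) p : ℝ) + 1 ≤ p := by exact_mod_cast S10_nu_p a hpp (hadm p hpp)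
      have h2 : (p : ℝ) ≤ 2 * k := by exact_mod_cast h
      have h3 : Real.exp (-(2 * k * (1 / (p : ℝ)))) ≤ 1 := by
        rw [Real.exp_le_one_iff]
        have : 0 ≤ 2 * (k : ℝ) * (1 / (p : ℝ)) := by positivity
        linarith
      calc Real.exp (-(2 * k * (1 / (p : ℝ)))) * (1 / (2 * (k : ℝ))) ≤ 1 * (1 / (2 * (k : ℝ))) :=
            mul_le_mul_of_nonneg_right h3 (by positivity)
        _ = 1 / (2 * (k : ℝ)) := one_mul _
        _ ≤ 1 / (p : ℝ) := one_div_le_one_div_of_le hp0 h2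
        _ ≤ 1 - (nu (univ.image a) p : ℝ) / p := by
            rw [le_sub_iff_add_le, ← add_div, div_le_one hp0]
            linarith
    · have h1 : (nu (univ.image a) p : ℝ) ≤ k := by exact_mod_cast S10_nu_k a p
      have h2 : 2 * (k : ℝ) < p := by exact_mod_cast (by omega : 2 * k < p)
      have h3 : (k : ℝ) / p ≤ 1 / 2 := by
        rw [div_le_div_iff₀ hp0 (by norm_num)]
        linarith
      have h4 := S10_exp (y := (k : ℝ) / p) (by positivity) h3
      rw [mul_one]
      calc Real.exp (-(2 * k * (1 / (p : ℝ)))) = Real.exp (-(2 * ((k : ℝ) / p))) := by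
            congr 1
            ring
        _ ≤ 1 - (k : ℝ) / p := h4
        _ ≤ 1 - (nu (univ.image a) p : ℝ) / p := by
            have : (nu (univ.image a) p : ℝ) / p ≤ (k : ℝ) / p := div_le_div_of_nonneg_right h1 hp0.le
            linarith
  have hnn : ∀ p ∈ P, 0 ≤ Real.exp (-(2 * k * (1 / (p : ℝ)))) * (if p ≤ 2 * k then 1 / (2 * (k : ℝ)) else 1) := by
    intro p _
    refine mul_nonneg (Real.exp_pos _).le ?_
    split_ifs
    · positivity
    · norm_num
  refine le_trans ?_ (prod_le_prod hnn hpt)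
  rw [prod_mul_distrib, ← Real.exp_sum, sum_neg_distrib, ← mul_sum, ← prod_filter, prod_const, neg_add, Real.exp_add]
  have hsmall : Real.exp (-(2 * k * Real.log (2 * k))) ≤ (1 / (2 * (k : ℝ))) ^ (P.filter fun p => p ≤ 2 * k).card := by
    have h1 : (P.filter fun p => p ≤ 2 * k).card ≤ 2 * k := by
      calc (P.filter fun p => p ≤ 2 * k).card ≤ (Icc 1 (2 * k)).card := by
            refine card_le_card fun p hp => ?_
            rw [mem_filter] at hp
            rw [mem_Icc]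
            exact ⟨(hP p hp.1).one_le, hp.2⟩
        _ = 2 * k := by rw [Nat.card_Icc]; omega
    have h2 : (1 / (2 * (k : ℝ))) ^ (2 * k) ≤ (1 / (2 * (k : ℝ))) ^ (P.filter fun p => p ≤ 2 * k).card := by
      refine pow_le_pow_of_le_one (by positivity) ?_ h1
      rw [div_le_one (by linarith)]
      linarith
    refine le_trans (le_of_eq ?_) h2
    rw [one_div, inv_pow, ← Real.exp_log (by positivity : (0:ℝ) < (2 * (k : ℝ)) ^ (2 * k)), ← Real.exp_neg, Real.log_pow]
    push_cast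
    ring_nf
  refine mul_le_mul ?_ hsmall (Real.exp_pos _).le (Real.exp_pos _).le
  refine Real.exp_le_exp.2 (neg_le_neg ?_)
  exact mul_le_mul_of_nonneg_left hM (by positivity)

end Pool.Agent.H16U
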