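import Mathlib
import Pool.Agent.Lib.H16X.M1
import Pool.Agent.Lib.H16U.Defs

/-!
# H16U, module S: Mertens bounds for `cS` and the sum of `1/p`
-/

open Finset

namespace Pool.Agent.H16U

open Pool.Agent.Lib.Sieve (primesUpTo mem_primesUpTo)

theorem S3_PS (X : ℕ) : PS X = primesUpTo (wS X) := by
  ext p
  unfold PS
  rw [mem_filter, mem_Icc, mem_primesUpTo]
  constructor
  · intro h
    exact ⟨h.2, h.1.2⟩
  · intro h
    exact ⟨⟨h.1.one_le, h.2⟩, h.1⟩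

theorem S3_exp {P : Finset ℕ} (hP : ∀ p ∈ P, p.Prime) :
    Real.exp (∑ p ∈ P, 1 / (p : ℝ)) ≤ ∏ p ∈ P, (1 - 1 / (p : ℝ))⁻¹ := by
  rw [Real.exp_sum]
  refine prod_le_prod (fun p _ => (Real.exp_pos _).le) fun p hp => ?_
  have h1 : (2 : ℝ) ≤ p := by exact_mod_cast (hP p hp).two_le
  have h2 : 1 / (p : ℝ) ≤ 1 / 2 := one_div_le_one_div_of_le (by norm_num) h1
  have h3 := Real.add_one_le_exp (-(1 / (p : ℝ)))
  have h4 : 0 < 1 - 1 / (p : ℝ) := by linarith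
  rw [le_inv_comm₀ (Real.exp_pos _) h4, ← Real.exp_neg]
  linarith

/-- Mertens. -/
theorem S3_main : ∃ L0 : ℝ, 1 ≤ L0 ∧ ∀ X : ℕ, L0 ≤ Real.log X →
    cS X ≤ Real.log X ∧ ∑ p ∈ PS X, 1 / (p : ℝ) ≤ Real.log (Real.log X) := by
  obtain ⟨C, hC, h⟩ := Pool.Agent.Lib.H16X.M1
  refine ⟨max 1 (C ^ 2), le_max_left _ _, fun X hX => ?_⟩
  have hL1 : 1 ≤ Real.log X := (le_max_left _ _).trans hX
  have hL2 : C ^ 2 ≤ Real.log X := (le_max_right _ _).trans hX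
  obtain ⟨L, hL⟩ : ∃ L, L = Real.log X := ⟨_, rfl⟩
  rw [← hL] at hL1 hL2 ⊢
  have hw1 : 1 ≤ L ^ (2 / 5 : ℝ) := Real.one_le_rpow hL1 (by norm_num)
  have hw2 : 2 ≤ wS X := by
    unfold wS
    rw [← hL]
    refine Nat.le_floor ?_
    have h1 : Real.exp 1 ≤ Real.exp (L ^ (2 / 5 : ℝ)) := Real.exp_le_exp.2 hw1
    have h2 := Real.exp_one_gt_d9
    push_cast
    linarith
  have hwl : Real.log (wS X) ≤ L ^ (2 / 5 : ℝ) := by
    have h1 : ((wS X : ℕ) : ℝ) ≤ Real.exp (L ^ (2 / 5 : ℝ)) := by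
      unfold wS
      rw [← hL]
      exact Nat.floor_le (Real.exp_pos _).le
    have h2 : (0 : ℝ) < wS X := by exact_mod_cast (by omega : 0 < wS X)
    calc Real.log (wS X) ≤ Real.log (Real.exp (L ^ (2 / 5 : ℝ))) := Real.log_le_log h2 h1
      _ = L ^ (2 / 5 : ℝ) := Real.log_exp _
  have hc : cS X = (Pool.Agent.Lib.H16X.VV (primesUpTo (wS X)))⁻¹ := by
    unfold cS Pool.Agent.Lib.H16X.VV
    rw [S3_PS, ← prod_inv_distrib]
  have hcL : cS X ≤ L := by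
    rw [hc]
    refine (h _ hw2).trans ?_
    have h1 : C ≤ L ^ (3 / 5 : ℝ) := by
      have h2 : C ≤ L ^ (1 / 2 : ℝ) := by
        rw [← Real.sqrt_eq_rpow]
        exact Real.le_sqrt_of_sq_le hL2
      exact h2.trans (Real.rpow_le_rpow_of_exponent_le hL1 (by norm_num))
    have hL0 : 0 < L := by linarith
    calc C * Real.log (wS X) ≤ L ^ (3 / 5 : ℝ) * L ^ (2 / 5 : ℝ) :=
          mul_le_mul h1 hwl (Real.log_nonneg (by exact_mod_cast (by omega : 1 ≤ wS X))) (by positivity)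
      _ = L := by
          rw [← Real.rpow_add hL0]
          norm_num
  refine ⟨hcL, ?_⟩
  have h3 := S3_exp (P := PS X) (fun p hp => (mem_filter.1 hp).2)
  have h4 : Real.exp (∑ p ∈ PS X, 1 / (p : ℝ)) ≤ L := h3.trans hcL
  rw [Real.le_log_iff_exp_le (by linarith)]
  exact h4

end Pool.Agent.H16U
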