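import Mathlib

/-!
# H16U, module S: inequalities for large `L`
-/

open Finset Filter

namespace Pool.Agent.H16U

theorem S8A_rpow (c : ℝ) {δ : ℝ} (hδ : 0 < δ) : ∀ᶠ L : ℝ in atTop, c ≤ L ^ δ :=
  (tendsto_rpow_atTop hδ).eventually_ge_atTop c

theorem S8A_log (c : ℝ) {δ : ℝ} (hδ : 0 < δ) : ∀ᶠ L : ℝ in atTop, c * Real.log L ≤ L ^ δ := by
  have h1 := (isLittleO_log_rpow_atTop hδ).def (c := (1 / (|c| + 1))) (by positivity)
  filter_upwards [h1, eventually_ge_atTop (1 : ℝ)] with L h hL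
  have h0 : 0 ≤ Real.log L := Real.log_nonneg hL
  have h3 : 0 ≤ L ^ δ := by positivity
  rw [Real.norm_of_nonneg h0, Real.norm_of_nonneg h3] at h
  have h4 : c * Real.log L ≤ (|c| + 1) * Real.log L := by
    refine mul_le_mul_of_nonneg_right ?_ h0
    linarith [le_abs_self c]
  have h5 : (|c| + 1) * Real.log L ≤ (|c| + 1) * (1 / (|c| + 1) * L ^ δ) :=
    mul_le_mul_of_nonneg_left h (by positivity)
  have h6 : (|c| + 1) * (1 / (|c| + 1) * L ^ δ) = L ^ δ := by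
    field_simp
  linarith

theorem S8A_exp (c n : ℕ) {δ : ℝ} (hδ : 0 < δ) : ∀ᶠ L : ℝ in atTop, (c : ℝ) * L ^ n ≤ Real.exp (L ^ δ) := by
  filter_upwards [S8A_log (n + 1) hδ, eventually_ge_atTop (1 : ℝ), eventually_ge_atTop (c : ℝ)] with L h hL hc
  have h0 : 0 < L := by linarith
  have h1 : (c : ℝ) * L ^ n ≤ L ^ (n + 1) := by
    rw [pow_succ']
    exact mul_le_mul_of_nonneg_right hc (by positivity)
  refine h1.trans ?_
  have h2 : L ^ (n + 1) = Real.exp (((n : ℝ) + 1) * Real.log L) := by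
    rw [show ((n : ℝ) + 1) = ((n + 1 : ℕ) : ℝ) by push_cast; ring, ← Real.log_pow, Real.exp_log (by positivity)]
  rw [h2]
  exact Real.exp_le_exp.2 h

/-- All inequalities which are needed. -/
theorem S8A_all : ∃ L1 : ℝ, 1 ≤ L1 ∧ ∀ L : ℝ, L1 ≤ L →
    55 * Real.log L ≤ L ^ (9 / 20 : ℝ) ∧ 4800 * L ^ 3 ≤ Real.exp (L ^ (1 / 10 : ℝ)) ∧
    2 * (L ^ (1 / 1000 : ℝ) * L ^ (1 / 10 : ℝ)) ≤ L ^ (1 / 6 : ℝ) ∧
    2 * (L ^ (1 / 1000 : ℝ) * (L ^ (1 / 5 : ℝ) + L ^ (1 / 10 : ℝ))) ≤ L ^ (1 / 3 : ℝ) ∧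
    40 * (L ^ (1 / 1000 : ℝ)) ^ 2 ≤ L ∧ 2 * L ≤ L ^ (7 / 6 : ℝ) := by
  have h1 := S8A_log 55 (δ := (9 / 20 : ℝ)) (by norm_num)
  have h2 := S8A_exp 4800 3 (δ := (1 / 10 : ℝ)) (by norm_num)
  have h3 := S8A_rpow 2 (δ := (1 / 6 - 1 / 1000 - 1 / 10 : ℝ)) (by norm_num)
  have h4 := S8A_rpow 4 (δ := (1 / 3 - 1 / 1000 - 1 / 5 : ℝ)) (by norm_num)
  have h5 := S8A_rpow 40 (δ := (1 - 2 / 1000 : ℝ)) (by norm_num)
  have h6 := S8A_rpow 2 (δ := (1 / 6 : ℝ)) (by norm_num)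
  have hall := (((((h1.and h2).and h3).and h4).and h5).and h6).and (eventually_ge_atTop (1 : ℝ))
  rw [eventually_atTop] at hall
  obtain ⟨M, hM⟩ := hall
  refine ⟨max 1 M, le_max_left _ _, fun L hL => ?_⟩
  obtain ⟨⟨⟨⟨⟨⟨g1, g2⟩, g3⟩, g4⟩, g5⟩, g6⟩, hL1⟩ := hM L ((le_max_right _ _).trans hL)
  have hL0 : 0 < L := by linarith
  refine ⟨g1, by exact_mod_cast g2, ?_, ?_, ?_, ?_⟩
  · have e : L ^ (1 / 6 : ℝ) = L ^ (1 / 6 - 1 / 1000 - 1 / 10 : ℝ) * (L ^ (1 / 1000 : ℝ) * L ^ (1 / 10 : ℝ)) := by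
      rw [← Real.rpow_add hL0, ← Real.rpow_add hL0]
      norm_num
    rw [e]
    exact mul_le_mul_of_nonneg_right g3 (by positivity)
  · have e : L ^ (1 / 3 : ℝ) = L ^ (1 / 3 - 1 / 1000 - 1 / 5 : ℝ) * (L ^ (1 / 1000 : ℝ) * L ^ (1 / 5 : ℝ)) := by
      rw [← Real.rpow_add hL0, ← Real.rpow_add hL0]
      norm_num
    have e2 : L ^ (1 / 10 : ℝ) ≤ L ^ (1 / 5 : ℝ) := Real.rpow_le_rpow_of_exponent_le hL1 (by norm_num)
    rw [e]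
    calc 2 * (L ^ (1 / 1000 : ℝ) * (L ^ (1 / 5 : ℝ) + L ^ (1 / 10 : ℝ)))
        ≤ 2 * (L ^ (1 / 1000 : ℝ) * (L ^ (1 / 5 : ℝ) + L ^ (1 / 5 : ℝ))) := by gcongr
      _ = 4 * (L ^ (1 / 1000 : ℝ) * L ^ (1 / 5 : ℝ)) := by ring
      _ ≤ _ := mul_le_mul_of_nonneg_right g4 (by positivity)
  · have e : L = L ^ (1 - 2 / 1000 : ℝ) * (L ^ (1 / 1000 : ℝ)) ^ 2 := by
      rw [sq, ← Real.rpow_add hL0, ← Real.rpow_add hL0]
      norm_num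
    calc 40 * (L ^ (1 / 1000 : ℝ)) ^ 2 ≤ L ^ (1 - 2 / 1000 : ℝ) * (L ^ (1 / 1000 : ℝ)) ^ 2 :=
          mul_le_mul_of_nonneg_right g5 (by positivity)
      _ = L := e.symm
  · have e : L ^ (7 / 6 : ℝ) = L ^ (1 / 6 : ℝ) * L := by
      nth_rewrite 3 [← Real.rpow_one L]
      rw [← Real.rpow_add hL0]
      norm_num
    rw [e]
    exact mul_le_mul_of_nonneg_right g6 hL0.le

/-- `σ^n / n! ≤ exp (-3 L^(9/20))`. -/
theorem S8A_fac {L σ : ℝ} (hL : 1 ≤ L) (h : 55 * Real.log L ≤ L ^ (9 / 20 : ℝ)) (hσ0 : 0 ≤ σ) (hσ : σ ≤ Real.log L)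
    {n : ℕ} (hn : L ^ (9 / 20 : ℝ) ≤ n) : σ ^ n / (n.factorial : ℝ) ≤ Real.exp (-(3 * L ^ (9 / 20 : ℝ))) := by
  have h0 : 0 ≤ Real.log L := Real.log_nonneg hL
  have h1 := Real.pow_div_factorial_le_exp (Real.exp 4 * σ) (by positivity) n
  rw [mul_pow] at h1
  have h2 : Real.exp 4 ^ n * (σ ^ n / (n.factorial : ℝ)) ≤ Real.exp (Real.exp 4 * σ) := by
    calc Real.exp 4 ^ n * (σ ^ n / (n.factorial : ℝ)) = Real.exp 4 ^ n * σ ^ n / (n.factorial : ℝ) := by ring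
      _ ≤ _ := h1
  have h3 : Real.exp 4 ≤ 55 := by
    have h4 := Real.exp_one_lt_d9
    have h5 : Real.exp 4 = Real.exp 1 ^ 4 := by
      rw [← Real.exp_nat_mul]
      norm_num
    rw [h5]
    calc Real.exp 1 ^ 4 ≤ 2.7182818286 ^ 4 := pow_le_pow_left₀ (Real.exp_pos _).le h4.le 4
      _ ≤ 55 := by norm_num
  have h6 : Real.exp 4 * σ ≤ L ^ (9 / 20 : ℝ) := by
    calc Real.exp 4 * σ ≤ 55 * Real.log L := mul_le_mul h3 hσ hσ0 (by norm_num)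
      _ ≤ _ := h
  have h7 : Real.exp 4 ^ n = Real.exp (4 * n) := by
    rw [← Real.exp_nat_mul]
    congr 1
    ring
  rw [h7] at h2
  have h8 : σ ^ n / (n.factorial : ℝ) = Real.exp (-(4 * n)) * (Real.exp (4 * n) * (σ ^ n / (n.factorial : ℝ))) := by
    rw [← mul_assoc, ← Real.exp_add, neg_add_cancel, Real.exp_zero, one_mul]
  rw [h8]
  calc Real.exp (-(4 * n)) * (Real.exp (4 * n) * (σ ^ n / (n.factorial : ℝ)))
      ≤ Real.exp (-(4 * n)) * Real.exp (Real.exp 4 * σ) := mul_le_mul_of_nonneg_left h2 (Real.exp_pos _).le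
    _ = Real.exp (-(4 * n) + Real.exp 4 * σ) := by rw [Real.exp_add]
    _ ≤ Real.exp (-(3 * L ^ (9 / 20 : ℝ))) := by
        refine Real.exp_le_exp.2 ?_
        linarith

end Pool.Agent.H16U
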