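import Mathlib
import Pool.Agent.Lib.Helper57.Transfer
import Pool.Agent.Lib.Helper57.Count
import Pool.Agent.Lib.H16U.Defs

/-!
# H16U, module S: pure Brun for `k` residues
-/

open Finset

namespace Pool.Agent.H16U

open Pool.Agent.Lib.Helper57 (T E V small sgn nu Bad SieveData good)

theorem S9_good {κ ι α : Type*} [DecidableEq κ] [DecidableEq ι] [DecidableEq α] (J : Finset κ) (P : κ → Finset ι)
    (Ω : Finset α) (B : α → Finset ι) (m : α) (hm : m ∈ good J P Ω B) : m ∈ Ω ∧ ∀ j ∈ J, ∀ p ∈ P j, p ∉ B m := by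
  unfold Pool.Agent.Lib.Helper57.good at hm
  exact mem_filter.1 hm

open Classical in
/-- The sieve problem. -/
noncomputable def S9_D (P : Finset ℕ) (hP : ∀ p ∈ P, p.Prime) (A : Finset ℕ) (n0 x t : ℕ) (ht : Even t) :
    SieveData Unit ℕ ℕ where
  J := {()}
  P := fun _ => P
  t := fun _ => t
  Ω := range x
  B := fun m => P.filter fun p => Bad A (n0 + 1) 1 p m
  X := x
  g := fun p => (nu A p : ℝ) / p
  ν := fun p => (nu A p : ℝ)
  X_nonneg := Nat.cast_nonneg _
  even := fun _ _ => ht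
  disj := by
    intro i _ j _ h
    exact absurd (Subsingleton.elim i j) h
  g_bd := by
    intro j _ p hp
    have h0 : (0 : ℝ) < p := by exact_mod_cast (hP p hp).pos
    refine ⟨by positivity, ?_⟩
    rw [div_le_one h0]
    have h1 : nu A p ≤ p := by
      unfold nu
      calc (A.image fun a => a % p).card ≤ (range p).card := by
            refine card_le_card fun y hy => ?_
            rw [mem_image] at hy
            obtain ⟨b, _, rfl⟩ := hy
            exact mem_range.2 (Nat.mod_lt _ (hP p hp).pos)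
        _ = p := card_range p
    exact_mod_cast h1
  ν_nonneg := fun _ _ _ _ => Nat.cast_nonneg _
  count := by
    intro S hS
    have hSP : ∀ p ∈ S, p ∈ P := by
      intro p hp
      obtain ⟨_, _, h⟩ := hS p hp
      exact h
    have h1 := Pool.Agent.Lib.Helper57.abs_cnt_bad_sub A (n0 + 1) 1 S (fun p hp => ⟨hP p (hSP p hp), by
      rw [Nat.dvd_one]
      exact (hP p (hSP p hp)).ne_one⟩) x
    have h2 : (((range x).filter fun m => S ⊆ P.filter fun p => Bad A (n0 + 1) 1 p m).card : ℝ) =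
        (Pool.Agent.Lib.Helper57.cnt (fun m => ∀ p ∈ S, Bad A (n0 + 1) 1 p m) x : ℝ) := by
      rw [Pool.Agent.Lib.Helper57.cnt_eq]
      congr 2
      refine filter_congr fun m _ => ?_
      constructor
      · intro h p hp
        exact (mem_filter.1 (h hp)).2
      · intro h p hp
        exact mem_filter.2 ⟨hSP p hp, h p hp⟩
    rw [h2]
    exact h1

/-- The number of the integers without prime factor in `P`. -/
theorem S9_brun {P : Finset ℕ} (hP : ∀ p ∈ P, p.Prime) {k : ℕ} (a : Fin k → ℕ) (n0 x t : ℕ) (ht : Even t) :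
    (x : ℝ) * (∏ p ∈ P, (1 - (nu (univ.image a) p : ℝ) / p) -
      (∑ p ∈ P, (nu (univ.image a) p : ℝ) / p) ^ t / (t.factorial : ℝ)) -
      2 * (1 + ∑ p ∈ P, (nu (univ.image a) p : ℝ)) ^ t ≤
    {n : ℕ | n0 < n ∧ n ≤ n0 + x ∧ ∀ i, ∀ p ∈ P, ¬ (p : ℤ) ∣ (n : ℤ) + a i}.ncard := by
  classical
  obtain ⟨A, hA⟩ : ∃ A, A = univ.image a := ⟨_, rfl⟩
  rw [← hA]
  have h1 := (S9_D P hP A n0 x t ht).lower
  have e1 : (S9_D P hP A n0 x t ht).N = ∑ S ∈ small P t, ∏ p ∈ S, (nu A p : ℝ) := by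
    unfold SieveData.N
    exact prod_singleton _ _
  rw [e1] at h1
  have h2 : (x : ℝ) * (T P t (fun p => (nu A p : ℝ) / p) - E P t (fun p => (nu A p : ℝ) / p)) -
      2 * ∑ S ∈ small P t, ∏ p ∈ S, (nu A p : ℝ) ≤
      (good (S9_D P hP A n0 x t ht).J (S9_D P hP A n0 x t ht).P (S9_D P hP A n0 x t ht).Ω
        (S9_D P hP A n0 x t ht).B).card := by
    refine le_trans (le_of_eq ?_) h1
    show _ = (x : ℝ) * (∏ j ∈ ({()} : Finset Unit), T P t (fun p => (nu A p : ℝ) / p) -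
      ∑ j ∈ ({()} : Finset Unit), E P t (fun p => (nu A p : ℝ) / p) *
        ∏ i ∈ ({()} : Finset Unit).erase j, T P t (fun p => (nu A p : ℝ) / p)) -
      ((({()} : Finset Unit).card : ℝ) + 1) * ∑ S ∈ small P t, ∏ p ∈ S, (nu A p : ℝ)
    rw [prod_singleton, sum_singleton, erase_singleton, prod_empty, card_singleton]
    push_cast
    ring
  have hg : ∀ p ∈ P, 0 ≤ (nu A p : ℝ) / p ∧ (nu A p : ℝ) / p ≤ 1 := (S9_D P hP A n0 x t ht).g_bd () (mem_singleton_self _)
  have h3 := Pool.Agent.Lib.Helper57.V_le_T hg ht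
  have h4 := Pool.Agent.Lib.Helper57.E_le (P := P) (f := fun p => (nu A p : ℝ) / p) (fun p hp => (hg p hp).1) t
  have h5 := Pool.Agent.Lib.Helper57.sum_small_le (P := P) (ν := fun p => (nu A p : ℝ)) (fun p _ => Nat.cast_nonneg _) t
  have h6 : V P (fun p => (nu A p : ℝ) / p) = ∏ p ∈ P, (1 - (nu A p : ℝ) / p) := rfl
  rw [h6] at h3
  have h7 : (x : ℝ) * (∏ p ∈ P, (1 - (nu A p : ℝ) / p) - (∑ p ∈ P, (nu A p : ℝ) / p) ^ t / (t.factorial : ℝ)) ≤
      (x : ℝ) * (T P t (fun p => (nu A p : ℝ) / p) - E P t (fun p => (nu A p : ℝ) / p)) :=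
    mul_le_mul_of_nonneg_left (by linarith) (Nat.cast_nonneg _)
  have h8 : ((good (S9_D P hP A n0 x t ht).J (S9_D P hP A n0 x t ht).P (S9_D P hP A n0 x t ht).Ω
        (S9_D P hP A n0 x t ht).B).card : ℝ) ≤
      {n : ℕ | n0 < n ∧ n ≤ n0 + x ∧ ∀ i, ∀ p ∈ P, ¬ (p : ℤ) ∣ (n : ℤ) + a i}.ncard := by
    rw [Nat.cast_le]
    obtain ⟨Gd, hGd⟩ : ∃ Gd, Gd = good (S9_D P hP A n0 x t ht).J (S9_D P hP A n0 x t ht).P (S9_D P hP A n0 x t ht).Ω
        (S9_D P hP A n0 x t ht).B := ⟨_, rfl⟩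
    rw [← hGd]
    have h9 : Gd.card = (Gd.image fun m => n0 + 1 + m).card := by
      rw [card_image_of_injective]
      intro m m' h
      have h' : n0 + 1 + m = n0 + 1 + m' := h
      omega
    rw [h9, ← Set.ncard_coe_finset]
    refine Set.ncard_le_ncard ?_ ?_
    · intro n hn
      rw [mem_coe, mem_image] at hn
      obtain ⟨m, hm, rfl⟩ := hn
      rw [hGd] at hm
      have hm := S9_good _ _ _ _ _ hm
      have hm1 : m < x := mem_range.1 hm.1
      refine ⟨by omega, by omega, fun i p hp hd => ?_⟩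
      apply hm.2 () (mem_singleton_self _) p hp
      refine mem_filter.2 ⟨hp, a i, ?_, ?_⟩
      · rw [hA]
        exact mem_image_of_mem _ (mem_univ i)
      · rw [one_mul]
        exact_mod_cast hd
    · refine (Set.finite_Iic (n0 + x)).subset fun n hn => ?_
      exact hn.2.1
  linarith

end Pool.Agent.H16U
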