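import Mathlib
import Pool.Agent.Lib.H16U.Reg
import Pool.Agent.Lib.H16U.S3
import Pool.Agent.Lib.H16U.S8A
import Pool.Agent.Lib.H16U.S9
import Pool.Agent.Lib.H16U.S10

/-!
# H16U, module S: the interface `MTu` (main term)
-/

open Finset Filter

namespace Pool.Agent.H16U

open Pool.Agent.Lib.Helper57 (nu)

theorem S11_an : ∃ L2 : ℝ, 1 ≤ L2 ∧ ∀ L : ℝ, L2 ≤ L →
    55 * (L ^ (1 / 1000 : ℝ) * Real.log L) ≤ L ^ (9 / 20 : ℝ) ∧
    4 * (L ^ (1 / 1000 : ℝ) * Real.log L) + 1 ≤ L ^ (1 / 10 : ℝ) ∧ 12 * L ^ (17 / 20 : ℝ) ≤ L ∧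
    2 * L ^ (1 / 1000 : ℝ) ≤ L ^ (2 / 5 : ℝ) := by
  have h1 := S8A_log 55 (δ := (1 / 1000 : ℝ)) (by norm_num)
  have h2 := S8A_rpow 2 (δ := (1 / 10 - 2 / 1000 : ℝ)) (by norm_num)
  have h3 := S8A_rpow 12 (δ := (3 / 20 : ℝ)) (by norm_num)
  have h4 := S8A_rpow 2 (δ := (2 / 5 - 1 / 1000 : ℝ)) (by norm_num)
  have hall := (((h1.and h2).and h3).and h4).and (eventually_ge_atTop (1 : ℝ))
  rw [eventually_atTop] at hall
  obtain ⟨M, hM⟩ := hall
  refine ⟨max 1 M, le_max_left _ _, fun L hL => ?_⟩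
  obtain ⟨⟨⟨⟨g1, g2⟩, g3⟩, g4⟩, hL1⟩ := hM L ((le_max_right _ _).trans hL)
  have hL0 : 0 < L := by linarith
  obtain ⟨z, hz⟩ : ∃ z, z = L ^ (1 / 1000 : ℝ) := ⟨_, rfl⟩
  have hz1 : 1 ≤ z := by rw [hz]; exact Real.one_le_rpow hL1 (by norm_num)
  have hz2 : z * z = L ^ (2 / 1000 : ℝ) := by
    rw [hz, ← Real.rpow_add hL0]
    norm_num
  have hlog : 0 ≤ Real.log L := Real.log_nonneg hL1
  rw [← hz] at g1 ⊢
  have h5 : 55 * (z * Real.log L) ≤ z * z := by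
    calc 55 * (z * Real.log L) = z * (55 * Real.log L) := by ring
      _ ≤ z * z := mul_le_mul_of_nonneg_left g1 (by linarith)
  refine ⟨?_, ?_, ?_, ?_⟩
  · refine h5.trans ?_
    rw [hz2]
    exact Real.rpow_le_rpow_of_exponent_le hL1 (by norm_num)
  · have e : L ^ (1 / 10 : ℝ) = L ^ (1 / 10 - 2 / 1000 : ℝ) * (z * z) := by
      rw [hz2, ← Real.rpow_add hL0]
      norm_num
    rw [e]
    have h6 : 2 * (z * z) ≤ L ^ (1 / 10 - 2 / 1000 : ℝ) * (z * z) := mul_le_mul_of_nonneg_right g2 (by positivity)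
    have h7 : 0 ≤ z * Real.log L := by positivity
    nlinarith
  · have e : L = L ^ (3 / 20 : ℝ) * L ^ (17 / 20 : ℝ) := by
      rw [← Real.rpow_add hL0]
      norm_num
    calc 12 * L ^ (17 / 20 : ℝ) ≤ L ^ (3 / 20 : ℝ) * L ^ (17 / 20 : ℝ) := mul_le_mul_of_nonneg_right g3 (by positivity)
      _ = L := e.symm
  · have e : L ^ (2 / 5 : ℝ) = L ^ (2 / 5 - 1 / 1000 : ℝ) * z := by
      rw [hz, ← Real.rpow_add hL0]
      norm_num
    rw [e]
    exact mul_le_mul_of_nonneg_right g4 (by linarith)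

/-- `σ^n / n! ≤ exp (-3 L^(9/20))`. -/
theorem S11_fac {L σ M : ℝ} (h : 55 * M ≤ L ^ (9 / 20 : ℝ)) (hσ0 : 0 ≤ σ) (hσ : σ ≤ M)
    {n : ℕ} (hn : L ^ (9 / 20 : ℝ) ≤ n) : σ ^ n / (n.factorial : ℝ) ≤ Real.exp (-(3 * L ^ (9 / 20 : ℝ))) := by
  have h1 := Real.pow_div_factorial_le_exp (Real.exp 4 * σ) (by positivity) n
  rw [mul_pow] at h1
  have h2 : Real.exp 4 ^ n * (σ ^ n / (n.factorial : ℝ)) ≤ Real.exp (Real.exp 4 * σ) := by
    calc Real.exp 4 ^ n * (σ ^ n / (n.factorial : ℝ)) = Real.exp 4 ^ n * σ ^ n / (n.factorial : ℝ) := by ring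
      _ ≤ _ := h1
  have h3 : Real.exp 4 ≤ 55 := by
    have h4 := Real.exp_one_lt_d9
    have h5 : Real.exp 4 = Real.exp 1 ^ 4 := by
      rw [← Real.exp_nat_mul]
      norm_num
    rw [h5]
    calc Real.exp 1 ^ 4 ≤ 2.7182818286 ^ 4 := pow_le_pow_left₀ (Real.exp_pos _).le h4.le 4
      _ ≤ 55 := by norm_num
  have h6 : Real.exp 4 * σ ≤ L ^ (9 / 20 : ℝ) := by
    calc Real.exp 4 * σ ≤ 55 * M := mul_le_mul h3 hσ hσ0 (by norm_num)
      _ ≤ _ := h
  have h7 : Real.exp 4 ^ n = Real.exp (4 * n) := by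
    rw [← Real.exp_nat_mul]
    congr 1
    ring
  rw [h7] at h2
  have h8 : σ ^ n / (n.factorial : ℝ) = Real.exp (-(4 * n)) * (Real.exp (4 * n) * (σ ^ n / (n.factorial : ℝ))) := by
    rw [← mul_assoc, ← Real.exp_add, neg_add_cancel, Real.exp_zero, one_mul]
  rw [h8]
  calc Real.exp (-(4 * n)) * (Real.exp (4 * n) * (σ ^ n / (n.factorial : ℝ)))
      ≤ Real.exp (-(4 * n)) * Real.exp (Real.exp 4 * σ) := mul_le_mul_of_nonneg_left h2 (Real.exp_pos _).le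
    _ = Real.exp (-(4 * n) + Real.exp 4 * σ) := by rw [Real.exp_add]
    _ ≤ Real.exp (-(3 * L ^ (9 / 20 : ℝ))) := by
        refine Real.exp_le_exp.2 ?_
        linarith

/-- **The interface of module S, second part.** -/
theorem S11_MTu : ∃ B : ℕ, MTu B := by
  obtain ⟨L2, hL2, hA⟩ := S11_an
  obtain ⟨L0, hL0, hM⟩ := S3_main
  obtain ⟨B1, hB1⟩ := RG.large (max L0 L2)
  obtain ⟨B3, hB3⟩ := RG.small 1
  refine ⟨B1 + B3, 0, ?_⟩
  intro k hk X x _ hRG hx a hadm n0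
  have hlarge := hB1 k X hk (hRG.mono (by omega))
  have hLL0 : L0 ≤ Real.log X := (le_max_left _ _).trans hlarge
  have hLL2 : L2 ≤ Real.log X := (le_max_right _ _).trans hlarge
  have hsm := hB3 k X hk (hRG.mono (by omega))
  obtain ⟨-, hσ⟩ := hM X hLL0
  obtain ⟨b1, b2, b3, b4⟩ := hA _ hLL2
  have hX0 : 1 ≤ X := hRG.X_pos
  have hkz : (k : ℝ) ≤ (Real.log X) ^ (1 / 1000 : ℝ) := by
    refine le_trans ?_ hsm
    calc (k : ℝ) ≤ 2 ^ k := nat_le_two_pow k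
      _ ≤ (2 : ℝ) ^ (2 ^ (1 * k)) := by
          refine pow_le_pow_right₀ (by norm_num) ?_
          rw [one_mul]
          exact (Nat.lt_two_pow_self (n := k)).le
  have hXe : (X : ℝ) = Real.exp (Real.log X) := (Real.exp_log (by exact_mod_cast hX0)).symm
  obtain ⟨L, hL⟩ : ∃ L, L = Real.log X := ⟨_, rfl⟩
  have hwS : ((wS X : ℕ) : ℝ) ≤ Real.exp (L ^ (2 / 5 : ℝ)) := by
    unfold wS
    rw [← hL]
    exact Nat.floor_le (Real.exp_pos _).le
  rw [← hL] at hσ b1 b2 b3 b4 hkz hXe hLL2 hx ⊢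
  have hL1 : 1 ≤ L := hL2.trans hLL2
  have hlog : 0 ≤ Real.log L := Real.log_nonneg hL1
  have hk0 : (1 : ℝ) ≤ k := by exact_mod_cast hk
  obtain ⟨z, hz⟩ : ∃ z, z = L ^ (1 / 1000 : ℝ) := ⟨_, rfl⟩
  rw [← hz] at b1 b2 b4 hkz
  have hp45 : L ^ (2 / 5 : ℝ) ≤ L := by
    calc L ^ (2 / 5 : ℝ) ≤ L ^ (1 : ℝ) := Real.rpow_le_rpow_of_exponent_le hL1 (by norm_num)
      _ = L := Real.rpow_one L
  -- the truncation
  obtain ⟨t, ht⟩ : ∃ t, t = 2 * ⌈L ^ (9 / 20 : ℝ)⌉₊ := ⟨_, rfl⟩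
  have hte : Even t := by rw [ht]; exact even_two_mul _
  have h920 : 1 ≤ L ^ (9 / 20 : ℝ) := Real.one_le_rpow hL1 (by norm_num)
  have ht1 : L ^ (9 / 20 : ℝ) ≤ t := by
    have h1 := Nat.le_ceil (L ^ (9 / 20 : ℝ))
    rw [ht]
    push_cast
    linarith
  have ht2 : (t : ℝ) ≤ 4 * L ^ (9 / 20 : ℝ) := by
    have h1 := Nat.ceil_lt_add_one (by positivity : 0 ≤ L ^ (9 / 20 : ℝ))
    rw [ht]
    push_cast
    linarith
  have hPp : ∀ p ∈ PS X, p.Prime := fun p hp => (mem_filter.1 hp).2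
  have hbrun := S9_brun hPp a n0 x t hte
  obtain ⟨Vv, hV⟩ : ∃ Vv, Vv = ∏ p ∈ PS X, (1 - (nu (univ.image a) p : ℝ) / p) := ⟨_, rfl⟩
  obtain ⟨Ev, hE⟩ : ∃ Ev, Ev = (∑ p ∈ PS X, (nu (univ.image a) p : ℝ) / p) ^ t / (t.factorial : ℝ) := ⟨_, rfl⟩
  obtain ⟨W, hW⟩ : ∃ W, W = (1 + ∑ p ∈ PS X, (nu (univ.image a) p : ℝ)) ^ t := ⟨_, rfl⟩
  rw [← hV, ← hE, ← hW] at hbrun
  obtain ⟨e, he⟩ : ∃ e, e = Real.exp (-(L ^ (1 / 10 : ℝ))) := ⟨_, rfl⟩
  have he0 : 0 < e := by rw [he]; exact Real.exp_pos _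
  rw [← he] at hx ⊢
  have hexp1 : (2 : ℝ) ≤ Real.exp 1 := by
    have := Real.exp_one_gt_d9
    linarith
  -- the main term
  have hV2 : 2 * e ≤ Vv := by
    have h1 := S10_prod hPp hk a hadm hσ
    rw [← hV] at h1
    refine le_trans ?_ h1
    have h2 : Real.log (2 * k) ≤ Real.log L := by
      refine Real.log_le_log (by linarith) ?_
      linarith
    have h3 : 2 * (k : ℝ) * Real.log L + 2 * k * Real.log (2 * k) ≤ 4 * (z * Real.log L) := by
      have h4 : 2 * (k : ℝ) * Real.log (2 * k) ≤ 2 * k * Real.log L := mul_le_mul_of_nonneg_left h2 (by linarith)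
      have h5 : (k : ℝ) * Real.log L ≤ z * Real.log L := mul_le_mul_of_nonneg_right hkz hlog
      linarith
    calc 2 * e ≤ Real.exp 1 * Real.exp (-(L ^ (1 / 10 : ℝ))) := by
          rw [he]
          exact mul_le_mul_of_nonneg_right hexp1 (Real.exp_pos _).le
      _ = Real.exp (1 + -(L ^ (1 / 10 : ℝ))) := by rw [Real.exp_add]
      _ ≤ _ := by
          refine Real.exp_le_exp.2 ?_
          linarith
  -- the error of the truncation
  have hE2 : Ev ≤ e / 2 := by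
    have h1 : ∑ p ∈ PS X, (nu (univ.image a) p : ℝ) / p ≤ z * Real.log L := by
      calc ∑ p ∈ PS X, (nu (univ.image a) p : ℝ) / p ≤ ∑ p ∈ PS X, (k : ℝ) * (1 / (p : ℝ)) := by
            refine sum_le_sum fun p _ => ?_
            have h2 : (nu (univ.image a) p : ℝ) ≤ k := by exact_mod_cast S10_nu_k a p
            rw [mul_one_div]
            exact div_le_div_of_nonneg_right h2 (Nat.cast_nonneg _)
        _ = k * ∑ p ∈ PS X, 1 / (p : ℝ) := by rw [mul_sum]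
        _ ≤ z * Real.log L := mul_le_mul hkz hσ (sum_nonneg fun p _ => by positivity) (by linarith)
    have h2 := S11_fac b1 (sum_nonneg fun p _ => by positivity) h1 ht1
    rw [← hE] at h2
    refine h2.trans ?_
    have h3 : L ^ (1 / 10 : ℝ) ≤ L ^ (9 / 20 : ℝ) := Real.rpow_le_rpow_of_exponent_le hL1 (by norm_num)
    have h4 : Real.exp (-(3 * L ^ (9 / 20 : ℝ))) ≤ Real.exp (-1 + -(L ^ (1 / 10 : ℝ))) := by
      refine Real.exp_le_exp.2 ?_
      linarith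
    refine h4.trans ?_
    rw [Real.exp_add, ← he, Real.exp_neg]
    have h5 : (Real.exp 1)⁻¹ ≤ 1 / 2 := by
      rw [← one_div]
      exact one_div_le_one_div_of_le (by norm_num) hexp1
    calc (Real.exp 1)⁻¹ * e ≤ 1 / 2 * e := mul_le_mul_of_nonneg_right h5 he0.le
      _ = e / 2 := by ring
  -- the roundoff
  have hW2 : 2 * W ≤ x * (e / 2) := by
    have h1 : 1 + ∑ p ∈ PS X, (nu (univ.image a) p : ℝ) ≤ Real.exp (2 * L ^ (2 / 5 : ℝ)) := by
      have h2 : ∑ p ∈ PS X, (nu (univ.image a) p : ℝ) ≤ k * Real.exp (L ^ (2 / 5 : ℝ)) := by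
        calc ∑ p ∈ PS X, (nu (univ.image a) p : ℝ) ≤ ∑ p ∈ PS X, (k : ℝ) :=
              sum_le_sum fun p _ => by exact_mod_cast S10_nu_k a p
          _ = (PS X).card * k := by rw [sum_const, nsmul_eq_mul]
          _ ≤ Real.exp (L ^ (2 / 5 : ℝ)) * k := by
              refine mul_le_mul_of_nonneg_right (le_trans ?_ hwS) (by linarith)
              have h3 : (PS X).card ≤ wS X := by
                unfold PS
                refine (card_filter_le _ _).trans ?_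
                rw [Nat.card_Icc]
                omega
              exact_mod_cast h3
          _ = _ := mul_comm _ _
      have h3 : 1 ≤ Real.exp (L ^ (2 / 5 : ℝ)) := Real.one_le_exp (by positivity)
      have h4 : 2 * (k : ℝ) ≤ Real.exp (L ^ (2 / 5 : ℝ)) := by
        have h5 := Real.add_one_le_exp (L ^ (2 / 5 : ℝ))
        linarith
      have h5 : Real.exp (2 * L ^ (2 / 5 : ℝ)) = Real.exp (L ^ (2 / 5 : ℝ)) * Real.exp (L ^ (2 / 5 : ℝ)) := by
        rw [← Real.exp_add]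
        congr 1
        ring
      rw [h5]
      nlinarith
    have h2 : W ≤ Real.exp (8 * L ^ (17 / 20 : ℝ)) := by
      rw [hW]
      calc (1 + ∑ p ∈ PS X, (nu (univ.image a) p : ℝ)) ^ t ≤ Real.exp (2 * L ^ (2 / 5 : ℝ)) ^ t :=
            pow_le_pow_left₀ (add_nonneg zero_le_one (sum_nonneg fun p _ => Nat.cast_nonneg _)) h1 t
        _ = Real.exp ((t : ℝ) * (2 * L ^ (2 / 5 : ℝ))) := by rw [Real.exp_nat_mul]
        _ ≤ Real.exp (8 * L ^ (17 / 20 : ℝ)) := by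
            refine Real.exp_le_exp.2 ?_
            have h3 : L ^ (17 / 20 : ℝ) = L ^ (9 / 20 : ℝ) * L ^ (2 / 5 : ℝ) := by
              rw [← Real.rpow_add (by linarith)]
              norm_num
            rw [h3]
            calc (t : ℝ) * (2 * L ^ (2 / 5 : ℝ)) ≤ 4 * L ^ (9 / 20 : ℝ) * (2 * L ^ (2 / 5 : ℝ)) :=
                  mul_le_mul_of_nonneg_right ht2 (by positivity)
              _ = 8 * (L ^ (9 / 20 : ℝ) * L ^ (2 / 5 : ℝ)) := by ring
    have h3 : Real.exp (8 * L ^ (17 / 20 : ℝ)) * 4 ≤ X * e * e := by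
      have h4 : (4 : ℝ) ≤ Real.exp 2 := by
        have h5 : Real.exp 2 = Real.exp 1 * Real.exp 1 := by
          rw [← Real.exp_add]
          norm_num
        rw [h5]
        nlinarith
      have h5 : L ^ (1 / 10 : ℝ) ≤ L ^ (17 / 20 : ℝ) := Real.rpow_le_rpow_of_exponent_le hL1 (by norm_num)
      have h6 : 1 ≤ L ^ (17 / 20 : ℝ) := Real.one_le_rpow hL1 (by norm_num)
      calc Real.exp (8 * L ^ (17 / 20 : ℝ)) * 4 ≤ Real.exp (8 * L ^ (17 / 20 : ℝ)) * Real.exp 2 :=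
            mul_le_mul_of_nonneg_left h4 (Real.exp_pos _).le
        _ = Real.exp (8 * L ^ (17 / 20 : ℝ) + 2) := by rw [Real.exp_add]
        _ ≤ Real.exp (L + -(L ^ (1 / 10 : ℝ)) + -(L ^ (1 / 10 : ℝ))) := by
            refine Real.exp_le_exp.2 ?_
            linarith
        _ = X * e * e := by rw [Real.exp_add, Real.exp_add, ← hXe, ← he]
    have h4 : X * e * e ≤ x * e := mul_le_mul_of_nonneg_right hx he0.le
    linarith
  refine le_trans ?_ hbrun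
  have hx0 : (0 : ℝ) ≤ x := Nat.cast_nonneg _
  have h1 : x * (2 * e - e / 2) ≤ x * (Vv - Ev) := mul_le_mul_of_nonneg_left (by linarith) hx0
  linarith

end Pool.Agent.H16U
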