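import Pool.Agent.Lib.Helper57.Bonferroni

/-!
# H16U, module S: the Bonferroni inequalities in the symmetric form
-/

open Finset

namespace Pool.Agent.H16U

open Pool.Agent.Lib.Helper57 (T E V)

theorem SB_abs {ι : Type*} [DecidableEq ι] {P : Finset ι} {f : ι → ℝ} (hf : ∀ p ∈ P, 0 ≤ f p ∧ f p ≤ 1) (t : ℕ) :
    |T P t f - V P f| ≤ E P (t + 1) f := by
  have h1 := Pool.Agent.Lib.Helper57.bonferroni P f hf t
  have h2 := Pool.Agent.Lib.Helper57.bonferroni P f hf (t + 1)
  rw [Pool.Agent.Lib.Helper57.T_succ] at h2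
  have hE := Pool.Agent.Lib.Helper57.E_nonneg (P := P) (f := f) (fun p hp => (hf p hp).1) (t + 1)
  rcases Nat.even_or_odd t with ht | ht
  · have e1 : (-1 : ℝ) ^ t = 1 := ht.neg_one_pow
    have e2 : (-1 : ℝ) ^ (t + 1) = -1 := by rw [pow_succ, e1]; norm_num
    rw [e1] at h1
    rw [e2] at h2
    rw [abs_le]
    constructor <;> linarith
  · have e1 : (-1 : ℝ) ^ t = -1 := ht.neg_one_pow
    have e2 : (-1 : ℝ) ^ (t + 1) = 1 := by rw [pow_succ, e1]; norm_num
    rw [e1] at h1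
    rw [e2] at h2
    rw [abs_le]
    constructor <;> linarith

end Pool.Agent.H16U
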