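import Mathlib
import Pool.Agent.Lib.H16U.SB

/-!
# H16U, module S: the truncated sum of the Moebius function as a sum over divisors
-/

open Finset

namespace Pool.Agent.H16U

open Pool.Agent.Lib.Helper57 (T E V small sgn)

noncomputable section

open Classical in
/-- The Moebius function, truncated to the products of at most `r` primes of `P`. -/
def Gr (P : Finset ℕ) (r : ℕ) (d : ℕ) : ℝ :=
  if Squarefree d ∧ d.primeFactors ⊆ P ∧ d.primeFactors.card ≤ r then (-1) ^ d.primeFactors.card else 0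

/-- The indicator function of `p ∣ n`. -/
def dv (n : ℤ) (p : ℕ) : ℝ := if (p : ℤ) ∣ n then 1 else 0

theorem dv_bd (n : ℤ) (p : ℕ) : 0 ≤ dv n p ∧ dv n p ≤ 1 := by
  unfold dv
  split_ifs <;> norm_num

theorem S1_abs (P : Finset ℕ) (r d : ℕ) : |Gr P r d| ≤ 1 := by
  unfold Gr
  split_ifs with h
  · rw [abs_pow]
    simp
  · simp

theorem S1_sq {S : Finset ℕ} (hS : ∀ p ∈ S, p.Prime) : Squarefree (∏ p ∈ S, p) := by
  refine Finset.squarefree_prod_of_pairwise_isCoprime (fun p hp q hq hpq => ?_) fun p hp => (hS p hp).squarefree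
  simp only [Function.onFun, ← Nat.coprime_iff_isRelPrime]
  exact (Nat.coprime_primes (hS p hp) (hS q hq)).mpr hpq

theorem S1_prod_dvd {S : Finset ℕ} (hS : ∀ p ∈ S, p.Prime) (n : ℕ) : (∏ p ∈ S, p) ∣ n ↔ ∀ p ∈ S, p ∣ n := by
  constructor
  · intro h p hp
    exact (Finset.dvd_prod_of_mem (fun p => p) hp).trans h
  · intro h
    exact Finset.prod_primes_dvd n (fun p hp => (hS p hp).prime) h

theorem S1_prod_dv {S : Finset ℕ} (hS : ∀ p ∈ S, p.Prime) (n : ℕ) :
    ∏ p ∈ S, dv n p = if (∏ p ∈ S, p) ∣ n then 1 else 0 := by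
  by_cases h : (∏ p ∈ S, p) ∣ n
  · rw [if_pos h]
    rw [S1_prod_dvd hS] at h
    refine Finset.prod_eq_one fun p hp => ?_
    unfold dv
    rw [if_pos (by exact_mod_cast h p hp)]
  · rw [if_neg h]
    rw [S1_prod_dvd hS] at h
    push Not at h
    obtain ⟨p, hp, hpn⟩ := h
    refine Finset.prod_eq_zero hp ?_
    unfold dv
    rw [if_neg (by exact_mod_cast hpn)]

theorem S1_sum {P : Finset ℕ} (hP : ∀ p ∈ P, p.Prime) (r n : ℕ) (hn : 1 ≤ n) :
    ∑ d ∈ n.divisors, Gr P r d = T P r (dv n) := by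
  classical
  have hn0 : n ≠ 0 := by omega
  have e1 : T P r (dv n) = ∑ S ∈ (small P r).filter (fun S => (∏ p ∈ S, p) ∣ n), (-1 : ℝ) ^ S.card := by
    have h0 : T P r (dv n) = ∑ S ∈ small P r, sgn S * ∏ p ∈ S, dv n p := rfl
    rw [h0, Finset.sum_filter]
    refine Finset.sum_congr rfl fun S hS => ?_
    have hSP : ∀ p ∈ S, p.Prime := fun p hp => hP p (by
      unfold Pool.Agent.Lib.Helper57.small at hS
      exact (Finset.mem_powerset.mp (Finset.mem_filter.mp hS).1) hp)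
    rw [S1_prod_dv hSP]
    unfold sgn
    split_ifs <;> simp
  have e2 : ∑ d ∈ n.divisors, Gr P r d = ∑ d ∈ n.divisors.filter
      (fun d => Squarefree d ∧ d.primeFactors ⊆ P ∧ d.primeFactors.card ≤ r), (-1 : ℝ) ^ d.primeFactors.card := by
    rw [Finset.sum_filter]
    refine Finset.sum_congr rfl fun d _ => ?_
    unfold Gr
    rfl
  rw [e1, e2]
  refine Finset.sum_bij' (fun d _ => d.primeFactors) (fun S _ => ∏ p ∈ S, p) ?_ ?_ ?_ ?_ ?_
  · intro d hd
    rw [Finset.mem_filter, Nat.mem_divisors] at hd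
    obtain ⟨⟨hdn, _⟩, hsq, hPd, hc⟩ := hd
    rw [Finset.mem_filter]
    refine ⟨?_, ?_⟩
    · unfold Pool.Agent.Lib.Helper57.small
      rw [Finset.mem_filter, Finset.mem_powerset]
      exact ⟨hPd, hc⟩
    · rw [Nat.prod_primeFactors_of_squarefree hsq]
      exact hdn
  · intro S hS
    rw [Finset.mem_filter] at hS
    obtain ⟨hS1, hS2⟩ := hS
    unfold Pool.Agent.Lib.Helper57.small at hS1
    rw [Finset.mem_filter, Finset.mem_powerset] at hS1
    have hSP : ∀ p ∈ S, p.Prime := fun p hp => hP p (hS1.1 hp)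
    rw [Finset.mem_filter, Nat.mem_divisors, Nat.primeFactors_prod hSP]
    exact ⟨⟨hS2, hn0⟩, S1_sq hSP, hS1.1, hS1.2⟩
  · intro d hd
    rw [Finset.mem_filter] at hd
    exact Nat.prod_primeFactors_of_squarefree hd.2.1
  · intro S hS
    rw [Finset.mem_filter] at hS
    obtain ⟨hS1, _⟩ := hS
    unfold Pool.Agent.Lib.Helper57.small at hS1
    rw [Finset.mem_filter, Finset.mem_powerset] at hS1
    exact Nat.primeFactors_prod fun p hp => hP p (hS1.1 hp)
  · intro d hd
    rfl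

theorem S1_le {P : Finset ℕ} {w : ℕ} (hw : 1 ≤ w) (hP : ∀ p ∈ P, p ≤ w) {r d : ℕ} (h : Gr P r d ≠ 0) :
    d ≤ w ^ r := by
  unfold Gr at h
  have h1 : Squarefree d ∧ d.primeFactors ⊆ P ∧ d.primeFactors.card ≤ r := by
    by_contra h2
    exact h (if_neg h2)
  obtain ⟨hsq, hPd, hc⟩ := h1
  calc d = ∏ p ∈ d.primeFactors, p := (Nat.prod_primeFactors_of_squarefree hsq).symm
    _ ≤ w ^ d.primeFactors.card := Finset.prod_le_pow_card _ _ _ fun p hp => hP p (hPd hp)
    _ ≤ w ^ r := Nat.pow_le_pow_right hw hc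

open Classical in
theorem S1_V (P : Finset ℕ) (n : ℤ) : V P (dv n) = if (∀ p ∈ P, ¬ (p : ℤ) ∣ n) then 1 else 0 := by
  unfold V
  by_cases h : ∀ p ∈ P, ¬ (p : ℤ) ∣ n
  · rw [if_pos h]
    refine Finset.prod_eq_one fun p hp => ?_
    unfold dv
    rw [if_neg (h p hp), sub_zero]
  · rw [if_neg h]
    push Not at h
    obtain ⟨p, hp, hpn⟩ := h
    refine Finset.prod_eq_zero hp ?_
    unfold dv
    rw [if_pos hpn, sub_self]

end

end Pool.Agent.H16U
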