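import Mathlib
import Pool.Agent.Lib.H16U.S1

/-!
# H16U, module S: the mean value of the error term of the Bonferroni inequalities
-/

open Finset

namespace Pool.Agent.H16U

open Pool.Agent.Lib.Helper57 (T E V small sgn)

theorem S2_count (N d : ℕ) : (∑ n ∈ Icc 1 N, if d ∣ n then (1 : ℝ) else 0) ≤ N / d := by
  rw [Finset.sum_ite, Finset.sum_const_zero, add_zero, Finset.sum_const, nsmul_eq_mul, mul_one]
  have h1 : (Icc 1 N).filter (fun n => d ∣ n) = (Ioc 0 N).filter (fun n => d ∣ n) := by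
    rfl
  rw [h1, Nat.Ioc_filter_dvd_card_eq_div]
  exact Nat.cast_div_le

theorem S2_one {P : Finset ℕ} (hP : ∀ p ∈ P, p.Prime) (N t : ℕ) :
    ∑ n ∈ Icc 1 N, E P t (dv n) ≤ N * ((∑ p ∈ P, 1 / (p : ℝ)) ^ t / (t.factorial : ℝ)) := by
  have e1 : ∀ n ∈ Icc 1 N, E P t (dv (n : ℤ)) =
      ∑ S ∈ P.powersetCard t, if (∏ p ∈ S, p) ∣ n then (1 : ℝ) else 0 := by
    intro n _
    have h0 : E P t (dv n) = ∑ S ∈ P.powersetCard t, (1 : ℝ) * ∏ p ∈ S, dv n p := rfl
    rw [h0]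
    refine Finset.sum_congr rfl fun S hS => ?_
    rw [one_mul, S1_prod_dv fun p hp => hP p ((Finset.mem_powersetCard.mp hS).1 hp)]
  rw [Finset.sum_congr rfl e1, Finset.sum_comm]
  have e2 : ∑ S ∈ P.powersetCard t, ∑ n ∈ Icc 1 N, (if (∏ p ∈ S, p) ∣ n then (1 : ℝ) else 0) ≤
      ∑ S ∈ P.powersetCard t, (N : ℝ) * ∏ p ∈ S, (1 / (p : ℝ)) := by
    refine Finset.sum_le_sum fun S _ => ?_
    refine (S2_count N _).trans (le_of_eq ?_)
    rw [Finset.prod_div_distrib, Finset.prod_const_one]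
    push_cast
    rw [mul_one_div]
  refine e2.trans ?_
  rw [← Finset.mul_sum]
  have e3 : ∑ S ∈ P.powersetCard t, ∏ p ∈ S, (1 / (p : ℝ)) = E P t (fun p => 1 / (p : ℝ)) := by
    unfold E Pool.Agent.Lib.Helper57.ev
    exact Finset.sum_congr rfl fun S _ => by rw [one_mul]
  rw [e3]
  exact mul_le_mul_of_nonneg_left (Pool.Agent.Lib.Helper57.E_le (fun p _ => by positivity) t) (Nat.cast_nonneg N)

end Pool.Agent.H16U
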