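import Mathlib
import Pool.Agent.Lib.HUK.Defs

/-!
# H16U, module S: phases move into the dual functions
-/

open Finset

namespace Pool.Agent.H16U

open Pool.Agent.HUK
open Pool.Agent.H44W (ee)

noncomputable section

/-- The phase of the form `j`. -/
def S4_g (θ : ℝ) (k : ℕ) (j : ℕ) (y : ℤ) : ℂ :=
  if j = 1 then ee (θ * (2 - (k : ℝ)) * y) else if j = 2 then ee (θ * ((k : ℝ) - 1) * y) else 1

theorem S4_g_norm (θ : ℝ) (k j : ℕ) (y : ℤ) : ‖S4_g θ k j y‖ = 1 := by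
  unfold S4_g
  split_ifs
  · exact Pool.Agent.H44W.norm_ee _
  · exact Pool.Agent.H44W.norm_ee _
  · exact norm_one

theorem S4_Bdd {X : ℕ} {F : ℤ → ℂ} (hF : Bdd X F) (θ : ℝ) (k j : ℕ) : Bdd X fun y => F y * S4_g θ k j y := by
  refine ⟨fun y => ?_, fun y hy => ?_⟩
  · rw [norm_mul, S4_g_norm, mul_one]
    exact hF.le y
  · show F y * S4_g θ k j y = 0
    rw [hF.sup y hy, zero_mul]

/-- `ee (θ n) Psi X k f n = Psi X k f' n`. -/
theorem S4_phase {X k : ℕ} (hk : 3 ≤ k) {f : ℕ → ℤ → ℂ} (hf : ∀ j, j < k → Bdd X (f j)) (θ : ℝ) :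
    ∃ f' : ℕ → ℤ → ℂ, (∀ j, j < k → Bdd X (f' j)) ∧ f' 0 = f 0 ∧ ∀ n : ℤ, ee (θ * n) * Psi X k f n = Psi X k f' n := by
  refine ⟨fun j y => f j y * S4_g θ k j y, fun j hj => S4_Bdd (hf j hj) θ k j, ?_, fun n => ?_⟩
  · funext y
    show f 0 y * S4_g θ k 0 y = f 0 y
    unfold S4_g
    rw [if_neg (by norm_num), if_neg (by norm_num), mul_one]
  · unfold Psi
    rw [mul_sum]
    refine sum_congr rfl fun h _ => ?_
    rw [prod_mul_distrib, mul_comm]
    congr 1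
    have h1 : ∏ j ∈ range k, S4_g θ k j (n - ((k : ℤ) - j) * h) =
        S4_g θ k 1 (n - ((k : ℤ) - (1 : ℕ)) * h) * S4_g θ k 2 (n - ((k : ℤ) - (2 : ℕ)) * h) := by
      refine Finset.prod_eq_mul 1 2 (by norm_num) ?_ ?_ ?_
      · intro j _ hj
        unfold S4_g
        rw [if_neg hj.1, if_neg hj.2]
      · intro h'
        exact absurd (mem_range.2 (by omega)) h'
      · intro h'
        exact absurd (mem_range.2 (by omega)) h'
    rw [h1]
    unfold S4_g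
    rw [if_pos rfl, if_neg (by norm_num), if_pos rfl, ← Pool.Agent.H44W.ee_add]
    congr 1
    push_cast
    ring

theorem S4_bound {X k : ℕ} {f : ℕ → ℤ → ℂ} (hf : ∀ j, j < k → Bdd X (f j)) (n : ℤ) : ‖Psi X k f n‖ ≤ 4 * X := by
  unfold Psi
  refine (norm_sum_le _ _).trans ?_
  have h1 : ∀ h ∈ Ioo (-(2 * X : ℤ)) (2 * X), ‖∏ j ∈ range k, f j (n - ((k : ℤ) - j) * h)‖ ≤ 1 := by
    intro h _
    rw [norm_prod]
    exact prod_le_one (fun _ _ => norm_nonneg _) fun j hj => (hf j (mem_range.1 hj)).le _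
  refine (sum_le_sum h1).trans ?_
  rw [sum_const, nsmul_eq_mul, mul_one, Int.card_Ioo]
  have h2 : (2 * (X : ℤ) - -(2 * X) - 1).toNat ≤ 4 * X := by omega
  exact_mod_cast h2

end

end Pool.Agent.H16U
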