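import Mathlib
import Pool.Agent.Lib.HUK.D12

/-!
# H16U, module S: windows and periodic functions through phases
-/

open Finset

namespace Pool.Agent.H16U

open Pool.Agent.H44W (ee)

noncomputable section

/-- The Fourier coefficients of a function of period `r`. -/
def S5_c (r : ℕ) (χ : ℤ → ℂ) (i : ℕ) : ℂ := (1 / (r : ℂ)) * ∑ a ∈ range r, χ a * ee (-((i : ℝ) * a / r))

theorem S5_c_norm {r : ℕ} (hr : 1 ≤ r) {χ : ℤ → ℂ} (hχ : ∀ n, ‖χ n‖ ≤ 1) (i : ℕ) : ‖S5_c r χ i‖ ≤ 1 := by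
  have hr0 : (0 : ℝ) < r := by exact_mod_cast hr
  unfold S5_c
  rw [norm_mul, norm_div, norm_one, Complex.norm_natCast]
  have h1 : ‖∑ a ∈ range r, χ a * ee (-((i : ℝ) * a / r))‖ ≤ r := by
    refine (norm_sum_le _ _).trans ?_
    have h2 : ∀ a ∈ range r, ‖χ a * ee (-((i : ℝ) * a / r))‖ ≤ 1 := by
      intro a _
      rw [norm_mul, Pool.Agent.H44W.norm_ee, mul_one]
      exact hχ _
    refine (sum_le_sum h2).trans ?_
    rw [sum_const, card_range, nsmul_eq_mul, mul_one]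
  calc (1 / (r : ℝ)) * ‖∑ a ∈ range r, χ a * ee (-((i : ℝ) * a / r))‖ ≤ (1 / (r : ℝ)) * r :=
        mul_le_mul_of_nonneg_left h1 (by positivity)
    _ = 1 := by rw [one_div, inv_mul_cancel₀ hr0.ne']

theorem S5_per {r : ℕ} {χ : ℤ → ℂ} (hp : ∀ n : ℤ, χ (n + r) = χ n) (n q : ℤ) : χ (n + q * r) = χ n := by
  have h1 : Function.Periodic χ (r : ℤ) := hp
  have h2 := h1.int_mul q n
  exact h2

theorem S5_exp {r : ℕ} (hr : 1 ≤ r) {χ : ℤ → ℂ} (hp : ∀ n : ℤ, χ (n + r) = χ n) (n : ℤ) :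
    χ n = ∑ i ∈ range r, S5_c r χ i * ee ((i : ℝ) * n / r) := by
  have hrc : (r : ℂ) ≠ 0 := by exact_mod_cast (by omega : r ≠ 0)
  have hrz : (0 : ℤ) < r := by exact_mod_cast hr
  have e1 : ∀ i ∈ range r, S5_c r χ i * ee ((i : ℝ) * n / r) =
      ∑ a ∈ range r, (1 / (r : ℂ)) * χ a * ee ((i : ℝ) * ((n - a : ℤ) : ℝ) / r) := by
    intro i _
    unfold S5_c
    rw [mul_assoc, sum_mul, mul_sum]
    refine sum_congr rfl fun a _ => ?_
    have e2 : ee ((i : ℝ) * ((n - a : ℤ) : ℝ) / r) = ee (-((i : ℝ) * a / r)) * ee ((i : ℝ) * n / r) := by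
      rw [← Pool.Agent.H44W.ee_add]
      congr 1
      push_cast
      ring
    rw [e2]
    ring
  rw [sum_congr rfl e1, sum_comm]
  have e3 : ∀ a ∈ range r, ∑ i ∈ range r, (1 / (r : ℂ)) * χ a * ee ((i : ℝ) * ((n - a : ℤ) : ℝ) / r) =
      if a = (n % r).toNat then χ n else 0 := by
    intro a ha
    rw [mem_range] at ha
    rw [← mul_sum, Pool.Agent.H44W.ee_orth r (by omega)]
    have hm0 := Int.emod_nonneg n hrz.ne'
    have hm1 := Int.emod_lt_of_pos n hrz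
    by_cases h : (r : ℤ) ∣ n - a
    · have h1 : a = (n % r).toNat := by
        have h2 : n % r = (a : ℤ) % r := (Int.modEq_iff_dvd.mpr h : (a : ℤ) ≡ n [ZMOD r]).symm
        rw [Int.emod_eq_of_lt (by omega : (0 : ℤ) ≤ a) (by omega)] at h2
        omega
      rw [if_pos h, if_pos h1]
      obtain ⟨q, hq⟩ := h
      have h3 : n = (a : ℤ) + q * r := by linarith
      have h4 : χ n = χ a := by
        rw [h3]
        exact S5_per hp a q
      rw [h4]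
      field_simp
    · rw [if_neg h, mul_zero, if_neg]
      intro h1
      apply h
      have h2 : (a : ℤ) = n % r := by
        rw [h1]
        exact Int.toNat_of_nonneg hm0
      rw [h2]
      exact Int.dvd_self_sub_emod
  rw [sum_congr rfl e3, sum_ite_eq' (range r) _ fun _ => χ n, if_pos]
  rw [mem_range]
  have hm0 := Int.emod_nonneg n hrz.ne'
  have hm1 := Int.emod_lt_of_pos n hrz
  omega

/-- Sums over windows, twisted by a periodic function. -/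
theorem S5_window {N r : ℕ} (hr : 1 ≤ r) {χ : ℤ → ℂ} (hp : ∀ n : ℤ, χ (n + r) = χ n) (hχ : ∀ n, ‖χ n‖ ≤ 1)
    {b : ℤ → ℂ} {T : ℝ} (hT : ∀ θ : ℝ, ‖∑ n ∈ Icc 1 N, b n * ee (θ * n)‖ ≤ T) {u v : ℤ} (hu : 1 ≤ u) (hv : v ≤ N + 1) :
    ‖∑ n ∈ Ico u v, χ n * b n‖ ≤ 4 * (1 + Real.log ((N : ℝ) + 1)) * r * T := by
  obtain ⟨β, hβ0, hβ, hc⟩ := Pool.Agent.HUK.D12_ind (N + 1) (by omega)
  obtain ⟨c, hcb, hcm⟩ := hc u v
  have hT0 : 0 ≤ T := (norm_nonneg _).trans (hT 0)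
  -- to the naturals
  have e1 : ∑ n ∈ Ico u v, χ n * b n = ∑ n ∈ Icc 1 N, (if u ≤ (n : ℤ) ∧ (n : ℤ) < v then (1 : ℂ) else 0) * (χ n * b n) := by
    have e2 : ∑ n ∈ Icc 1 N, (if u ≤ (n : ℤ) ∧ (n : ℤ) < v then (1 : ℂ) else 0) * (χ n * b n) =
        ∑ n ∈ (Icc 1 N).filter (fun n : ℕ => u ≤ (n : ℤ) ∧ (n : ℤ) < v), χ n * b n := by
      rw [sum_filter]
      refine sum_congr rfl fun n _ => ?_
      split_ifs <;> simp
    rw [e2]
    symm
    refine sum_bij (fun n _ => (n : ℤ)) ?_ ?_ ?_ ?_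
    · intro n hn
      rw [mem_filter] at hn
      exact mem_Ico.2 hn.2
    · intro n _ m _ h
      exact_mod_cast h
    · intro n hn
      rw [mem_Ico] at hn
      refine ⟨n.toNat, ?_, ?_⟩
      · rw [mem_filter, mem_Icc]
        omega
      · exact Int.toNat_of_nonneg (by omega)
    · intro n _
      rfl
  have e3 : ∀ n ∈ Icc 1 N, (if u ≤ (n : ℤ) ∧ (n : ℤ) < v then (1 : ℂ) else 0) * (χ n * b n) =
      ∑ j ∈ range (N + 1), ∑ i ∈ range r, c j * S5_c r χ i * (b n * ee (((j : ℝ) / ((N + 1 : ℕ) : ℝ) + (i : ℝ) / r) * n)) := by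
    intro n hn
    rw [mem_Icc] at hn
    rw [hcm n (by omega) (by push_cast; omega)]
    have e4 := S5_exp hr hp (n : ℤ)
    rw [e4, ← mul_assoc, sum_mul_sum, sum_mul]
    refine sum_congr rfl fun j _ => ?_
    rw [sum_mul]
    refine sum_congr rfl fun i _ => ?_
    have e5 : ee (((j : ℝ) / ((N + 1 : ℕ) : ℝ) + (i : ℝ) / r) * n) =
        ee ((j : ℝ) * (n : ℤ) / ((N + 1 : ℕ) : ℝ)) * ee ((i : ℝ) * (n : ℤ) / r) := by
      rw [← Pool.Agent.H44W.ee_add]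
      congr 1
      push_cast
      ring
    rw [e5]
    ring
  rw [e1, sum_congr rfl e3, sum_comm]
  have e6 : ∀ j ∈ range (N + 1), ‖∑ n ∈ Icc 1 N, ∑ i ∈ range r, c j * S5_c r χ i *
      (b n * ee (((j : ℝ) / ((N + 1 : ℕ) : ℝ) + (i : ℝ) / r) * n))‖ ≤ β j * (r * T) := by
    intro j hj
    rw [sum_comm]
    refine (norm_sum_le _ _).trans ?_
    have e7 : ∀ i ∈ range r, ‖∑ n ∈ Icc 1 N, c j * S5_c r χ i *
        (b n * ee (((j : ℝ) / ((N + 1 : ℕ) : ℝ) + (i : ℝ) / r) * n))‖ ≤ β j * T := by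
      intro i _
      rw [← mul_sum, norm_mul, norm_mul]
      have h1 := hcb j hj
      have h2 := S5_c_norm hr hχ i
      have h3 := hT ((j : ℝ) / ((N + 1 : ℕ) : ℝ) + (i : ℝ) / r)
      calc ‖c j‖ * ‖S5_c r χ i‖ * ‖∑ n ∈ Icc 1 N, b n * ee (((j : ℝ) / ((N + 1 : ℕ) : ℝ) + (i : ℝ) / r) * n)‖
          ≤ (β j * 1) * T := by
            refine mul_le_mul (mul_le_mul h1 h2 (norm_nonneg _) (hβ0 j)) h3 (norm_nonneg _) ?_
            rw [mul_one]
            exact hβ0 j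
        _ = β j * T := by rw [mul_one]
    refine (sum_le_sum e7).trans ?_
    rw [sum_const, card_range, nsmul_eq_mul]
    linarith
  refine (norm_sum_le _ _).trans ((sum_le_sum e6).trans ?_)
  rw [← sum_mul]
  have h1 : (((N + 1 : ℕ) : ℝ)) = (N : ℝ) + 1 := by push_cast; ring
  rw [h1] at hβ
  calc (∑ j ∈ range (N + 1), β j) * (r * T) ≤ (4 * (1 + Real.log ((N : ℝ) + 1))) * (r * T) :=
        mul_le_mul_of_nonneg_right hβ (by positivity)
    _ = _ := by ring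

end

end Pool.Agent.H16U
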