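import Mathlib

/-!
# H16U, module S: partial summation with the weights `n ^ (β - 1)`
-/

open Finset

namespace Pool.Agent.H16U

theorem S6_id (a : ℕ → ℂ) (w : ℕ → ℝ) (m : ℕ) :
    ∑ i ∈ range (m + 1), ((w i : ℝ) : ℂ) * a i = ((w m : ℝ) : ℂ) * ∑ i ∈ range (m + 1), a i +
      ∑ i ∈ range m, ((w i - w (i + 1) : ℝ) : ℂ) * ∑ l ∈ range (i + 1), a l := by
  induction m with
  | zero => simp
  | succ m ih =>
    rw [sum_range_succ, ih, sum_range_succ (fun i => ((w i - w (i + 1) : ℝ) : ℂ) * ∑ l ∈ range (i + 1), a l),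
      sum_range_succ a (m + 1)]
    push_cast
    ring

theorem S6_nat {a : ℕ → ℂ} {w : ℕ → ℝ} (hw : ∀ i, w (i + 1) ≤ w i) (hw0 : ∀ i, 0 ≤ w i) {m : ℕ} {T : ℝ}
    (hT : ∀ l, l ≤ m → ‖∑ i ∈ range l, a i‖ ≤ T) : ‖∑ i ∈ range m, ((w i : ℝ) : ℂ) * a i‖ ≤ w 0 * T := by
  have hT0 : 0 ≤ T := (norm_nonneg _).trans (hT 0 (Nat.zero_le _))
  rcases Nat.eq_zero_or_pos m with hm | hm
  · subst hm
    rw [range_zero, sum_empty, norm_zero]
    exact mul_nonneg (hw0 0) hT0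
  obtain ⟨k, rfl⟩ : ∃ k, m = k + 1 := ⟨m - 1, by omega⟩
  rw [S6_id]
  have h1 : ‖((w k : ℝ) : ℂ) * ∑ i ∈ range (k + 1), a i‖ ≤ w k * T := by
    rw [norm_mul, Complex.norm_real, Real.norm_of_nonneg (hw0 k)]
    exact mul_le_mul_of_nonneg_left (hT _ le_rfl) (hw0 k)
  have h2 : ‖∑ i ∈ range k, ((w i - w (i + 1) : ℝ) : ℂ) * ∑ l ∈ range (i + 1), a l‖ ≤
      ∑ i ∈ range k, (w i - w (i + 1)) * T := by
    refine (norm_sum_le _ _).trans (sum_le_sum fun i hi => ?_)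
    rw [mem_range] at hi
    have h3 : 0 ≤ w i - w (i + 1) := by linarith [hw i]
    rw [norm_mul, Complex.norm_real, Real.norm_of_nonneg h3]
    exact mul_le_mul_of_nonneg_left (hT _ (by omega)) h3
  rw [← sum_mul, sum_range_sub'] at h2
  refine (norm_add_le _ _).trans ((add_le_add h1 h2).trans (le_of_eq ?_))
  ring

/-- Partial summation. -/
theorem S6_one {u v : ℤ} (hu : 1 ≤ u) {β : ℝ} (hβ : β ≤ 1) {b : ℤ → ℂ} {T : ℝ}
    (hT : ∀ v' : ℤ, v' ≤ v → ‖∑ n ∈ Ico u v', b n‖ ≤ T) :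
    ‖∑ n ∈ Ico u v, (((n : ℝ) ^ (β - 1) : ℝ) : ℂ) * b n‖ ≤ T := by
  have hT0 : 0 ≤ T := by
    have h1 := hT (min u v) (min_le_right _ _)
    exact (norm_nonneg _).trans h1
  have e0 : ∀ (F : ℤ → ℂ) (l : ℕ), ∑ n ∈ Ico u (u + l), F n = ∑ i ∈ range l, F (u + i) := by
    intro F l
    symm
    refine sum_bij (fun i _ => u + (i : ℤ)) ?_ ?_ ?_ ?_
    · intro i hi
      rw [mem_range] at hi
      rw [mem_Ico]
      omega
    · intro i _ j _ h
      have : (u : ℤ) + i = u + j := h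
      omega
    · intro n hn
      rw [mem_Ico] at hn
      exact ⟨(n - u).toNat, by rw [mem_range]; omega, by omega⟩
    · intro i _
      rfl
  rcases le_or_gt v u with h | h
  · rw [Ico_eq_empty_of_le h, sum_empty, norm_zero]
    exact hT0
  obtain ⟨m, hm⟩ : ∃ m : ℕ, v = u + m := ⟨(v - u).toNat, by omega⟩
  subst hm
  rw [e0]
  have h1 := S6_nat (a := fun i => b (u + i)) (w := fun i => ((u + i : ℤ) : ℝ) ^ (β - 1)) (m := m) (T := T) ?_ ?_ ?_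
  · refine h1.trans ?_
    have h2 : ((u + (0 : ℕ) : ℤ) : ℝ) ^ (β - 1) ≤ 1 := by
      refine Real.rpow_le_one_of_one_le_of_nonpos ?_ (by linarith)
      exact_mod_cast (by omega : (1 : ℤ) ≤ u + (0 : ℕ))
    calc ((u + (0 : ℕ) : ℤ) : ℝ) ^ (β - 1) * T ≤ 1 * T := mul_le_mul_of_nonneg_right h2 hT0
      _ = T := one_mul T
  · intro i
    show ((u + (i + 1 : ℕ) : ℤ) : ℝ) ^ (β - 1) ≤ ((u + (i : ℕ) : ℤ) : ℝ) ^ (β - 1)
    refine Real.rpow_le_rpow_of_nonpos ?_ ?_ (by linarith)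
    · exact_mod_cast (by omega : (0 : ℤ) < u + (i : ℕ))
    · exact_mod_cast (by omega : u + (i : ℕ) ≤ u + ((i + 1 : ℕ) : ℤ))
  · intro i
    refine Real.rpow_nonneg ?_ _
    exact_mod_cast (by omega : (0 : ℤ) ≤ u + (i : ℕ))
  · intro l hl
    have h2 := hT (u + l) (by omega)
    rw [e0] at h2
    exact h2

end Pool.Agent.H16U
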