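import Mathlib
import Pool.Agent.Lib.H16U.Defs
import Pool.Agent.Lib.H16U.S2
import Pool.Agent.Lib.H16U.S4
import Pool.Agent.Lib.H16U.S5
import Pool.Agent.Lib.H16U.S6

/-!
# H16U, module S: sums of the model against the dual functions, assembly
-/

open Finset

namespace Pool.Agent.H16U

open Pool.Agent.HUK
open Pool.Agent.H44W (ee)
open Pool.Agent.Lib.Helper57 (T E V)

theorem S7_le {g : ℤ → ℝ} (hg : ∀ n, 0 ≤ g n) {X : ℕ} {u v : ℤ} (hu : 1 ≤ u) (hv : v ≤ X) :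
    ∑ n ∈ Ico u v, g n ≤ ∑ n ∈ Icc 1 X, g (n : ℤ) := by
  have h1 : ∑ n ∈ Icc 1 X, g (n : ℤ) = ∑ n ∈ (Icc 1 X).image (fun n : ℕ => (n : ℤ)), g n := by
    rw [sum_image]
    intro a _ b _ h
    have h' : (a : ℤ) = b := h
    exact_mod_cast h'
  rw [h1]
  refine sum_le_sum_of_subset_of_nonneg ?_ fun n _ _ => hg n
  intro n hn
  rw [mem_Ico] at hn
  rw [mem_image]
  refine ⟨n.toNat, ?_, by omega⟩
  rw [mem_Icc]
  omega

theorem S7_prime {X : ℕ} : ∀ p ∈ PS X, p.Prime := fun _ hp => (mem_filter.1 hp).2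

theorem S7_cS (X : ℕ) : 1 ≤ cS X := by
  unfold cS
  have h0 : ∀ p ∈ PS X, 1 ≤ (1 - 1 / (p : ℝ))⁻¹ := by
    intro p hp
    have h1 : (2 : ℝ) ≤ p := by exact_mod_cast (S7_prime p hp).two_le
    have h2 : 1 / (p : ℝ) ≤ 1 / 2 := one_div_le_one_div_of_le (by norm_num) h1
    have h3 : 0 < 1 / (p : ℝ) := by positivity
    exact (one_le_inv₀ (by linarith)).2 (by linarith)
  calc (1 : ℝ) = ∏ p ∈ PS X, (1 : ℝ) := by rw [prod_const_one]
    _ ≤ ∏ p ∈ PS X, (1 - 1 / (p : ℝ))⁻¹ := prod_le_prod (fun _ _ => zero_le_one) h0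

/-- The weight `1 - χ n^(β-1)` is at most `2`. -/
theorem S7_wt {e : EData} (hbd : ∀ n, |e.χ n| ≤ 1) (hβ : e.β ≤ 1) {n : ℤ} (hn : 1 ≤ n) :
    |1 - e.χ n * (n : ℝ) ^ (e.β - 1)| ≤ 2 := by
  have h1 : (n : ℝ) ^ (e.β - 1) ≤ 1 :=
    Real.rpow_le_one_of_one_le_of_nonpos (by exact_mod_cast hn) (by linarith)
  have h0 : 0 ≤ (n : ℝ) ^ (e.β - 1) := Real.rpow_nonneg (by exact_mod_cast (by omega : (0 : ℤ) ≤ n)) _
  have h2 : |e.χ n * (n : ℝ) ^ (e.β - 1)| ≤ 1 := by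
    rw [abs_mul, abs_of_nonneg h0]
    calc |e.χ n| * (n : ℝ) ^ (e.β - 1) ≤ 1 * 1 := mul_le_mul (hbd n) h1 h0 zero_le_one
      _ = 1 := one_mul 1
  have h3 := abs_le.1 h2
  rw [abs_le]
  constructor <;> linarith [h3.1, h3.2]

theorem S7_main {X X' k R : ℕ} (hk : 3 ≤ k) (hXX : X ≤ X') {e : EData} (hr1 : 1 ≤ e.r)
    (hper : ∀ n : ℤ, e.χ (n + e.r) = e.χ n) (hbd : ∀ n, |e.χ n| ≤ 1) (hβ : e.β ≤ 1)
    {f : ℕ → ℤ → ℂ} (hf : ∀ j, j < k → Bdd X' (f j)) {T₀ : ℝ}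
    (hT : ∀ f' : ℕ → ℤ → ℂ, (∀ j, j < k → Bdd X' (f' j)) → f' 0 = f 0 →
      ‖∑ n ∈ Icc 1 (2 * k * X'), ((∑ d ∈ n.divisors, Gr (PS X) R d : ℝ) : ℂ) * Psi X' k f' n‖ ≤ T₀)
    {u v : ℤ} (hv : v ≤ X) :
    ‖∑ n ∈ Ico u v, ((mdl X e n : ℝ) : ℂ) * Psi X' k f n‖ ≤
      cS X * (8 * (1 + Real.log (((2 * k * X' : ℕ) : ℝ) + 1)) * e.r * T₀ +
        8 * X' * (X * ((∑ p ∈ PS X, 1 / (p : ℝ)) ^ (R + 1) / ((R + 1).factorial : ℝ)))) := by
  classical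
  set P := PS X with hPdef
  set N := 2 * k * X' with hN
  have hP : ∀ p ∈ P, p.Prime := S7_prime
  have hXN : X' ≤ N := by rw [hN]; exact Nat.le_mul_of_pos_left _ (by omega)
  obtain ⟨b, hb⟩ : ∃ b : ℤ → ℂ, b = fun n => ((T P R (dv n) : ℝ) : ℂ) * Psi X' k f n := ⟨_, rfl⟩
  -- phases
  have hphase : ∀ θ : ℝ, ‖∑ n ∈ Icc 1 N, b n * ee (θ * n)‖ ≤ T₀ := by
    intro θ
    obtain ⟨f', hf', hf0, hff⟩ := S4_phase hk hf θ
    refine le_trans (le_of_eq ?_) (hT f' hf' hf0)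
    congr 1
    refine sum_congr rfl fun n hn => ?_
    rw [mem_Icc] at hn
    rw [hb, S1_sum hP R n hn.1, ← hff n]
    push_cast
    ring
  have hT0 : 0 ≤ T₀ := (norm_nonneg _).trans (hphase 0)
  have hlog : 0 ≤ Real.log ((N : ℝ) + 1) := Real.log_nonneg (by linarith [(Nat.cast_nonneg N : (0:ℝ) ≤ N)])
  have hr0 : (1 : ℝ) ≤ e.r := by exact_mod_cast hr1
  obtain ⟨u₁, hu₁⟩ : ∃ u₁ : ℤ, u₁ = max u 1 := ⟨_, rfl⟩
  have hu1 : 1 ≤ u₁ := by rw [hu₁]; exact le_max_right _ _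
  -- windows
  have hw1 : ‖∑ n ∈ Ico u₁ v, b n‖ ≤ 4 * (1 + Real.log ((N : ℝ) + 1)) * (e.r : ℝ) * T₀ := by
    have h1 := S5_window (N := N) (r := 1) le_rfl (χ := fun _ => 1) (fun _ => rfl) (fun _ => by simp) hphase hu1
      (v := v) (by omega)
    have h2 : ∑ n ∈ Ico u₁ v, (1 : ℂ) * b n = ∑ n ∈ Ico u₁ v, b n := sum_congr rfl fun n _ => one_mul _
    rw [h2] at h1
    refine h1.trans ?_
    refine mul_le_mul_of_nonneg_right ?_ hT0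
    refine mul_le_mul_of_nonneg_left ?_ (by positivity)
    rw [Nat.cast_one]
    exact hr0
  have hw2 : ‖∑ n ∈ Ico u₁ v, (((n : ℝ) ^ (e.β - 1) : ℝ) : ℂ) * (((e.χ n : ℝ) : ℂ) * b n)‖ ≤
      4 * (1 + Real.log ((N : ℝ) + 1)) * (e.r : ℝ) * T₀ := by
    refine S6_one hu1 hβ fun v' hv' => ?_
    refine S5_window (N := N) (r := e.r) hr1 (χ := fun n => ((e.χ n : ℝ) : ℂ)) (fun n => ?_) (fun n => ?_) hphase hu1
      (v := v') (by omega)
    · show ((e.χ (n + e.r) : ℝ) : ℂ) = ((e.χ n : ℝ) : ℂ)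
      rw [hper]
    · rw [Complex.norm_real, Real.norm_eq_abs]
      exact hbd n
  -- the error
  obtain ⟨D, hD⟩ : ∃ D : ℤ → ℝ, D = fun n => V P (dv n) - T P R (dv n) := ⟨_, rfl⟩
  have hDE : ∀ n : ℤ, |D n| ≤ E P (R + 1) (dv n) := by
    intro n
    rw [hD]
    show |V P (dv n) - T P R (dv n)| ≤ _
    rw [abs_sub_comm]
    exact SB_abs (fun p _ => dv_bd n p) R
  have herr : ‖∑ n ∈ Ico u₁ v, ((D n * (1 - e.χ n * (n : ℝ) ^ (e.β - 1)) : ℝ) : ℂ) * Psi X' k f n‖ ≤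
      8 * X' * (X * ((∑ p ∈ P, 1 / (p : ℝ)) ^ (R + 1) / ((R + 1).factorial : ℝ))) := by
    refine (norm_sum_le _ _).trans ?_
    have h1 : ∀ n ∈ Ico u₁ v, ‖((D n * (1 - e.χ n * (n : ℝ) ^ (e.β - 1)) : ℝ) : ℂ) * Psi X' k f n‖ ≤
        E P (R + 1) (dv n) * (8 * X') := by
      intro n hn
      rw [mem_Ico] at hn
      rw [norm_mul, Complex.norm_real, Real.norm_eq_abs, abs_mul]
      have h2 := hDE n
      have h3 := S7_wt hbd hβ (n := n) (by omega)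
      have h4 := S4_bound hf n
      have h5 : 0 ≤ E P (R + 1) (dv n) := (abs_nonneg _).trans h2
      calc |D n| * |1 - e.χ n * (n : ℝ) ^ (e.β - 1)| * ‖Psi X' k f n‖
          ≤ E P (R + 1) (dv n) * 2 * (4 * X') :=
            mul_le_mul (mul_le_mul h2 h3 (abs_nonneg _) h5) h4 (norm_nonneg _) (by positivity)
        _ = E P (R + 1) (dv n) * (8 * X') := by ring
    refine (sum_le_sum h1).trans ?_
    rw [← sum_mul]
    have h6 := S7_le (g := fun n => E P (R + 1) (dv n)) (fun n => (abs_nonneg _).trans (hDE n)) hu1 hv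
    have h7 := S2_one hP X (R + 1)
    calc (∑ n ∈ Ico u₁ v, E P (R + 1) (dv n)) * (8 * X') ≤
        (X * ((∑ p ∈ P, 1 / (p : ℝ)) ^ (R + 1) / ((R + 1).factorial : ℝ))) * (8 * X') :=
          mul_le_mul_of_nonneg_right (h6.trans h7) (by positivity)
      _ = _ := by ring
  -- the sum
  have hmain : ∑ n ∈ Ico u v, ((mdl X e n : ℝ) : ℂ) * Psi X' k f n = ((cS X : ℝ) : ℂ) *
      ((∑ n ∈ Ico u₁ v, b n - ∑ n ∈ Ico u₁ v, (((n : ℝ) ^ (e.β - 1) : ℝ) : ℂ) * (((e.χ n : ℝ) : ℂ) * b n)) +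
        ∑ n ∈ Ico u₁ v, ((D n * (1 - e.χ n * (n : ℝ) ^ (e.β - 1)) : ℝ) : ℂ) * Psi X' k f n) := by
    have e1 : ∑ n ∈ Ico u v, ((mdl X e n : ℝ) : ℂ) * Psi X' k f n =
        ∑ n ∈ Ico u₁ v, ((mdl X e n : ℝ) : ℂ) * Psi X' k f n := by
      symm
      refine sum_subset ?_ ?_
      · intro n hn
        rw [mem_Ico] at hn ⊢
        rw [hu₁] at hn
        exact ⟨(le_max_left _ _).trans hn.1, hn.2⟩
      · intro n hn hn'
        rw [mem_Ico] at hn hn'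
        have h1 : ¬ (1 ≤ n ∧ Rough X n) := by
          intro h2
          apply hn'
          rw [hu₁]
          exact ⟨max_le hn.1 h2.1, hn.2⟩
        unfold mdl
        rw [if_neg h1]
        simp
    rw [e1, ← sum_sub_distrib, ← sum_add_distrib, mul_sum]
    refine sum_congr rfl fun n hn => ?_
    rw [mem_Ico] at hn
    have h2 : mdl X e n = cS X * (V P (dv n) * (1 - e.χ n * (n : ℝ) ^ (e.β - 1))) := by
      unfold mdl
      rw [S1_V]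
      by_cases h3 : ∀ p ∈ P, ¬ (p : ℤ) ∣ n
      · rw [if_pos (⟨by omega, h3⟩ : 1 ≤ n ∧ Rough X n), if_pos h3, one_mul]
      · rw [if_neg (fun h : 1 ≤ n ∧ Rough X n => h3 h.2), if_neg h3]
        ring
    rw [h2, hb, hD]
    push_cast
    ring
  rw [hmain, norm_mul, Complex.norm_real, Real.norm_of_nonneg (zero_le_one.trans (S7_cS X))]
  refine mul_le_mul_of_nonneg_left ?_ (zero_le_one.trans (S7_cS X))
  refine (norm_add_le _ _).trans (add_le_add ((norm_sub_le _ _).trans ?_) herr)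
  linarith

end Pool.Agent.H16U
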