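import Mathlib
import Pool.Agent.Lib.H16U.Reg
import Pool.Agent.Lib.H16U.S3
import Pool.Agent.Lib.H16U.S7
import Pool.Agent.Lib.H16U.S8A

/-!
# H16U, module S: the interface `TMu` from `TSMu`
-/

open Finset

namespace Pool.Agent.H16U

open Pool.Agent.HUK

/-- `w^R ≤ exp (L'^(9/10))`. -/
theorem S8_sup {X X' : ℕ} (hL1 : 1 ≤ Real.log X) (hLL : Real.log X ≤ Real.log X') {d : ℕ}
    (hd : Gr (PS X) ⌊(Real.log X) ^ (9 / 20 : ℝ)⌋₊ d ≠ 0) : (d : ℝ) ≤ Real.exp ((Real.log X') ^ (9 / 10 : ℝ)) := by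
  obtain ⟨L, hL⟩ : ∃ L, L = Real.log X := ⟨_, rfl⟩
  rw [← hL] at hL1 hLL hd
  have hL0 : 0 < L := by linarith
  have hw1 : 1 ≤ wS X := by
    unfold wS
    rw [← hL]
    refine Nat.le_floor ?_
    rw [Nat.cast_one]
    exact Real.one_le_exp (by positivity)
  have hw2 : ((wS X : ℕ) : ℝ) ≤ Real.exp (L ^ (2 / 5 : ℝ)) := by
    unfold wS
    rw [← hL]
    exact Nat.floor_le (Real.exp_pos _).le
  have h1 := S1_le hw1 (P := PS X) (fun p hp => (mem_Icc.1 (mem_filter.1 hp).1).2) hd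
  have h2 : (d : ℝ) ≤ (wS X : ℝ) ^ ⌊L ^ (9 / 20 : ℝ)⌋₊ := by exact_mod_cast h1
  refine h2.trans ?_
  calc (wS X : ℝ) ^ ⌊L ^ (9 / 20 : ℝ)⌋₊ ≤ Real.exp (L ^ (2 / 5 : ℝ)) ^ ⌊L ^ (9 / 20 : ℝ)⌋₊ :=
        pow_le_pow_left₀ (Nat.cast_nonneg _) hw2 _
    _ = Real.exp ((⌊L ^ (9 / 20 : ℝ)⌋₊ : ℝ) * L ^ (2 / 5 : ℝ)) := by rw [Real.exp_nat_mul]
    _ ≤ Real.exp ((Real.log X') ^ (9 / 10 : ℝ)) := by
        refine Real.exp_le_exp.2 ?_
        calc (⌊L ^ (9 / 20 : ℝ)⌋₊ : ℝ) * L ^ (2 / 5 : ℝ) ≤ L ^ (9 / 20 : ℝ) * L ^ (2 / 5 : ℝ) :=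
              mul_le_mul_of_nonneg_right (Nat.floor_le (by positivity)) (by positivity)
          _ = L ^ (17 / 20 : ℝ) := by
              rw [← Real.rpow_add hL0]
              norm_num
          _ ≤ L ^ (9 / 10 : ℝ) := Real.rpow_le_rpow_of_exponent_le hL1 (by norm_num)
          _ ≤ (Real.log X') ^ (9 / 10 : ℝ) := Real.rpow_le_rpow hL0.le hLL (by norm_num)

/-- The final numerical estimate. -/
theorem S8_num {L z m0 m1 s ρ r k c σn N X X' : ℝ} (hL1 : 1 ≤ L)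
    (a2 : 4800 * L ^ 3 ≤ Real.exp (L ^ (1 / 10 : ℝ))) (a5 : 40 * z ^ 2 ≤ L) (hk1 : 1 ≤ k) (hkz : k ≤ z)
    (hm0 : 1 ≤ m0) (hmm : 2 * m0 ≤ m1) (hs0 : 0 ≤ s) (hs : s ≤ L ^ (2 / 5 : ℝ))
    (hsρ : 2 * (m0 * (ρ + L ^ (1 / 10 : ℝ))) ≤ s) (hr0 : 0 ≤ r) (hr : r ≤ Real.exp ρ) (hc : c ≤ L)
    (hσ0 : 0 ≤ σn) (hσ : σn ≤ Real.exp (-(3 * L ^ (9 / 20 : ℝ)))) (hX : 1 ≤ X) (hLX : L = Real.log X) (hX'0 : 0 ≤ X')
    (hX' : X' ≤ 10 * k * X) (hN0 : 0 ≤ N) (hN : N ≤ 2 * k * X') :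
    c * (8 * (1 + Real.log (N + 1)) * r * (X' ^ 2 * Real.exp (-(s / m0))) + 8 * X' * (X * σn)) ≤
      X ^ 2 * Real.exp (-(s / m1)) := by
  have hk2 : 40 * k ^ 2 ≤ L := by
    have : k ^ 2 ≤ z ^ 2 := pow_le_pow_left₀ (by linarith) hkz 2
    linarith
  have hk10 : 10 * k ≤ L := by nlinarith
  have hN1 : N + 1 ≤ L * X := by
    have h1 : N ≤ 20 * k ^ 2 * X := by
      calc N ≤ 2 * k * X' := hN
        _ ≤ 2 * k * (10 * k * X) := mul_le_mul_of_nonneg_left hX' (by linarith)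
        _ = 20 * k ^ 2 * X := by ring
    have h2 : 1 ≤ 20 * k ^ 2 * X := by nlinarith [mul_self_nonneg (k - 1)]
    have h3 : 40 * k ^ 2 * X ≤ L * X := mul_le_mul_of_nonneg_right hk2 (by linarith)
    linarith
  have hlog : 1 + Real.log (N + 1) ≤ 3 * L := by
    have h1 : Real.log (N + 1) ≤ Real.log (L * X) := Real.log_le_log (by linarith) hN1
    rw [Real.log_mul (by linarith) (by linarith), ← hLX] at h1
    have h2 := Real.log_le_self (by linarith : (0:ℝ) ≤ L)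
    linarith
  have hlog0 : 0 ≤ Real.log (N + 1) := Real.log_nonneg (by linarith)
  have hX2 : X' ^ 2 ≤ 5 / 2 * L * X ^ 2 := by
    calc X' ^ 2 ≤ (10 * k * X) ^ 2 := pow_le_pow_left₀ hX'0 hX' 2
      _ = 100 * k ^ 2 * X ^ 2 := by ring
      _ ≤ 5 / 2 * L * X ^ 2 := mul_le_mul_of_nonneg_right (by linarith) (by positivity)
  obtain ⟨E1, hE1⟩ : ∃ E1, E1 = Real.exp (-(s / m1)) := ⟨_, rfl⟩
  obtain ⟨E0, hE0⟩ : ∃ E0, E0 = Real.exp (-(s / m0)) := ⟨_, rfl⟩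
  have hE0p : 0 < E0 := by rw [hE0]; exact Real.exp_pos _
  have hE1p : 0 < E1 := by rw [hE1]; exact Real.exp_pos _
  have key1 : 4800 * L ^ 3 * r * E0 ≤ E1 := by
    have h1 : 4800 * L ^ 3 * r ≤ Real.exp (L ^ (1 / 10 : ℝ)) * Real.exp ρ :=
      mul_le_mul a2 hr hr0 (Real.exp_pos _).le
    calc 4800 * L ^ 3 * r * E0 ≤ Real.exp (L ^ (1 / 10 : ℝ)) * Real.exp ρ * E0 :=
          mul_le_mul_of_nonneg_right h1 hE0p.le
      _ = Real.exp (L ^ (1 / 10 : ℝ) + ρ + -(s / m0)) := by rw [hE0, Real.exp_add, Real.exp_add]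
      _ ≤ E1 := by
          rw [hE1]
          refine Real.exp_le_exp.2 ?_
          have h2 : s / m1 ≤ s / m0 / 2 := by
            rw [div_div, mul_comm]
            exact div_le_div_of_nonneg_left hs0 (by linarith) hmm
          have h3 : ρ + L ^ (1 / 10 : ℝ) ≤ s / m0 / 2 := by
            rw [le_div_iff₀ (by norm_num), le_div_iff₀ (by linarith)]
            linarith
          linarith
  have key2 : 16 * L ^ 2 * Real.exp (-(3 * L ^ (9 / 20 : ℝ))) ≤ E1 := by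
    have h1 : 16 * L ^ 2 ≤ Real.exp (L ^ (9 / 20 : ℝ)) := by
      have h2 : 16 * L ^ 2 ≤ 4800 * L ^ 3 := by
        have h3 : L ^ 2 ≤ L ^ 3 := pow_le_pow_right₀ hL1 (by norm_num)
        nlinarith [pow_nonneg (by linarith : (0:ℝ) ≤ L) 2]
      have h3 : Real.exp (L ^ (1 / 10 : ℝ)) ≤ Real.exp (L ^ (9 / 20 : ℝ)) :=
        Real.exp_le_exp.2 (Real.rpow_le_rpow_of_exponent_le hL1 (by norm_num))
      linarith
    calc 16 * L ^ 2 * Real.exp (-(3 * L ^ (9 / 20 : ℝ))) ≤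
          Real.exp (L ^ (9 / 20 : ℝ)) * Real.exp (-(3 * L ^ (9 / 20 : ℝ))) :=
          mul_le_mul_of_nonneg_right h1 (Real.exp_pos _).le
      _ = Real.exp (-(2 * L ^ (9 / 20 : ℝ))) := by
          rw [← Real.exp_add]
          congr 1
          ring
      _ ≤ E1 := by
          rw [hE1]
          refine Real.exp_le_exp.2 ?_
          have h2 : s / m1 ≤ s := div_le_self hs0 (by linarith)
          have h3 : L ^ (2 / 5 : ℝ) ≤ L ^ (9 / 20 : ℝ) := Real.rpow_le_rpow_of_exponent_le hL1 (by norm_num)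
          have h4 : 0 ≤ L ^ (9 / 20 : ℝ) := by positivity
          linarith
  have t1 : c * (8 * (1 + Real.log (N + 1)) * r * (X' ^ 2 * E0)) ≤ X ^ 2 * E1 / 2 := by
    calc c * (8 * (1 + Real.log (N + 1)) * r * (X' ^ 2 * E0))
        ≤ L * (8 * (3 * L) * r * (5 / 2 * L * X ^ 2 * E0)) := by gcongr
      _ = 4800 * L ^ 3 * r * E0 * (X ^ 2 / 80) := by ring
      _ ≤ E1 * (X ^ 2 / 80) := mul_le_mul_of_nonneg_right key1 (by positivity)
      _ ≤ X ^ 2 * E1 / 2 := by nlinarith [mul_nonneg (sq_nonneg X) hE1p.le]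
  have t2 : c * (8 * X' * (X * σn)) ≤ X ^ 2 * E1 / 2 := by
    calc c * (8 * X' * (X * σn)) ≤ L * (8 * (10 * k * X) * (X * Real.exp (-(3 * L ^ (9 / 20 : ℝ))))) := by gcongr
      _ = 10 * k * (8 * L * X ^ 2 * Real.exp (-(3 * L ^ (9 / 20 : ℝ)))) := by ring
      _ ≤ L * (8 * L * X ^ 2 * Real.exp (-(3 * L ^ (9 / 20 : ℝ)))) := mul_le_mul_of_nonneg_right hk10 (by positivity)
      _ = 16 * L ^ 2 * Real.exp (-(3 * L ^ (9 / 20 : ℝ))) * (X ^ 2 / 2) := by ring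
      _ ≤ E1 * (X ^ 2 / 2) := mul_le_mul_of_nonneg_right key2 (by positivity)
      _ = X ^ 2 * E1 / 2 := by ring
  rw [← hE0, ← hE1, mul_add]
  linarith

/-- **The interface of module S, first part.** -/
theorem S8_TMu {B0 : ℕ} (h : TSMu B0) : ∃ B : ℕ, TMu B := by
  obtain ⟨L1, hL1, hA⟩ := S8A_all
  obtain ⟨L0, hL0, hM⟩ := S3_main
  obtain ⟨B1, hB1⟩ := RG.large (max L0 L1)
  obtain ⟨B2, hB2⟩ := RG.mk_small B0
  obtain ⟨B3, hB3⟩ := RG.small 1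
  refine ⟨B0 + B1 + B2 + B3 + 1, ?_⟩
  intro k hk X X' hRG hXX hX' e s hE hS f hf hG u v _ hv
  have hk1 : 1 ≤ k := by omega
  have hlarge := hB1 k X hk1 (hRG.mono (by omega))
  have hLL0 : L0 ≤ Real.log X := (le_max_left _ _).trans hlarge
  have hLL1 : L1 ≤ Real.log X := (le_max_right _ _).trans hlarge
  have hm0 := hB2 k X hk1 (hRG.mono (by omega))
  have hsm := hB3 k X hk1 (hRG.mono (by omega))
  obtain ⟨hcS, hσ⟩ := hM X hLL0
  obtain ⟨a1, a2, a3, a4, a5, a6⟩ := hA _ hLL1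
  have hX0 : 1 ≤ X := hRG.X_pos
  have hL1' : 1 ≤ Real.log X := hL1.trans hLL1
  have hkz : (k : ℝ) ≤ (Real.log X) ^ (1 / 1000 : ℝ) := by
    refine le_trans ?_ hsm
    calc (k : ℝ) ≤ 2 ^ k := nat_le_two_pow k
      _ ≤ (2 : ℝ) ^ (2 ^ (1 * k)) := by
          refine pow_le_pow_right₀ (by norm_num) ?_
          rw [one_mul]
          exact (Nat.lt_two_pow_self (n := k)).le
  have hLLX : Real.log X ≤ Real.log X' := Real.log_le_log (by exact_mod_cast hX0) (by exact_mod_cast hXX)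
  have hX'R : (X' : ℝ) ≤ 10 * k * X := by exact_mod_cast hX'
  have hkR : (1 : ℝ) ≤ k := by exact_mod_cast hk1
  have hXR : (1 : ℝ) ≤ X := by exact_mod_cast hX0
  have hmm : 2 * mk B0 k ≤ mk (B0 + B1 + B2 + B3 + 1) k := by
    unfold mk
    rw [← pow_succ']
    refine pow_le_pow_right₀ (by norm_num) ?_
    have : 1 ≤ 2 ^ k := Nat.one_le_two_pow
    nlinarith
  -- the saving
  have hshi : s ≤ (Real.log X) ^ (2 / 5 : ℝ) := by
    rcases hS with hS | hS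
    · exact hS.2.2.hi
    · exact hS.2
  have hslo : (Real.log X) ^ (1 / 6 : ℝ) ≤ s := by
    rcases hS with hS | hS
    · exact hS.2.2.lo
    · exact (Real.rpow_le_rpow_of_exponent_le hL1' (by norm_num)).trans hS.1
  have hs0 : 0 ≤ s := le_trans (by positivity) hslo
  obtain ⟨ρ, hρ1, hρ2⟩ : ∃ ρ : ℝ, (e.r : ℝ) ≤ Real.exp ρ ∧
      2 * (mk B0 k * (ρ + (Real.log X) ^ (1 / 10 : ℝ))) ≤ s := by
    have hm0p := mk_pos B0 k
    rcases hS with hS | hS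
    · refine ⟨0, ?_, ?_⟩
      · rw [hS.1, Real.exp_zero, Nat.cast_one]
      · rw [zero_add]
        calc 2 * (mk B0 k * (Real.log X) ^ (1 / 10 : ℝ)) ≤
              2 * ((Real.log X) ^ (1 / 1000 : ℝ) * (Real.log X) ^ (1 / 10 : ℝ)) := by gcongr
          _ ≤ s := a3.trans hslo
    · refine ⟨(Real.log X) ^ (1 / 5 : ℝ), hE.rle, ?_⟩
      calc 2 * (mk B0 k * ((Real.log X) ^ (1 / 5 : ℝ) + (Real.log X) ^ (1 / 10 : ℝ))) ≤
            2 * ((Real.log X) ^ (1 / 1000 : ℝ) * ((Real.log X) ^ (1 / 5 : ℝ) + (Real.log X) ^ (1 / 10 : ℝ))) := by gcongr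
        _ ≤ s := a4.trans hS.1
  -- log X' is at most 2 log X
  have hk2 : 40 * (k : ℝ) ^ 2 ≤ Real.log X := by
    have : (k : ℝ) ^ 2 ≤ ((Real.log X) ^ (1 / 1000 : ℝ)) ^ 2 := pow_le_pow_left₀ (by linarith) hkz 2
    linarith
  have hLX' : Real.log X' ≤ 2 * Real.log X := by
    have h1 : (X' : ℝ) ≤ Real.log X * X := by
      refine hX'R.trans (mul_le_mul_of_nonneg_right ?_ (by linarith))
      nlinarith
    have h2 : Real.log X' ≤ Real.log (Real.log X * X) :=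
      Real.log_le_log (by exact_mod_cast (by omega : 0 < X')) h1
    rw [Real.log_mul (by linarith) (by linarith)] at h2
    have h3 := Real.log_le_self (by linarith : (0:ℝ) ≤ Real.log X)
    linarith
  have hSR : SR X' s := by
    refine ⟨?_, ?_⟩
    · calc (Real.log X') ^ (1 / 7 : ℝ) ≤ ((Real.log X) ^ (7 / 6 : ℝ)) ^ (1 / 7 : ℝ) :=
            Real.rpow_le_rpow (by linarith) (hLX'.trans a6) (by norm_num)
        _ = (Real.log X) ^ (1 / 6 : ℝ) := by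
            rw [← Real.rpow_mul (by linarith)]
            norm_num
        _ ≤ s := hslo
    · exact hshi.trans (Real.rpow_le_rpow (by linarith) hLLX (by norm_num))
  have hRG' : RG B0 k X' := (hRG.mono (by omega)).monoX hXX hX0
  have hmain := S7_main (X := X) (X' := X') (k := k) (R := ⌊(Real.log X) ^ (9 / 20 : ℝ)⌋₊) hk hXX hE.r1 hE.per hE.bd
    hE.b1 hf (T₀ := (X' : ℝ) ^ 2 * Real.exp (-(s / mk B0 k))) (fun f' hf' hf0 => ?_) (u := u) (v := v) hv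
  · refine hmain.trans ?_
    refine S8_num hL1' a2 a5 hkR hkz (mk_one_le B0 k) hmm hs0 hshi hρ2 (Nat.cast_nonneg _) hρ1
      hcS ?_ ?_ hXR rfl (Nat.cast_nonneg _) hX'R (Nat.cast_nonneg _) ?_
    · exact div_nonneg (pow_nonneg (sum_nonneg fun p _ => by positivity) _) (Nat.cast_nonneg _)
    · refine S8A_fac hL1' a1 (sum_nonneg fun p _ => by positivity) hσ ?_
      have := Nat.lt_floor_add_one ((Real.log X) ^ (9 / 20 : ℝ))
      push_cast
      linarith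
    · push_cast
      exact le_rfl
  · refine h k hk X' hRG' s hSR _ (S1_abs _ _) (fun d hd => S8_sup hL1' hLLX hd) f' hf' ?_
    rw [hf0]
    exact hG

end Pool.Agent.H16U
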