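import Pool.Agent.Lib.H16U.F5
import Pool.Agent.Lib.H16U.F6
import Pool.Agent.Lib.H16U.CA
import Pool.Agent.Lib.H16U.CB
import Pool.Agent.Lib.H16U.CC
import Pool.Agent.Lib.H16U.S8
import Pool.Agent.Lib.H16U.S11
import Pool.Agent.Lib.H24W.FIN
import Pool.Agent.Lib.H24W.CSB
import Pool.Agent.Lib.H44UB.Final

/-!
# H16U, F7: Theorem U
-/

namespace Pool.Agent.H16U

theorem F7_CSb : CSb := Pool.Agent.H24W.cS_le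

/-- Theorem U. -/
theorem F7_main : ∃ κ : ℝ, 0 < κ ∧ ∃ x0 : ℕ, ThF κ x0 := by
  obtain ⟨B1, h1⟩ := Pool.Agent.H44UB.TLPu_holds
  obtain ⟨B2, h2⟩ := Pool.Agent.H44UB.TSMu_holds
  obtain ⟨B3, h3⟩ := CA_TP B1 h1
  obtain ⟨B4, h4⟩ := S8_TMu h2
  obtain ⟨B5, h5⟩ := CB_close B3 B4 h3 h4 F7_CSb
  obtain ⟨B6, h6⟩ := CC_iter Pool.Agent.H24W.p2u B5 h5
  obtain ⟨B7, h7⟩ := S11_MTu
  obtain ⟨B8, h8⟩ := F5_bad B6 B7 h6 h7 F7_CSb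
  exact F6_main B8 h8

end Pool.Agent.H16U
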